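import Pool.Agent.BQ1.FC
import Pool.Agent.RQM.C87

/-!
# Constant words of every length: the complete list

Forward direction of the classification of the fields with unique factorisation for which all partial
quotients of the period but the last are equal, every period length at least three.
-/

set_option autoImplicit false

namespace Pool.Agent.BQ1

open scoped NumberField
open Function Pool.Agent.Lib_helper5 Pool.Agent.LibH4 Pool.Agent.LibH4.CFO Pool.Agent.LibH4.LO
  Pool.Agent.LibH4.CW Pool.Agent.LibH4.CX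

variable {m B : ℤ} {s : ℝ} {x : ℕ → ℝ} {c : ℕ → ℕ}

/-- **no unique factorisation with inert small primes**, every length -/
theorem no_ufd_all (h : Data m B s x c) (hm : 0 < m) {L a d : ℕ}
    (hL : minimalPeriod gsh (x 1) = L) (hL3 : 3 ≤ L)
    (hc : ∀ i, 1 ≤ i → i < L → c i = a)
    [IsDomain (QuadraticAlgebra ℤ m B)] [UniqueFactorizationMonoid (QuadraticAlgebra ℤ m B)]
    (hd : (d : ℤ) = B ^ 2 + 4 * m) (hsq : Squarefree d)
    (hin : ∀ p : ℕ, p.Prime → p ≤ 19 → ∀ X : ℤ, ¬ (p : ℤ) ∣ X ^ 2 + B * X - m) : False := by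
  rcases Nat.even_or_odd' L with ⟨k, hk | hk⟩
  · obtain ⟨n, rfl⟩ : ∃ n, k = n + 1 := ⟨k - 1, by omega⟩
    have W := world_even h hm (n := n) (a := a) (by rw [hL, hk]) hd hsq hin
      (fun i h1 h2 => hc i h1 (by omega))
    exact no_even W
  · obtain ⟨n, rfl⟩ : ∃ n, k = n + 1 := ⟨k - 1, by omega⟩
    by_cases h13 : (2 * (n + 1) + 1) % 13 = 0
    · exact no13 h hm (n := n) (a := a) (by rw [hL, hk]) hd hin
        (fun i h1 h2 => hc i h1 (by omega)) h13
    · have W := world_odd h hm (n := n) (a := a) (by rw [hL, hk]) hd hin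
        (fun i h1 h2 => hc i h1 (by omega))
      exact no_odd W h13

/-- **the complete list**, every length at least three -/
theorem fwd_all (d : ℕ) (h1 : 1 < d) (hsq : Squarefree d) {a L : ℕ}
    (hL : minimalPeriod gsh (gsh (omg d)) = L) (hL3 : 3 ≤ L)
    (hw : ∀ i, 1 ≤ i → i < L → ⌊gsh^[i] (omg d)⌋ = (a : ℤ))
    (hU : UniqueFactorizationMonoid (𝓞 (KQ d))) : d ∈ dL := by
  obtain ⟨m, B, s, x, c, h, hx1, hm, hB, hd⟩ := exists_data d h1 hsq
  rw [← hx1] at hL
  have hc : ∀ i, 1 ≤ i → i < L → c i = a := by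
    intro i hi1 hi2
    obtain ⟨j, rfl⟩ : ∃ j, i = j + 1 := ⟨i - 1, by omega⟩
    have h2 := hw (j + 1) hi1 hi2
    rw [← x_eq_iter h hx1, ← h.fl] at h2
    exact_mod_cast h2
  have ha : 1 ≤ a := by
    rw [← hc 1 le_rfl (by omega)]
    exact (inv_of h 1).cpos
  obtain ⟨e⟩ : Nonempty (QuadraticAlgebra ℤ m B ≃+* 𝓞 (KQ d)) := by
    rcases hd with ⟨h4, hd, hB2⟩ | ⟨h4, hd, hB2⟩
    · obtain ⟨e⟩ := exists_equiv_QI hd hB2
      exact ⟨e.symm.trans (eqvO hsq h1)⟩
    · obtain ⟨e⟩ := exists_equiv_QI_even hd h4 hB2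
      exact ⟨e.symm.trans (eqvO hsq h1)⟩
  have i1 : IsDomain (QuadraticAlgebra ℤ m B) := e.toMulEquiv.isDomain
  have i2 : UniqueFactorizationMonoid (QuadraticAlgebra ℤ m B) :=
    e.symm.toMulEquiv.uniqueFactorizationMonoid hU
  by_cases hin : ∀ p : ℕ, p.Prime → p ≤ 19 → ∀ X : ℤ, ¬ (p : ℤ) ∣ X ^ 2 + B * X - m
  · exfalso
    rcases hd with ⟨h4, hd, hB2⟩ | ⟨h4, hd, hB2⟩
    · exact no_ufd_all h hm hL hL3 hc hd hsq hin
    · have r0 := hin 2 Nat.prime_two (by norm_num) 0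
      have r1 := hin 2 Nat.prime_two (by norm_num) 1
      push_cast at r0 r1
      omega
  · push Not at hin
    obtain ⟨p, hp, hp19, X, hX⟩ := hin
    have hD := small_D h hm hB (by omega) hL ha hc hp hp19 hX
    have ha2 : a ≤ 100 := small_a h hm hL hL3 ha hc hD
    obtain ⟨D, hD1, hD2⟩ := fin_small h hm hB hL (by omega) ha ha2 hc hD
    apply dL_of hD1
    rcases hd with ⟨h4, hd, -⟩ | ⟨h4, hd, -⟩
    · left
      refine ⟨h4, ?_⟩
      rw [← hd] at hD2
      exact_mod_cast hD2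
    · right
      refine ⟨h4, ?_⟩
      rw [← hd] at hD2
      exact_mod_cast hD2

end Pool.Agent.BQ1
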