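import Pool.Agent.BQ1.LVL
import Pool.Agent.PSX.M_REL
import Pool.Agent.RQM.C14

/-!
# The relation of an odd cycle for a family (note 2964, section 2)
-/

set_option autoImplicit false

namespace Pool.Agent.BQ1

open Finset (range)
open Pool.Agent.P4G (Fam QN FN FZ CC CR Hs)
open Pool.Agent.PSX (Es Z0 XA YA sm)
open Pool.Agent.LibH4 Pool.Agent.LibH4.FA Pool.Agent.Lib_helper5

/-- the exact identity for cycles of odd length -/
theorem odd_int (m B : ℤ) (hm : 0 < m) (hm2 : m % 2 = 1) (hB2 : B % 2 = 1) {I : ℕ}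
    {P R S : ℕ → ℤ} {c : ℕ → ℕ} (h : OddCyc m B I P R S c)
    [IsDomain (QuadraticAlgebra ℤ m B)] [UniqueFactorizationMonoid (QuadraticAlgebra ℤ m B)]
    {d : ℕ} (hd : (d : ℤ) = B ^ 2 + 4 * m) (h8 : d % 8 = 5)
    (q : ℕ) (hq : 0 < q) (hcop : Nat.Coprime q d)
    (f : ℤ → ℤ) (hper : ∀ x, f (x + q) = f x) (hodd : ∀ x, f (-x) = - f x) :
    (d : ℤ) * (2 * RDF.LL (2 * I + 1) P R S c q f) = 3 * RZ q d f := by
  refine RDF.cyc_int h.cyc d h8 ?_ q hq hcop ?_ f hper hodd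
  · intro n hn
    rw [← h.count hm n hn]
    exact (ncard_SN hd h8 n hn).2
  · intro f hper hodd'
    rw [h.Pm, h.RB, h.S1]
    apply mean_even m B hm2 hB2 q hq _ f hper hodd'
    rw [← hd]
    exact Nat.isCoprime_iff_coprime.2 hcop

namespace ODDp

lemma LL_eq {Q : ℕ} [NeZero Q] {f : ℤ → ℤ} (hper : ∀ x, f (x + Q) = f x) (K : ℕ)
    (P R S : ℕ → ℤ) (c : ℕ → ℕ) :
    RDF.LL K P R S c Q (fun x => 4 * f (4 * x) - f x)
      = ∑ k ∈ range K, (3 * XA (sm (RDF.fz Q f)) (P k : ZMod Q) (R k : ZMod Q) (S k : ZMod Q)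
        - ((c k : ℕ) : ℤ) * YA (sm (RDF.fz Q f)) (P k : ZMod Q) (R k : ZMod Q) (S k : ZMod Q)) := by
  have hg : ∀ x : ℤ, (fun x => 4 * f (4 * x) - f x) (x + Q) = (fun x => 4 * f (4 * x) - f x) x := by
    intro x
    have h1 : f (4 * (x + Q)) = f (4 * x) := by
      rw [mul_add]
      exact RDF.per_mulZ hper (4 * x) 4
    simp only
    rw [h1, hper]
  have hsm : ∀ z : ZMod Q, RDF.fz Q (fun x => 4 * f (4 * x) - f x) z = sm (RDF.fz Q f) z :=
    fun z => RDF.fz_smooth hper z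
  unfold RDF.LL
  refine Finset.sum_congr rfl fun k _ => ?_
  rw [RDF.XZ_zmod hg, RDF.YX_zmod hg]
  simp only [hsm]
  rfl

end ODDp

/-- **the relation of an odd cycle** -/
theorem odd_rel {l q0 n e e0 : ℕ} {ψ : ℤ → ℤ} [NeZero (QN l q0 n)] (hFg : Fg l q0 n e e0 ψ)
    {m B : ℤ} (hm : 0 < m) (hm2 : m % 2 = 1) (hB2 : B % 2 = 1) {I : ℕ}
    {P R S : ℕ → ℤ} {c : ℕ → ℕ} (hc : OddCyc m B I P R S c)
    [IsDomain (QuadraticAlgebra ℤ m B)] [UniqueFactorizationMonoid (QuadraticAlgebra ℤ m B)]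
    {d : ℕ} (hd : (d : ℤ) = B ^ 2 + 4 * m) (h8 : d % 8 = 5) (hcop : Nat.Coprime (QN l q0 n) d) :
    ∑ k ∈ range (2 * I + 1), Es (FZ l q0 n e ψ) (P k : ZMod (QN l q0 n)) (R k : ZMod (QN l q0 n))
      (S k : ZMod (QN l q0 n)) ((c k : ℕ) : ℤ) = 0 := by
  have h := hFg.fam
  have hQ0 : 0 < QN l q0 n := Nat.pos_of_ne_zero (NeZero.ne _)
  obtain ⟨f, hper, hodd, hf⟩ := P4G.exists_lift h.Modd (FN l n e ψ) h.FN_per h.FN_neg
  have hperg : ∀ x, (fun x => 4 * f (4 * x) - f x) (x + (QN l q0 n : ℕ))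
      = (fun x => 4 * f (4 * x) - f x) x := by
    intro x
    have h1 : f (4 * (x + (QN l q0 n : ℕ))) = f (4 * x) := by
      rw [mul_add]
      exact RDF.per_mulZ hper (4 * x) 4
    simp only
    rw [h1, hper]
  have hoddg : ∀ x, (fun x => 4 * f (4 * x) - f x) (-x) = - (fun x => 4 * f (4 * x) - f x) x := by
    intro x
    simp only
    rw [mul_neg, hodd, hodd]
    ring
  have h1 := odd_int m B hm hm2 hB2 hc hd h8 (QN l q0 n) hQ0 hcop
    (fun x => 4 * f (4 * x) - f x) hperg hoddg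
  rw [RDF.RZ_smooth f h.Qodd h8 hper hodd, ODDp.LL_eq hper] at h1
  have hcc := hc.cyc
  have h2 := PSX.t_BFD PSX.t_NUS PSX.t_DBL (QN l q0 n) h.Qodd (RDF.fz (QN l q0 n) f)
    (RDF.fz_neg hper hodd) (2 * I + 1) (fun k => (P k : ZMod (QN l q0 n)))
    (fun k => (R k : ZMod (QN l q0 n))) (fun k => (S k : ZMod (QN l q0 n)))
    (fun k => ((c k : ℕ) : ℤ)) (by
      intro k hk
      refine ⟨?_, ?_, ?_⟩
      · rw [hcc.hP k hk]
      · rw [hcc.hR k hk]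
        push_cast
        ring
      · rw [hcc.hS k hk]
        push_cast
        ring) (by simp only [hcc.P0]) (by simp only [hcc.R0]) (by simp only [hcc.S0])
  rw [h2] at h1
  have hd0 : (0 : ℤ) < d := by
    have : 0 < d := by omega
    exact_mod_cast this
  have hQz : (0 : ℤ) < (QN l q0 n : ℕ) := by exact_mod_cast hQ0
  have h3 : (6 * (QN l q0 n : ℤ) ^ 2 * d) * ∑ k ∈ range (2 * I + 1),
      (Es (RDF.fz (QN l q0 n) f) (P k : ZMod (QN l q0 n)) (R k : ZMod (QN l q0 n))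
        (S k : ZMod (QN l q0 n)) ((c k : ℕ) : ℤ)
        - ((c k : ℕ) : ℤ) * Z0 (RDF.fz (QN l q0 n) f) (S k : ZMod (QN l q0 n)))
      = (6 * (QN l q0 n : ℤ) ^ 2 * d) * (2 * RDF.HH (QN l q0 n) d (fun x => f (4 * x))) := by
    linear_combination h1
  have h4 := mul_left_cancel₀ (by positivity) h3
  have h5 := congrArg (Int.cast : ℤ → ZMod (l ^ (n + 1))) h4
  have hz : ∀ S : ZMod (QN l q0 n),
      ((Z0 (RDF.fz (QN l q0 n) f) S : ℤ) : ZMod (l ^ (n + 1))) = 0 := fun S => by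
    rw [PSX.M_REL.Z0_cast hf, zsq hFg]
  rw [Int.cast_sum] at h5
  simp only [Int.cast_mul, Int.cast_sub, hz, PSX.M_REL.HH_zero h d hf, mul_zero, sub_zero,
    PSX.M_REL.Es_cast hf] at h5
  exact h5

end Pool.Agent.BQ1
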