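import Pool.Agent.BQ1.STP
import Pool.Agent.BQ1.ODD

/-!
# The closing of a word `(B; a, .., a)` modulo `Q ∣ B - a`, and the descent (note 2964, sections 0, 5)
-/

set_option autoImplicit false

namespace Pool.Agent.BQ1

open Finset (range)
open Pool.Agent.P4G (Fam QN FN FZ CC CR Hs)
open Pool.Agent.PSX (Es)
open Pool.Agent.LibH4 Pool.Agent.LibH4.FA Pool.Agent.Lib_helper5

/-- the Lucas sequence -/
def U (a : ℤ) : ℕ → ℤ
  | 0 => 0
  | 1 => 1
  | (k + 2) => a * U a (k + 1) + U a k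

lemma U_step (a : ℤ) (k : ℕ) : U a (k + 2) = a * U a (k + 1) + U a k := rfl

lemma U_add (a : ℤ) (m n : ℕ) :
    U a (m + n + 1) = U a (m + 1) * U a (n + 1) + U a m * U a n ∧
    U a (m + n + 2) = U a (m + 1) * U a (n + 2) + U a m * U a (n + 1) := by
  induction n with
  | zero =>
    refine ⟨?_, ?_⟩
    · simp [U]
    · simp only [U, add_zero]
      ring
  | succ n ih =>
    obtain ⟨h1, h2⟩ := ih
    refine ⟨?_, ?_⟩
    · rw [show m + (n + 1) + 1 = m + n + 2 by ring, h2]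
    · rw [show m + (n + 1) + 2 = (m + n + 1) + 2 by ring, U_step, show m + n + 1 + 1 = m + n + 2 by ring,
        h2, h1, show n + 1 + 2 = (n + 1) + 2 by ring, U_step a (n + 1), show n + 1 + 1 = n + 2 by ring,
        U_step a n]
      ring

lemma U_cas (a : ℤ) (k : ℕ) :
    U a (k + 1) ^ 2 - a * U a k * U a (k + 1) - U a k ^ 2 = (-1) ^ k := by
  induction k with
  | zero => simp [U]
  | succ k ih =>
    rw [show k + 1 + 1 = k + 2 by ring, U_step, pow_succ (-1 : ℤ) k, ← ih]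
    ring

/-- the members with odd index have no prime divisor `3` modulo `4` -/
lemma U_odd {p : ℕ} (hp : p.Prime) (h4 : p % 4 = 3) (a : ℤ) (k : ℕ) :
    ¬ (p : ℤ) ∣ U a (2 * k + 1) := by
  have : Fact p.Prime := ⟨hp⟩
  intro hd
  have h1 : U a (2 * k + 1) = U a (k + 1) ^ 2 + U a k ^ 2 := by
    have := (U_add a k k).1
    rw [show 2 * k + 1 = k + k + 1 by ring, this]
    ring
  have h2 : (((U a (k + 1)) ^ 2 + U a k ^ 2 : ℤ) : ZMod p) = 0 := by
    rw [← h1, ZMod.intCast_zmod_eq_zero_iff_dvd]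
    exact hd
  push_cast at h2
  have h3 : ((U a (k + 1) : ℤ) : ZMod p) ^ 2 = - ((U a k : ℤ) : ZMod p) ^ 2 := by
    linear_combination h2
  have h5 : ((U a k : ℤ) : ZMod p) = 0 := by
    by_contra hne
    exact ZMod.mod_four_ne_three_of_sq_eq_neg_sq' hne h3 h4
  have h6 : ((U a (k + 1) : ℤ) : ZMod p) = 0 := by
    rw [h5] at h3
    have : ((U a (k + 1) : ℤ) : ZMod p) ^ 2 = 0 := by rw [h3]; ring
    exact pow_eq_zero_iff (two_ne_zero) |>.1 this
  have h7 := congrArg (Int.cast : ℤ → ZMod p) (U_cas a k)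
  push_cast at h7
  rw [h5, h6] at h7
  have h8 : ((-1 : ZMod p)) ^ k = 0 := by rw [← h7]; ring
  have h9 : ((-1 : ZMod p)) ≠ 0 := neg_ne_zero.2 one_ne_zero
  exact pow_ne_zero k h9 h8

/-- the forms of the constant word -/
lemma foU (a m : ℤ) (k : ℕ) : fo a m (k + 1) =
    (1 - (m - 1) * (-1) ^ k * U a k ^ 2, a - 2 * (m - 1) * (-1) ^ k * U a k * U a (k + 1),
      1 + (m - 1) * (-1) ^ k * U a (k + 1) ^ 2) := by
  induction k with
  | zero =>
    rw [fo_succ, fo_zero]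
    unfold nx
    simp only [U]
    refine Prod.ext ?_ (Prod.ext ?_ ?_)
    · simp
    · simp; ring
    · simp; ring
  | succ k ih =>
    rw [fo_succ, ih]
    unfold nx
    simp only
    rw [show k + 1 + 1 = k + 2 by ring, U_step]
    refine Prod.ext ?_ (Prod.ext ?_ ?_)
    · simp only; rw [pow_succ]; ring
    · simp only; rw [pow_succ]; ring
    · simp only; rw [pow_succ]; ring

/-- the last coefficient of the first form is `1` modulo prime powers `p ^ i`, `p = 3` modulo `4` -/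
lemma m_one {p : ℕ} (hp : p.Prime) (h4 : p % 4 = 3) {a m : ℤ} {I i : ℕ}
    (hcl : foQ (p ^ i) a m (2 * I + 1) = foQ (p ^ i) a m 0) : ((p ^ i : ℕ) : ℤ) ∣ m - 1 := by
  unfold foQ at hcl
  rw [Prod.mk.injEq, Prod.mk.injEq, foU, fo_zero] at hcl
  obtain ⟨-, -, h3⟩ := hcl
  simp only at h3
  have h5 : (((m - 1) * U a (2 * I + 1) ^ 2 : ℤ) : ZMod (p ^ i)) = 0 := by
    have e : (-1 : ℤ) ^ (2 * I) = 1 := by rw [pow_mul]; norm_num
    rw [e] at h3
    push_cast at h3 ⊢
    linear_combination h3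
  rw [ZMod.intCast_zmod_eq_zero_iff_dvd] at h5
  have h6 : IsCoprime ((p ^ i : ℕ) : ℤ) (U a (2 * I + 1) ^ 2) := by
    push_cast
    apply IsCoprime.pow
    have h7 := U_odd hp h4 a I
    exact (Nat.prime_iff_prime_int.1 hp).coprime_iff_not_dvd.2 h7
  exact h6.dvd_of_dvd_mul_right h5

end Pool.Agent.BQ1
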