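import Pool.Agent.BQ1.CLO
import Pool.Agent.RQM.C45

/-!
# The descent (note 2964, section 5)
-/

set_option autoImplicit false

namespace Pool.Agent.BQ1

open Finset (range)
open Function (minimalPeriod)
open Pool.Agent.P4G (Fam QN FN FZ CC CR Hs)
open Pool.Agent.PSX (Es)
open Pool.Agent.LibH4 Pool.Agent.LibH4.FA Pool.Agent.Lib_helper5 Pool.Agent.LibH4.CFO
  Pool.Agent.LibH4.LO

/-- the situation: an odd cycle `(B; a, .., a)` of length `N` with the relations of all families -/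
structure Sit (m B a : ℤ) (d N : ℕ) (P R S c : ℕ → ℤ) : Prop where
  N2 : N % 2 = 1
  hP : ∀ k < N, P (k + 1) = S k
  hR : ∀ k < N, R (k + 1) = 2 * c k * S k - R k
  hS : ∀ k < N, S (k + 1) = P k + R k * c k - S k * c k ^ 2
  P0 : P 0 = m
  R0 : R 0 = B
  S0 : S 0 = 1
  PN : P N = m
  RN : R N = B
  SN : S N = 1
  c0 : c 0 = B
  ca : ∀ k < N, k ≠ 0 → c k = a
  rel : ∀ (q0 n e e0 : ℕ) (ψ : ℤ → ℤ) [NeZero (QN 19 q0 n)], Fg 19 q0 n e e0 ψ →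
    Nat.Coprime q0 d →
    ∑ k ∈ range N, Es (FZ 19 q0 n e ψ) (P k : ZMod (QN 19 q0 n)) (R k : ZMod (QN 19 q0 n))
      (S k : ZMod (QN 19 q0 n)) (c k) = 0

section

variable {m B a : ℤ} {d N : ℕ} {P R S c : ℕ → ℤ}

lemma Sit.pos (X : Sit m B a d N P R S c) : 0 < N := by have := X.N2; omega

lemma Sit.orbit (X : Sit m B a d N P R S c) {Q : ℕ} (hB : (Q : ℤ) ∣ B - a) (k : ℕ) (hk : k ≤ N) :
    (((P k : ℤ) : ZMod Q), ((R k : ℤ) : ZMod Q), ((S k : ℤ) : ZMod Q)) = foQ Q a m k :=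
  orb N P R S c X.hP X.hR X.hS X.P0 X.R0 X.S0 hB (by
    intro k hk
    by_cases h0 : k = 0
    · rw [h0, X.c0]; exact hB
    · rw [X.ca k hk h0]; simp) k hk

lemma Sit.closed (X : Sit m B a d N P R S c) {Q : ℕ} (hB : (Q : ℤ) ∣ B - a) :
    foQ Q a m N = foQ Q a m 0 := by
  rw [← X.orbit hB N le_rfl, ← X.orbit hB 0 (Nat.zero_le _), X.PN, X.RN, X.SN, X.P0, X.R0, X.S0]

lemma Sit.m_one (X : Sit m B a d N P R S c) {p i : ℕ} (hp : p.Prime) (h4 : p % 4 = 3)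
    (hB : ((p ^ i : ℕ) : ℤ) ∣ B - a) : ((p ^ i : ℕ) : ℤ) ∣ m - 1 := by
  obtain ⟨I, hI⟩ : ∃ I, N = 2 * I + 1 := ⟨N / 2, by have := X.N2; omega⟩
  have h1 := X.closed hB
  rw [hI] at h1
  exact BQ1.m_one hp h4 h1

/-- **the descent, first part** -/
theorem Sit.desc (X : Sit m B a d N P R S c) (hcop : Nat.Coprime 21 d)
    (hB : ((21 * 19 : ℕ) : ℤ) ∣ B - a)
    (hF : ∀ n, ∃ (e : ℕ) (ψ : ℤ → ℤ), Fg 19 21 n e 10 ψ ∧ ¬ (19 : ℤ) ∣ CR 19 21 e ψ (a ^ 2 + 4))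
    (i : ℕ) (hi : 19 ^ i ∣ N) : ((21 * 19 ^ (i + 1) : ℕ) : ℤ) ∣ B - a := by
  induction i with
  | zero => simpa using hB
  | succ i ih =>
    have h1 := ih (dvd_trans (pow_dvd_pow 19 (by omega)) hi)
    obtain ⟨e, ψ, hFg, hCR⟩ := hF i
    have hne : NeZero (QN 19 21 i) := hFg.fam.ne
    have hQ : QN 19 21 i = 21 * 19 ^ (i + 1) := rfl
    have d19 : ((19 ^ (i + 1) : ℕ) : ℤ) ∣ B - a :=
      dvd_trans (Int.natCast_dvd_natCast.2 ⟨21, by ring⟩) h1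
    have d3 : ((3 ^ 1 : ℕ) : ℤ) ∣ B - a :=
      dvd_trans (Int.natCast_dvd_natCast.2 ⟨7 * 19 ^ (i + 1), by ring⟩) h1
    have d7 : ((7 ^ 1 : ℕ) : ℤ) ∣ B - a :=
      dvd_trans (Int.natCast_dvd_natCast.2 ⟨3 * 19 ^ (i + 1), by ring⟩) h1
    have m19 := X.m_one (by norm_num) (by norm_num) d19
    have m3 := X.m_one (by norm_num) (by norm_num) d3
    have m7 := X.m_one (by norm_num) (by norm_num) d7
    have m21 : ((3 ^ 1 * 7 ^ 1 : ℕ) : ℤ) ∣ m - 1 := by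
      rw [Nat.cast_mul]
      exact IsCoprime.mul_dvd (Nat.isCoprime_iff_coprime.2 (by norm_num)) m3 m7
    have mQ : ((QN 19 21 i : ℕ) : ℤ) ∣ m - 1 := by
      rw [hQ, show 21 * 19 ^ (i + 1) = (3 ^ 1 * 7 ^ 1) * 19 ^ (i + 1) by norm_num, Nat.cast_mul]
      exact IsCoprime.mul_dvd (Nat.isCoprime_iff_coprime.2
        (Nat.Coprime.pow_right _ (by norm_num))) m21 m19
    have hBQ : ((QN 19 21 i : ℕ) : ℤ) ∣ B - a := by rw [hQ]; exact h1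
    obtain ⟨y, hy⟩ := hBQ
    have horb := X.orbit (Q := QN 19 21 i) ⟨y, hy⟩
    have hfix : ∀ k, foQ (QN 19 21 i) a m k
        = ((1 : ZMod (QN 19 21 i)), (a : ZMod (QN 19 21 i)), (1 : ZMod (QN 19 21 i))) := by
      intro k
      obtain ⟨x1, x2, x3⟩ := fo_fix (a := a) mQ k
      have key : ∀ u v : ℤ, ((QN 19 21 i : ℕ) : ℤ) ∣ u - v →
          ((u : ℤ) : ZMod (QN 19 21 i)) = (v : ZMod (QN 19 21 i)) := fun u v huv =>
        ((ZMod.intCast_eq_intCast_iff_dvd_sub v u _).2 huv).symm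
      unfold foQ
      rw [key _ _ x1, key _ _ x2, key _ _ x3, Int.cast_one]
    have hval : ∀ k < N, ((P k : ℤ) : ZMod (QN 19 21 i)) = 1 ∧
        ((R k : ℤ) : ZMod (QN 19 21 i)) = (a : ZMod (QN 19 21 i)) ∧
        ((S k : ℤ) : ZMod (QN 19 21 i)) = 1 := by
      intro k hk
      have h2 := horb k hk.le
      rw [hfix, Prod.mk.injEq, Prod.mk.injEq] at h2
      exact h2
    have hy19 := stp hFg X.pos P R S c (fun k hk => (hval k hk).1) (fun k hk => (hval k hk).2.1)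
      (fun k hk => (hval k hk).2.2) X.ca (X.rel 21 i e 10 ψ hFg hcop) (y := y)
      (by rw [X.c0]; linarith) hi hCR
    obtain ⟨z, hz⟩ := hy19
    refine ⟨z, ?_⟩
    rw [hy, hz, hQ]
    push_cast
    ring

/-- **the descent** -/
theorem Sit.fin (X : Sit m B a d N P R S c) (hcop : Nat.Coprime 21 d)
    (hB : ((21 * 19 : ℕ) : ℤ) ∣ B - a)
    (hF : ∀ n, ∃ (e : ℕ) (ψ : ℤ → ℤ), Fg 19 21 n e 10 ψ ∧ ¬ (19 : ℤ) ∣ CR 19 21 e ψ (a ^ 2 + 4))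
    {q0 e0 : ℕ} {χ : ℤ → ZMod 19}
    (hfam : ∀ n, ∃ (e : ℕ) (ψ : ℤ → ℤ), Fg 19 q0 n e e0 ψ ∧
      ∀ u : ℤ, ((ψ u * u ^ e : ℤ) : ZMod 19) = χ u)
    (he : 2 * e0 < 18) (hq : Nat.Coprime q0 d) (hqB : (q0 : ℤ) ∣ B - a) :
    ∃ (e : ℕ) (ψ : ℤ → ℤ), Fg 19 q0 0 e e0 ψ ∧ (∀ u : ℤ, ((ψ u * u ^ e : ℤ) : ZMod 19) = χ u) ∧
      ∀ (_ : NeZero (QN 19 q0 0)) (T : ℕ), T ∣ N → foQ q0 a m T = foQ q0 a m 0 →
        ∑ k ∈ range T, Es (FZ 19 q0 0 e ψ) (foQ (QN 19 q0 0) a m k).1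
          (foQ (QN 19 q0 0) a m k).2.1 (foQ (QN 19 q0 0) a m k).2.2 a = 0 := by
  have hN0 := X.pos
  obtain ⟨v, w, hw, hNv⟩ := Nat.exists_eq_pow_mul_and_not_dvd hN0.ne' 19 (by norm_num)
  have h1 := X.desc hcop hB hF v ⟨w, hNv⟩
  obtain ⟨e, ψ, hFg, hχ⟩ := hfam v
  refine ⟨e, ψ, LVLp.fg0 hFg, hχ, ?_⟩
  intro _ T hT hcl
  obtain ⟨K, hK⟩ := hT
  have hne : NeZero (QN 19 q0 v) := hFg.fam.ne
  have d19 : ((19 ^ (v + 1) : ℕ) : ℤ) ∣ B - a :=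
    dvd_trans (Int.natCast_dvd_natCast.2 ⟨21, by ring⟩) h1
  have hBQ : ((QN 19 q0 v : ℕ) : ℤ) ∣ B - a := by
    unfold QN
    rw [Nat.cast_mul]
    exact IsCoprime.mul_dvd (Nat.isCoprime_iff_coprime.2 (Nat.Coprime.pow_right _ hFg.fam.cop))
      hqB d19
  have hKn : ¬ 19 ^ (v + 1) ∣ K := by
    intro hd
    have h2 : 19 ^ (v + 1) ∣ N := by rw [hK]; exact Dvd.dvd.mul_left hd T
    rw [hNv, pow_succ] at h2
    exact hw (Nat.dvd_of_mul_dvd_mul_left (by positivity) h2)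
  exact BQ1.fin hFg (by simpa using he) hN0 P R S c X.hP X.hR X.hS X.P0 X.R0 X.S0 X.c0 X.ca
    (X.rel q0 v e e0 ψ hFg hq) hBQ (X.m_one (by norm_num) (by norm_num) d19) hK hcl hKn

/-- the period of the forms modulo `q0` -/
noncomputable def per (q0 : ℕ) (a m : ℤ) : ℕ :=
  minimalPeriod (nx (a : ZMod q0)) ((m : ZMod q0), (a : ZMod q0), 1)

lemma Sit.per_dvd (X : Sit m B a d N P R S c) {q0 : ℕ} (hqB : (q0 : ℤ) ∣ B - a) :
    per q0 a m ∣ N := by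
  have h1 := X.closed hqB
  rw [foQ_eq, foQ_eq] at h1
  exact Function.IsPeriodicPt.minimalPeriod_dvd h1

lemma Sit.per_odd (X : Sit m B a d N P R S c) {q0 : ℕ} (hqB : (q0 : ℤ) ∣ B - a) :
    per q0 a m % 2 = 1 := by
  have h1 := X.per_dvd hqB
  have h2 := X.N2
  by_contra h3
  have h4 : 2 ∣ per q0 a m := by omega
  have := dvd_trans h4 h1
  omega

lemma foQ_per (q0 : ℕ) (a m : ℤ) : foQ q0 a m (per q0 a m) = foQ q0 a m 0 := by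
  rw [foQ_eq, foQ_eq]
  exact Function.iterate_minimalPeriod

end

/-- **the situation of a field** -/
theorem sit {m B : ℤ} {s : ℝ} {x : ℕ → ℝ} {c : ℕ → ℕ} (h : Data m B s x c) (hm : 0 < m)
    (hm2 : m % 2 = 1) (hB2 : B % 2 = 1) {I : ℕ} (hL : minimalPeriod gsh (x 1) = 2 * I + 1)
    [IsDomain (QuadraticAlgebra ℤ m B)] [UniqueFactorizationMonoid (QuadraticAlgebra ℤ m B)]
    {d : ℕ} (hd : (d : ℤ) = B ^ 2 + 4 * m) (h8 : d % 8 = 5) (h19 : Nat.Coprime 19 d) {a : ℤ}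
    (ha : ∀ k < 2 * I + 1, k ≠ 0 → ((c k : ℕ) : ℤ) = a) :
    Sit m B a d (2 * I + 1) (QP m B c) (QR m B c) (QS m B c) (fun k => ((c k : ℕ) : ℤ)) := by
  have hc := oddCyc h hm hL
  have hcc := hc.cyc
  refine ⟨by omega, hcc.hP, hcc.hR, hcc.hS, hc.Pm, hc.RB, hc.S1, ?_, ?_, ?_, c_zero h, ha, ?_⟩
  · rw [hcc.P0, hc.Pm]
  · rw [hcc.R0, hc.RB]
  · rw [hcc.S0, hc.S1]
  · intro q0 n e e0 ψ _ hFg hq
    refine odd_rel hFg hm hm2 hB2 hc hd h8 ?_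
    unfold QN
    exact Nat.Coprime.mul_left hq (Nat.Coprime.pow_left _ h19)

end Pool.Agent.BQ1
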