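import Pool.Agent.BQ1.DSC
import Pool.Agent.CXS.Fld

/-!
# There is no field in the last class (note 2964, section 5)
-/

set_option autoImplicit false

namespace Pool.Agent.BQ1

open Finset (range)
open Function (minimalPeriod)
open Pool.Agent.P4G (Fam QN FN FZ CC CR Hs)
open Pool.Agent.PSX (Es)
open Pool.Agent.LibH4 Pool.Agent.LibH4.FA Pool.Agent.Lib_helper5 Pool.Agent.LibH4.CFO
  Pool.Agent.LibH4.LO Pool.Agent.LibH4.CW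

/-- nonresidues -/
lemma nr_pow {B m : ℤ} {d : ℕ} (hd : (d : ℤ) = B ^ 2 + 4 * m)
    (hin : ∀ p : ℕ, p.Prime → p ≤ 19 → ∀ X : ℤ, ¬ (p : ℤ) ∣ X ^ 2 + B * X - m) {p : ℕ}
    (hp : p.Prime) (hp2 : p ≠ 2) (h19 : p ≤ 19) {a : ℤ} (hB : (p : ℤ) ∣ B - a)
    (hm : (p : ℤ) ∣ m - 1) {k : ℕ} (hk : p / 2 = k) : ((a ^ 2 + 4 : ℤ) : ZMod p) ^ k = -1 := by
  have : Fact p.Prime := ⟨hp⟩
  have h1 := in_of_root hd hp hp2 (hin p hp h19)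
  have h2 : ((jacobiSym d p : ℤ) : ZMod p) = (d : ZMod p) ^ (p / 2) := by
    rw [← jacobiSym.legendreSym.to_jacobiSym, legendreSym.eq_pow]
    push_cast
    rfl
  rw [h1, hk] at h2
  have h3 : ((a ^ 2 + 4 : ℤ) : ZMod p) = (d : ZMod p) := by
    have h4 : ((d : ℤ) : ZMod p) = ((a ^ 2 + 4 : ℤ) : ZMod p) := by
      rw [hd]
      have hB' : ((B - a : ℤ) : ZMod p) = 0 := by rwa [ZMod.intCast_zmod_eq_zero_iff_dvd]
      have hm' : ((m - 1 : ℤ) : ZMod p) = 0 := by rwa [ZMod.intCast_zmod_eq_zero_iff_dvd]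
      push_cast at hB' hm' ⊢
      linear_combination ((B : ZMod p) + a) * hB' + 4 * hm'
    rw [← h4]
    push_cast
    rfl
  rw [h3, ← h2]
  push_cast
  rfl

/-- inertness -/
lemma in_congr {B m : ℤ} {d : ℕ} (hd : (d : ℤ) = B ^ 2 + 4 * m)
    (hin : ∀ p : ℕ, p.Prime → p ≤ 19 → ∀ X : ℤ, ¬ (p : ℤ) ∣ X ^ 2 + B * X - m) {p : ℕ}
    (hp : p.Prime) (hp2 : p ≠ 2) (h19 : p ≤ 19) {a : ℤ} (hB : (p : ℤ) ∣ B - a) :
    K5.In p (a ^ 2 + 4 * m) := by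
  apply In_of_jac hp _ (in_of_root hd hp hp2 (hin p hp h19))
  rw [hd, show a ^ 2 + 4 * m - (B ^ 2 + 4 * m) = (B - a) * -(B + a) by ring]
  exact Dvd.dvd.mul_right hB _

/-- coprimality with an inert prime -/
lemma cop_of {B m : ℤ} {d : ℕ} (hd : (d : ℤ) = B ^ 2 + 4 * m)
    (hin : ∀ p : ℕ, p.Prime → p ≤ 19 → ∀ X : ℤ, ¬ (p : ℤ) ∣ X ^ 2 + B * X - m) {p : ℕ}
    (hp : p.Prime) (hp2 : p ≠ 2) (h19 : p ≤ 19) : Nat.Coprime p d := by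
  rw [Nat.Prime.coprime_iff_not_dvd hp]
  intro h
  have h1 := in_of_root hd hp hp2 (hin p hp h19)
  have h2 : jacobiSym d p = 0 := by
    have : Fact p.Prime := ⟨hp⟩
    rw [← jacobiSym.legendreSym.to_jacobiSym, legendreSym.eq_zero_iff]
    push_cast
    rwa [ZMod.natCast_eq_zero_iff]
  rw [h2] at h1
  exact absurd h1 (by norm_num)

lemma mod13 {a : ℕ} (h : (a : ℤ) % 13 = 2 ∨ (a : ℤ) % 13 = 4 ∨ (a : ℤ) % 13 = 9 ∨
    (a : ℤ) % 13 = 11) : a % 13 = 2 ∨ a % 13 = 4 ∨ a % 13 = 9 ∨ a % 13 = 11 := by omega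

/-- a family at all levels with the given values -/
def FamA (q0 e0 : ℕ) (χ : ℤ → ZMod 19) : Prop :=
  ∀ n, ∃ (e : ℕ) (ψ : ℤ → ℤ), Fg 19 q0 n e e0 ψ ∧
    ∀ u : ℤ, ((ψ u * u ^ e : ℤ) : ZMod 19) = χ u

/-- the conclusion of `Sit.fin` -/
def OutX (q0 e0 : ℕ) (χ : ℤ → ZMod 19) (a m : ℤ) (N : ℕ) : Prop :=
  ∃ (e : ℕ) (ψ : ℤ → ℤ), Fg 19 q0 0 e e0 ψ ∧
    (∀ u : ℤ, ((ψ u * u ^ e : ℤ) : ZMod 19) = χ u) ∧
    ∀ (_ : NeZero (QN 19 q0 0)) (T : ℕ), T ∣ N → foQ q0 a m T = foQ q0 a m 0 →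
      ∑ k ∈ range T, Es (FZ 19 q0 0 e ψ) (foQ (QN 19 q0 0) a m k).1
        (foQ (QN 19 q0 0) a m k).2.1 (foQ (QN 19 q0 0) a m k).2.2 a = 0

/-- the family of conductor `21` -/
def Fam1 : Prop := ∀ n, ∃ (e : ℕ) (ψ : ℤ → ℤ), Fg 19 21 n e 10 ψ ∧
  ∀ a : ℤ, (((a ^ 2 + 4 : ℤ) : ZMod 3) = -1 ∧ ((a ^ 2 + 4 : ℤ) : ZMod 7) ^ 3 = -1 ∧
    ((a ^ 2 + 4 : ℤ) : ZMod 19) ^ 9 = -1) → ¬ (19 : ℤ) ∣ CR 19 21 e ψ (a ^ 2 + 4)

/-- the finite checks -/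
def NoSit (χ2 χ3 χ4 χ5 : ℤ → ZMod 19) : Prop := ∀ (m B a : ℤ) (d N : ℕ) (P R S c : ℕ → ℤ),
  Sit m B a d N P R S c → (3 : ℤ) ∣ B - a → (13 : ℤ) ∣ B - a → (19 : ℤ) ∣ B - a →
  (a % 13 = 2 ∨ a % 13 = 4 ∨ a % 13 = 9 ∨ a % 13 = 11 → (17 : ℤ) ∣ B - a) →
  K5.In 3 (a ^ 2 + 4 * m) → K5.In 13 (a ^ 2 + 4 * m) →
  ((17 : ℤ) ∣ B - a → K5.In 17 (a ^ 2 + 4 * m)) → K5.In 19 (a ^ 2 + 4 * m) →
  OutX 13 7 χ2 a m N → OutX 13 1 χ3 a m N → ((17 : ℤ) ∣ B - a → OutX 17 7 χ4 a m N) →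
  OutX 39 6 χ5 a m N → False

/-- **no field in the last class**, from the families and the finite checks -/
theorem no13_of (f1 : Fam1) {χ2 χ3 χ4 χ5 : ℤ → ZMod 19} (f2 : FamA 13 7 χ2) (f3 : FamA 13 1 χ3)
    (f4 : FamA 17 7 χ4) (f5 : FamA 39 6 χ5) (g : NoSit χ2 χ3 χ4 χ5)
    {m B : ℤ} {s : ℝ} {x : ℕ → ℝ} {c : ℕ → ℕ} (h : Data m B s x c) (hm : 0 < m) {n a : ℕ}
    (hL : minimalPeriod gsh (x 1) = 2 * (n + 1) + 1)
    [IsDomain (QuadraticAlgebra ℤ m B)] [UniqueFactorizationMonoid (QuadraticAlgebra ℤ m B)]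
    {d : ℕ} (hd : (d : ℤ) = B ^ 2 + 4 * m)
    (hin : ∀ p : ℕ, p.Prime → p ≤ 19 → ∀ X : ℤ, ¬ (p : ℤ) ∣ X ^ 2 + B * X - m)
    (hc : ∀ i, 1 ≤ i → i < 2 * (n + 1) + 1 → c i = a) (h13 : (2 * (n + 1) + 1) % 13 = 0) :
    False := by
  obtain ⟨d3, d5, d7, d13, d19, d17⟩ := CXS.str_field h hm hL hd hin
    (fun i h1 h2 => hc i h1 (by omega)) h13
  obtain ⟨hm2, hB2, h8, -, -⟩ := basics hd hin
  have p7 : Nat.Prime 7 := by norm_num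
  have p13 : Nat.Prime 13 := by norm_num
  have p17 : Nat.Prime 17 := by norm_num
  have p19 : Nat.Prime 19 := by norm_num
  have c3 := cop_of hd hin Nat.prime_three (by norm_num) (by norm_num)
  have c7 := cop_of hd hin p7 (by norm_num) (by norm_num)
  have c13 := cop_of hd hin p13 (by norm_num) (by norm_num)
  have c17 := cop_of hd hin p17 (by norm_num) (by norm_num)
  have c19 := cop_of hd hin p19 (by norm_num) (by norm_num)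
  have X := sit h hm hm2 hB2 (I := n + 1) (a := (a : ℤ)) hL hd h8 c19 (by
    intro k hk h0
    rw [hc k (by omega) hk])
  have m3 : ((3 : ℕ) : ℤ) ∣ m - 1 := by
    simpa using X.m_one (p := 3) (i := 1) Nat.prime_three (by norm_num) (by simpa using d3)
  have m7 : ((7 : ℕ) : ℤ) ∣ m - 1 := by
    simpa using X.m_one (p := 7) (i := 1) p7 (by norm_num) (by simpa using d7)
  have m19 : ((19 : ℕ) : ℤ) ∣ m - 1 := by
    simpa using X.m_one (p := 19) (i := 1) p19 (by norm_num) (by simpa using d19)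
  have n3 : ((((a : ℤ) ^ 2 + 4 : ℤ)) : ZMod 3) = -1 := by
    rw [← pow_one ((((a : ℤ) ^ 2 + 4 : ℤ)) : ZMod 3)]
    exact nr_pow hd hin Nat.prime_three (by norm_num) (by norm_num) d3 m3 (by norm_num)
  have n7 : ((((a : ℤ) ^ 2 + 4 : ℤ)) : ZMod 7) ^ 3 = -1 :=
    nr_pow hd hin p7 (by norm_num) (by norm_num) d7 m7 (by norm_num)
  have n19 : ((((a : ℤ) ^ 2 + 4 : ℤ)) : ZMod 19) ^ 9 = -1 :=
    nr_pow hd hin p19 (by norm_num) (by norm_num) d19 m19 (by norm_num)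
  have hcop : Nat.Coprime 21 d := by
    rw [show 21 = 3 * 7 by norm_num]
    exact Nat.Coprime.mul_left c3 c7
  have c39 : Nat.Coprime 39 d := by
    rw [show 39 = 3 * 13 by norm_num]
    exact Nat.Coprime.mul_left c3 c13
  have i37 : IsCoprime (3 : ℤ) 7 := by norm_num
  have i313 : IsCoprime (3 : ℤ) 13 := by norm_num
  have i2119 : IsCoprime (3 * 7 : ℤ) 19 := by norm_num
  have q21 : ((21 * 19 : ℕ) : ℤ) ∣ B - (a : ℤ) := by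
    have h2 := i2119.mul_dvd (i37.mul_dvd d3 d7) d19
    exact_mod_cast h2
  have q39 : ((39 : ℕ) : ℤ) ∣ B - (a : ℤ) := by
    have h1 := i313.mul_dvd d3 d13
    exact_mod_cast h1
  have hF : ∀ n, ∃ (e : ℕ) (ψ : ℤ → ℤ), Fg 19 21 n e 10 ψ ∧
      ¬ (19 : ℤ) ∣ CR 19 21 e ψ ((a : ℤ) ^ 2 + 4) := by
    intro k
    obtain ⟨e, ψ, g1, g3⟩ := f1 k
    exact ⟨e, ψ, g1, g3 a ⟨n3, n7, n19⟩⟩
  have key : ∀ (q0 e0 : ℕ) (χ : ℤ → ZMod 19), FamA q0 e0 χ → 2 * e0 < 18 → Nat.Coprime q0 d →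
      (q0 : ℤ) ∣ B - (a : ℤ) → OutX q0 e0 χ a m (2 * (n + 1) + 1) := by
    intro q0 e0 χ hfam he hq hqB
    exact X.fin hcop q21 hF hfam he hq hqB
  exact g m B a d _ _ _ _ _ X d3 d13 d19 (fun h1 => d17 (mod13 h1))
    (in_congr hd hin Nat.prime_three (by norm_num) (by norm_num) d3)
    (in_congr hd hin p13 (by norm_num) (by norm_num) d13)
    (fun q17 => in_congr hd hin p17 (by norm_num) (by norm_num) q17)
    (in_congr hd hin p19 (by norm_num) (by norm_num) d19)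
    (key 13 7 χ2 f2 (by norm_num) c13 d13) (key 13 1 χ3 f3 (by norm_num) c13 d13)
    (fun q17 => key 17 7 χ4 f4 (by norm_num) c17 q17) (key 39 6 χ5 f5 (by norm_num) c39 q39)

end Pool.Agent.BQ1
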