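import Pool.Agent.BQ1.STP
import Pool.Agent.PSX.M_REL

/-!
# From the relation of a family at level zero to the table engine modulo `l ^ 3`
-/

set_option autoImplicit false

namespace Pool.Agent.BQ1

open Finset (range)
open Pool.Agent.P4G (Fam QN FN FZ CC CR Hs)
open Pool.Agent.PSX (Es Z0 XA YA sm ev)
open Pool.Agent.RDF (β γ δ)

namespace ENGp

lemma bz_cast (q M : ℕ) (x : ZMod q) : ((β x : ℤ) : ZMod M) = LibH4.T6.bz q M x := by
  unfold RDF.β Lib_helper5.bZ LibH4.T6.bz LibH4.T6.bI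
  split_ifs
  · simp
  · push_cast; ring

lemma gz_cast (q M : ℕ) (x : ZMod q) : ((γ x : ℤ) : ZMod M) = LibH4.T6.gz q M x := by
  unfold RDF.γ Lib_helper5.b2Z LibH4.T6.gz LibH4.T6.b2I
  push_cast
  ring

end ENGp

/-- **passage to the tables**: the relation at level zero as a relation modulo `l ^ 3` for a lift -/
theorem eng {l q0 e e0 : ℕ} {ψ : ℤ → ℤ} [NeZero (QN l q0 0)] (h : Fg l q0 0 e e0 ψ)
    {q M : ℕ} [NeZero q] (hq : q = QN l q0 0) (hM : M = l ^ 3) (χ : ZMod q → ZMod M)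
    (hodd : ∀ x, χ (-x) = - χ x) (hmul : ∀ x y, χ (x * y) = χ x * χ y)
    (hχ : ∀ u : ℤ, ∃ w : ℤ, χ (u : ZMod q) = (w : ZMod M) ∧ (l : ℤ) ∣ w - ψ u * u ^ e)
    (h4 : IsUnit (4 * χ 4 - 1)) {a m : ℤ} {T : ℕ} (hT : foQ q a m T = foQ q a m 0)
    (hrel : ∑ k ∈ range T, Es (FZ l q0 0 e ψ) (foQ (QN l q0 0) a m k).1 (foQ (QN l q0 0) a m k).2.1
      (foQ (QN l q0 0) a m k).2.2 a = 0) :
    ∑ k ∈ range T, (3 * LibH4.KF.XX χ (fo a m k).1 (fo a m k).2.1 (-(fo a m k).2.2)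
      - (a : ZMod M) * LibH4.KF.YX χ (fo a m k).1 (fo a m k).2.1 (-(fo a m k).2.2)) = 0 := by
  subst hq hM
  have hlo : l % 2 = 1 := h.fam.lo
  have hM2 : (l ^ 3) % 2 = 1 := Nat.odd_iff.1 (Odd.pow (Nat.odd_iff.2 hlo))
  obtain ⟨f, hper, hneg, hf⟩ := P4G.exists_lift (Q := QN l q0 0) hM2
    (fun u : ℤ => χ (u : ZMod (QN l q0 0))) (by
      intro x
      congr 1
      push_cast
      rw [ZMod.natCast_self, add_zero]) (by
      intro x
      rw [Int.cast_neg, hodd])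
  set f0 : ZMod (QN l q0 0) → ℤ := RDF.fz (QN l q0 0) f with hf0
  have hfc : ∀ z, ((f0 z : ℤ) : ZMod (l ^ 3)) = χ z := by
    intro z
    rw [hf0]
    unfold RDF.fz
    rw [hf]
    congr 1
    push_cast
    exact ZMod.natCast_zmod_val z
  have hfl : ∀ z, ((f0 z : ℤ) : ZMod (l ^ (0 + 1))) = FZ l q0 0 e ψ z := by
    intro z
    obtain ⟨u, rfl⟩ := ZMod.intCast_surjective z
    rw [h.fam.FZ_cast]
    obtain ⟨w, hw1, hw2⟩ := hχ u
    have h1 := hfc (u : ZMod (QN l q0 0))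
    rw [hw1] at h1
    have h2 : ((l ^ 3 : ℕ) : ℤ) ∣ w - f0 (u : ZMod (QN l q0 0)) :=
      (ZMod.intCast_eq_intCast_iff_dvd_sub _ _ _).1 h1
    have h3 : (l : ℤ) ∣ w - f0 (u : ZMod (QN l q0 0)) :=
      dvd_trans (by push_cast; exact dvd_pow_self _ (by norm_num)) h2
    have h5 : (l : ℤ) ∣ (ψ u * u ^ e) - f0 (u : ZMod (QN l q0 0)) := by
      have := dvd_sub h3 hw2
      have e5 : w - f0 (u : ZMod (QN l q0 0)) - (w - ψ u * u ^ e)
        = (ψ u * u ^ e) - f0 (u : ZMod (QN l q0 0)) := by ring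
      rwa [e5] at this
    have h6 : ((f0 (u : ZMod (QN l q0 0)) : ℤ) : ZMod (l ^ (0 + 1)))
        = ((ψ u * u ^ e : ℤ) : ZMod (l ^ (0 + 1))) := by
      rw [ZMod.intCast_eq_intCast_iff_dvd_sub]
      simpa using h5
    rw [h6]
    unfold FN
    push_cast
    rfl
  have hrec := PSX.t_BFD PSX.t_NUS PSX.t_DBL (QN l q0 0) h.fam.Qodd f0 (RDF.fz_neg hper hneg) T
    (fun k => (foQ (QN l q0 0) a m k).1) (fun k => (foQ (QN l q0 0) a m k).2.1)
    (fun k => (foQ (QN l q0 0) a m k).2.2) (fun _ => a) (by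
      intro k _
      unfold foQ
      simp only
      rw [fo_succ]
      unfold nx
      refine ⟨rfl, ?_, ?_⟩
      · push_cast; ring
      · push_cast; ring) (by rw [hT]) (by rw [hT]) (by rw [hT])
  -- the right hand side is divisible by `l ^ 3`
  have hE : (l : ℤ) ∣ ∑ k ∈ range T, (Es f0 (foQ (QN l q0 0) a m k).1 (foQ (QN l q0 0) a m k).2.1
      (foQ (QN l q0 0) a m k).2.2 a - a * Z0 f0 (foQ (QN l q0 0) a m k).2.2) := by
    have h1 : (((∑ k ∈ range T, (Es f0 (foQ (QN l q0 0) a m k).1 (foQ (QN l q0 0) a m k).2.1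
      (foQ (QN l q0 0) a m k).2.2 a - a * Z0 f0 (foQ (QN l q0 0) a m k).2.2)) : ℤ) :
        ZMod (l ^ (0 + 1))) = 0 := by
      have e1 : ∀ P R S : ZMod (QN l q0 0), ((Es f0 P R S a : ℤ) : ZMod (l ^ (0 + 1)))
          = Es (FZ l q0 0 e ψ) P R S a := by
        intro P R S
        unfold Es
        rw [Int.cast_sum]
        refine Finset.sum_congr rfl fun x _ => ?_
        rw [Int.cast_sum]
        refine Finset.sum_congr rfl fun y _ => ?_
        rw [Int.cast_mul, hfl]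
        rfl
      have e2 : ∀ S : ZMod (QN l q0 0), ((Z0 f0 S : ℤ) : ZMod (l ^ (0 + 1))) = 0 := by
        intro S
        rw [← zsq h S]
        unfold Z0
        rw [Int.cast_sum]
        exact Finset.sum_congr rfl fun y _ => hfl _
      rw [Int.cast_sum]
      simp only [Int.cast_sub, Int.cast_mul, e1, e2, mul_zero, sub_zero]
      exact hrel
    rw [ZMod.intCast_zmod_eq_zero_iff_dvd] at h1
    simpa using h1
  obtain ⟨w, hw⟩ := hE
  rw [hw] at hrec
  have h5 := congrArg (Int.cast : ℤ → ZMod (l ^ 3)) hrec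
  have h6 : ((3 * ((QN l q0 0 : ℕ) : ℤ) ^ 2 * ((l : ℤ) * w) : ℤ) : ZMod (l ^ 3)) = 0 := by
    rw [ZMod.intCast_zmod_eq_zero_iff_dvd]
    refine ⟨3 * (q0 : ℤ) ^ 2 * w, ?_⟩
    unfold QN
    push_cast
    ring
  rw [h6] at h5
  have hsm : ∀ z, ((sm f0 z : ℤ) : ZMod (l ^ 3)) = (4 * χ 4 - 1) * χ z := by
    intro z
    unfold sm
    push_cast
    rw [hfc, hfc, hmul]
    ring
  have hX : ∀ k, ((XA (sm f0) (foQ (QN l q0 0) a m k).1 (foQ (QN l q0 0) a m k).2.1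
      (foQ (QN l q0 0) a m k).2.2 : ℤ) : ZMod (l ^ 3))
      = (4 * χ 4 - 1) * LibH4.KF.XX χ (fo a m k).1 (fo a m k).2.1 (-(fo a m k).2.2) := by
    intro k
    unfold XA LibH4.KF.XX
    rw [Finset.mul_sum, Int.cast_sum]
    refine Finset.sum_congr rfl fun x _ => ?_
    rw [Finset.mul_sum, Int.cast_sum]
    refine Finset.sum_congr rfl fun y _ => ?_
    rw [Int.cast_mul, Int.cast_mul, hsm, ENGp.bz_cast, ENGp.bz_cast]
    have e1 : ev (foQ (QN l q0 0) a m k).1 (foQ (QN l q0 0) a m k).2.1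
        (foQ (QN l q0 0) a m k).2.2 x y
        = LibH4.KF.fz (QN l q0 0) (fo a m k).1 (fo a m k).2.1 (-(fo a m k).2.2) x y := by
      unfold ev LibH4.KF.fz foQ
      push_cast
      ring
    rw [e1]
    ring
  have hY : ∀ k, ((YA (sm f0) (foQ (QN l q0 0) a m k).1 (foQ (QN l q0 0) a m k).2.1
      (foQ (QN l q0 0) a m k).2.2 : ℤ) : ZMod (l ^ 3))
      = (4 * χ 4 - 1) * LibH4.KF.YX χ (fo a m k).1 (fo a m k).2.1 (-(fo a m k).2.2) := by
    intro k
    unfold YA LibH4.KF.YX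
    rw [Finset.mul_sum, Int.cast_sum]
    refine Finset.sum_congr rfl fun x _ => ?_
    rw [Finset.mul_sum, Int.cast_sum]
    refine Finset.sum_congr rfl fun y _ => ?_
    rw [Int.cast_mul, hsm, ENGp.gz_cast]
    have e1 : ev (foQ (QN l q0 0) a m k).1 (foQ (QN l q0 0) a m k).2.1
        (foQ (QN l q0 0) a m k).2.2 x y
        = LibH4.KF.fz (QN l q0 0) (fo a m k).1 (fo a m k).2.1 (-(fo a m k).2.2) x y := by
      unfold ev LibH4.KF.fz foQ
      push_cast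
      ring
    rw [e1]
    ring
  rw [Int.cast_sum] at h5
  simp only [Int.cast_sub, Int.cast_mul, hX, hY, Int.cast_ofNat] at h5
  apply h4.mul_right_eq_zero.1
  rw [Finset.mul_sum, ← h5]
  refine Finset.sum_congr rfl fun k _ => ?_
  ring

end Pool.Agent.BQ1
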