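import Pool.Agent.BQ1.FC2
import Pool.Agent.CXS.T_323F19

/-!
# The finite check modulo `323`
-/

set_option autoImplicit false

namespace Pool.Agent.BQ1

open Finset (range)
open Pool.Agent.P4G (Fam QN FN FZ CC CR Hs)
open Pool.Agent.PSX (Es)
open Pool.Agent.LibH4 Pool.Agent.LibH4.Ker Pool.Agent.LibH4.KF
open Pool.Agent.Lib_helper5 Pool.Agent.Lib_helper5.LK Pool.Agent.Lib_helper5.TB
open Pool.Agent.CXS.Tab

/-- one class -/
def ck4 (Xa Ya α a17 m17 : ℕ) : Bool :=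
  orB (notB (inB (nat_lit 17) a17 m17))
    (loopK (nat_lit 17) (nat_lit 1) a17 (nat_lit 0) (fun _ _ _ _ _ _ => nat_lit 0)
      (eqS m17 a17 (nat_lit 16) (nat_lit 0) (nat_lit 0) (nat_lit 0))
      (fun T _ => orB (Nat.beq (Nat.mod T (nat_lit 2)) (nat_lit 0))
        (loopK (nat_lit 17) (nat_lit 1) a17 (nat_lit 0)
          (v2 (nat_lit 15) (nat_lit 0) (nat_lit 17) (nat_lit 1) PT17 PT1 t2_323F19 t3_323F19
            Xa Ya (nat_lit 1) α)
          (eqS m17 a17 (nat_lit 16) (nat_lit 0) (nat_lit 0) (nat_lit 0))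
          (fun _ s => notB (zB s))
          (nat_lit 40) m17 a17 (nat_lit 16) (nat_lit 0) (nat_lit 0) (nat_lit 0)
          (nat_lit 0) (nat_lit 0)))
      (nat_lit 40) m17 a17 (nat_lit 16) (nat_lit 0) (nat_lit 0) (nat_lit 0)
      (nat_lit 0) (nat_lit 0))

/-- all classes -/
def ckB : Bool :=
  allR (fun a19 => orB (notB (orB (Nat.beq a19 (nat_lit 2)) (Nat.beq a19 (nat_lit 17))))
    (strict (pos (nat_lit 19) (nat_lit 17) PT19 (nat_lit 1) a19 (nat_lit 18)) fun i1 =>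
      strict (rows_323F19.getD i1 (0, 0)).1 fun Xa => strict (rows_323F19.getD i1 (0, 0)).2 fun Ya =>
      strict (Nat.mod (Nat.sub (nat_lit 19) a19) (nat_lit 19)) fun α =>
      allR (fun a17 => allR (fun m17 => ck4 Xa Ya α a17 m17) (nat_lit 17)) (nat_lit 17)))
    (nat_lit 19)

lemma ckB_ok : ckB = true := by decide +kernel

lemma c1c : ∀ r < 19, dig t1_323F19 r % 19 = r ^ 7 % 19 := by decide +kernel
lemma c2c : ∀ r < 17, (dig t2_323F19 (r % 17) * dig t3_323F19 (r % 1)) % 19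
    = V4.getD r 0 % 19 := by decide +kernel
lemma c4c : (4 * (chw T1_323F19 (4 % 19) * chw T2_323F19 (4 % 17) * chw T3_323F19 (4 % 1))
    + 18) % 19 ≠ 0 := by decide +kernel
lemma c5c : dig t1_323F19 1 = 1 := by decide +kernel

/-- **the finite check modulo `323`** -/
theorem fc4 {m B a : ℤ} {d N : ℕ} {P R S c : ℕ → ℤ} (X : Sit m B a d N P R S c)
    (h17 : (17 : ℤ) ∣ B - a) (h19 : (19 : ℤ) ∣ B - a) (i17 : K5.In 17 (a ^ 2 + 4 * m))
    (i19 : K5.In 19 (a ^ 2 + 4 * m)) (O4 : Out 17 7 V4 a m N)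
    (ha : rs 19 a = 2 ∨ rs 19 a = 17) : False := by
  have hm : (19 : ℤ) ∣ m - 1 := by
    have := X.m_one (p := 19) (i := 1) (by norm_num) (by norm_num) (by simpa using h19)
    simpa using this
  have hA := allR_spec ckB_ok (rs 19 a) (rs_lt a)
  rcases orB_iff.1 hA with h1 | hA
  · rcases ha with ha | ha
    · rw [ha] at h1
      exact absurd h1 (by decide)
    · rw [ha] at h1
      exact absurd h1 (by decide)
  rw [strict_eq, strict_eq, strict_eq, strict_eq] at hA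
  have hB := allR_spec (allR_spec hA (rs 17 a) (rs_lt a)) (rs 17 m) (rs_lt m)
  rcases orB_iff.1 hB with h1 | hB
  · exact absurd (inB_of i17) (by rw [notB_iff.1 h1]; decide)
  have h1B : ((1 : ℕ) : ℤ) ∣ B - a := by simp
  have hcop : Nat.Coprime 17 1 := by norm_num
  have ez2 : rs 17 (-1) = 16 := rfl
  have ez3 : rs 1 (-1) = 0 := rfl
  have z1 : ∀ x : ℤ, rs 1 x = 0 := fun x => Nat.lt_one_iff.1 (rs_lt x)
  obtain ⟨T, hT, hodd, -, hk⟩ := X.ret hcop h17 h1B rfl rfl (z1 m) (z1 a) ez2 ez3 hB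
  rcases orB_iff.1 hk with h1 | hk
  · have := Nat.eq_of_beq_eq_true h1
    change T % 2 = 0 at this
    omega
  obtain ⟨_, s, hs, hk⟩ := stage tok_323F19 tab1_323F19 tab2_323F19 tab3_323F19 comp19 comp17
    comp1 red1_323F19 red2_323F19 red3_323F19 rok_323F19 (q0 := 17) (e0 := 7) (L := V4)
    (by norm_num) c1c c2c c4c c5c X hcop h17 h1B hm O4 i19 i17 (fun _ => rfl) rfl rfl (rs_neg a)
    rfl rfl rfl (z1 m) (z1 a) ez2 ez3 hk
  exact absurd (zB_of hs) (by rw [notB_iff.1 hk]; decide)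

end Pool.Agent.BQ1
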