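import Pool.Agent.BQ1.FC2
import Pool.Agent.CXS.T_741F19

/-!
# The finite check modulo `741`
-/

set_option autoImplicit false

namespace Pool.Agent.BQ1

open Finset (range)
open Pool.Agent.P4G (Fam QN FN FZ CC CR Hs)
open Pool.Agent.PSX (Es)
open Pool.Agent.LibH4 Pool.Agent.LibH4.Ker Pool.Agent.LibH4.KF
open Pool.Agent.Lib_helper5 Pool.Agent.Lib_helper5.LK Pool.Agent.Lib_helper5.TB
open Pool.Agent.CXS.Tab

/-- one class -/
def ck5 (Xa Ya α a13 m13 a3 : ℕ) : Bool :=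
  orB (notB (inB (nat_lit 13) a13 m13)) (orB (notB (inB (nat_lit 3) a3 (nat_lit 1)))
    (loopK (nat_lit 13) (nat_lit 3) a13 a3 (fun _ _ _ _ _ _ => nat_lit 0)
      (eqS m13 a13 (nat_lit 12) (nat_lit 1) a3 (nat_lit 2))
      (fun T _ => orB (Nat.beq (Nat.mod T (nat_lit 2)) (nat_lit 0))
        (loopK (nat_lit 13) (nat_lit 3) a13 a3
          (v2 (nat_lit 11) (nat_lit 1) (nat_lit 13) (nat_lit 3) PT13 PT3 t2_741F19 t3_741F19
            Xa Ya (nat_lit 3) α)
          (eqS m13 a13 (nat_lit 12) (nat_lit 1) a3 (nat_lit 2))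
          (fun _ s => notB (zB s))
          (nat_lit 60) m13 a13 (nat_lit 12) (nat_lit 1) a3 (nat_lit 2)
          (nat_lit 0) (nat_lit 0)))
      (nat_lit 60) m13 a13 (nat_lit 12) (nat_lit 1) a3 (nat_lit 2)
      (nat_lit 0) (nat_lit 0)))

/-- all classes with the residue `a19` -/
def ckC (a19 a13 : ℕ) : Bool :=
  strict (pos (nat_lit 19) (nat_lit 17) PT19 (nat_lit 1) a19 (nat_lit 18)) fun i1 =>
      strict (rows_741F19.getD i1 (0, 0)).1 fun Xa => strict (rows_741F19.getD i1 (0, 0)).2 fun Ya =>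
      strict (Nat.mod (Nat.sub (nat_lit 19) a19) (nat_lit 19)) fun α =>
      allR (fun m13 => orB (Nat.beq m13 (nat_lit 1)) (allR (fun a3 => ck5 Xa Ya α a13 m13 a3)
        (nat_lit 3))) (nat_lit 13)

lemma ckC_ok1 : ckC (nat_lit 3) (nat_lit 3) = true := by decide +kernel
lemma ckC_ok2 : ckC (nat_lit 16) (nat_lit 10) = true := by decide +kernel

lemma c1d : ∀ r < 19, dig t1_741F19 r % 19 = r ^ 6 % 19 := by decide +kernel
lemma c2d : ∀ r < 39, (dig t2_741F19 (r % 13) * dig t3_741F19 (r % 3)) % 19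
    = V5.getD r 0 % 19 := by decide +kernel
lemma c4d : (4 * (chw T1_741F19 (4 % 19) * chw T2_741F19 (4 % 13) * chw T3_741F19 (4 % 3))
    + 18) % 19 ≠ 0 := by decide +kernel
lemma c5d : dig t1_741F19 1 = 1 := by decide +kernel

/-- **the finite check modulo `741`** -/
theorem fc5 {m B a : ℤ} {d N : ℕ} {P R S c : ℕ → ℤ} (X : Sit m B a d N P R S c)
    (h3 : (3 : ℤ) ∣ B - a) (h13 : (13 : ℤ) ∣ B - a) (h19 : (19 : ℤ) ∣ B - a)
    (i3 : K5.In 3 (a ^ 2 + 4 * m)) (i13 : K5.In 13 (a ^ 2 + 4 * m))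
    (i19 : K5.In 19 (a ^ 2 + 4 * m)) (O5 : Out 39 6 V5 a m N) (hm13 : rs 13 m ≠ 1)
    (ha : (rs 19 a = 3 ∧ rs 13 a = 3) ∨ (rs 19 a = 16 ∧ rs 13 a = 10)) : False := by
  have hm : (19 : ℤ) ∣ m - 1 := by
    have := X.m_one (p := 19) (i := 1) (by norm_num) (by norm_num) (by simpa using h19)
    simpa using this
  have hm3 : (3 : ℤ) ∣ m - 1 := by
    have := X.m_one (p := 3) (i := 1) (by norm_num) (by norm_num) (by simpa using h3)
    simpa using this
  have em3 : rs 3 m = 1 := by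
    have h1 : (m : ZMod 3) = ((1 : ℤ) : ZMod 3) :=
      ((ZMod.intCast_eq_intCast_iff_dvd_sub 1 m 3).2 (by exact_mod_cast hm3)).symm
    unfold rs
    rw [h1]
    rfl
  have hA : ckC (rs 19 a) (rs 13 a) = true := by
    rcases ha with ⟨h1, h2⟩ | ⟨h1, h2⟩
    · rw [h1, h2]; exact ckC_ok1
    · rw [h1, h2]; exact ckC_ok2
  unfold ckC at hA
  rw [strict_eq, strict_eq, strict_eq, strict_eq] at hA
  rcases orB_iff.1 (allR_spec hA (rs 13 m) (rs_lt m)) with h1 | hB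
  · exact hm13 (Nat.eq_of_beq_eq_true h1)
  rcases orB_iff.1 (allR_spec hB (rs 3 a) (rs_lt a)) with h1 | hB
  · exact absurd (inB_of i13) (by rw [notB_iff.1 h1]; decide)
  rcases orB_iff.1 hB with h1 | hB
  · have h2 := inB_of i3
    rw [em3] at h2
    exact absurd h2 (by rw [notB_iff.1 h1]; decide)
  have hcop : Nat.Coprime 13 3 := by norm_num
  have ez2 : rs 13 (-1) = 12 := rfl
  have ez3 : rs 3 (-1) = 2 := rfl
  obtain ⟨T, hT, hodd, -, hk⟩ := X.ret hcop h13 h3 rfl rfl em3 rfl ez2 ez3 hB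
  rcases orB_iff.1 hk with h1 | hk
  · have := Nat.eq_of_beq_eq_true h1
    change T % 2 = 0 at this
    omega
  obtain ⟨_, s, hs, hk⟩ := stage tok_741F19 tab1_741F19 tab2_741F19 tab3_741F19 comp19 comp13
    comp3 red1_741F19 red2_741F19 red3_741F19 rok_741F19 (q0 := 39) (e0 := 6) (L := V5)
    (by norm_num) c1d c2d c4d c5d X hcop h13 h3 hm O5 i19 i13 (fun k => adP_fo i3 k) rfl rfl
    (rs_neg a) rfl rfl rfl em3 rfl ez2 ez3 hk
  exact absurd (zB_of hs) (by rw [notB_iff.1 hk]; decide)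

end Pool.Agent.BQ1
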