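import Pool.Agent.BQ1.END
import Pool.Agent.BQ1.FC4
import Pool.Agent.BQ1.FC5

/-!
# There is no odd constant word of length divisible by `13` (note 2964)
-/

set_option autoImplicit false

namespace Pool.Agent.BQ1

open Function (minimalPeriod)
open Pool.Agent.LibH4 Pool.Agent.LibH4.FA Pool.Agent.Lib_helper5 Pool.Agent.LibH4.CFO
  Pool.Agent.LibH4.LO Pool.Agent.LibH4.CW Pool.Agent.LibH4.Ker Pool.Agent.LibH4.KF
  Pool.Agent.Lib_helper5.LK Pool.Agent.Lib_helper5.TB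

lemma al_spec {a19 a13 m13 : ℕ} (h : al a19 a13 m13 = true) :
    ((a19 = 2 ∨ a19 = 17) ∧ (a13 = 2 ∨ a13 = 9 ∨ a13 = 11 ∨ a13 = 4)) ∨
      (m13 ≠ 1 ∧ ((a19 = 3 ∧ a13 = 3) ∨ (a19 = 16 ∧ a13 = 10))) := by
  unfold al at h
  rw [orB_iff, orB_iff, andB_iff, andB_iff, andB_iff, orB_iff, orB_iff, orB_iff, andB_iff,
    andB_iff, notB_iff, Nat.beq_eq, Nat.beq_eq, Nat.beq_eq, Nat.beq_eq, Nat.beq_eq, Nat.beq_eq,
    Nat.beq_eq, Nat.beq_eq, Nat.beq_eq, Nat.beq_eq] at h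
  rcases h with (⟨h1, h2⟩ | ⟨h1, h2⟩) | ⟨h1, h2⟩
  · left
    refine ⟨Or.inl h1, ?_⟩
    tauto
  · left
    refine ⟨Or.inr h1, ?_⟩
    tauto
  · right
    refine ⟨?_, h2⟩
    intro h3
    rw [h3] at h1
    exact absurd h1 (by decide)

lemma rs_emod (n : ℕ) [NeZero n] (a : ℤ) : ((rs n a : ℕ) : ℤ) = a % n := by
  unfold rs
  rw [ZMod.val_intCast]

/-- **the finite checks** -/
theorem noSit : NoSit (chiT V2 13 7) (chiT V3 13 1) (chiT V4 17 7) (chiT V5 39 6) := by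
  intro m B a d N P R S c X h3 h13 h19 h17 i3 i13 i17 i19 O2 O3 O4 O5
  have h1 := al_spec (fc2 X h13 h19 i13 i19 O2 O3)
  rcases h1 with ⟨h1, h2⟩ | ⟨h1, h2⟩
  · have h4 := rs_emod 13 a
    have h5 : a % 13 = 2 ∨ a % 13 = 4 ∨ a % 13 = 9 ∨ a % 13 = 11 := by
      push_cast at h4
      omega
    have q17 := h17 h5
    exact fc4 X q17 h19 (i17 q17) i19 (O4 q17) h1
  · exact fc5 X h3 h13 h19 i3 i13 i19 O5 h1 h2

variable {m B : ℤ} {s : ℝ} {x : ℕ → ℝ} {c : ℕ → ℕ}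

/-- **no field in the last class** -/
theorem no13 (h : Data m B s x c) (hm : 0 < m) {n a : ℕ}
    (hL : minimalPeriod gsh (x 1) = 2 * (n + 1) + 1)
    [IsDomain (QuadraticAlgebra ℤ m B)] [UniqueFactorizationMonoid (QuadraticAlgebra ℤ m B)]
    {d : ℕ} (hd : (d : ℤ) = B ^ 2 + 4 * m)
    (hin : ∀ p : ℕ, p.Prime → p ≤ 19 → ∀ X : ℤ, ¬ (p : ℤ) ∣ X ^ 2 + B * X - m)
    (hc : ∀ i, 1 ≤ i → i < 2 * (n + 1) + 1 → c i = a) (h13 : (2 * (n + 1) + 1) % 13 = 0) :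
    False :=
  no13_of fam1 fam2 fam3 fam4 fam5 noSit h hm hL hd hin hc h13

end Pool.Agent.BQ1
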