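import Pool.Agent.BQ1.FamT

/-!
The reduced central sums of the first family at the prime nineteen, kernel computations.
-/

set_option autoImplicit false

namespace Pool.Agent.BQ1

open Pool.Agent.P4G

lemma cr89 : CR 19 21 10 (psi 21 L1 2) 89 % 19 ≠ 0 := by decide +kernel
lemma cr110 : CR 19 21 10 (psi 21 L1 2) 110 % 19 ≠ 0 := by decide +kernel
lemma cr146 : CR 19 21 10 (psi 21 L1 2) 146 % 19 ≠ 0 := by decide +kernel
lemma cr167 : CR 19 21 10 (psi 21 L1 2) 167 % 19 ≠ 0 := by decide +kernel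
lemma cr173 : CR 19 21 10 (psi 21 L1 2) 173 % 19 ≠ 0 := by decide +kernel

end Pool.Agent.BQ1
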