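import Pool.Agent.BQ1.FamT

/-!
The reduced central sums of the first family at the prime nineteen, kernel computations.
-/

set_option autoImplicit false

namespace Pool.Agent.BQ1

open Pool.Agent.P4G

lemma cr230 : CR 19 21 10 (psi 21 L1 2) 230 % 19 ≠ 0 := by decide +kernel
lemma cr236 : CR 19 21 10 (psi 21 L1 2) 236 % 19 ≠ 0 := by decide +kernel
lemma cr257 : CR 19 21 10 (psi 21 L1 2) 257 % 19 ≠ 0 := by decide +kernel
lemma cr293 : CR 19 21 10 (psi 21 L1 2) 293 % 19 ≠ 0 := by decide +kernel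
lemma cr314 : CR 19 21 10 (psi 21 L1 2) 314 % 19 ≠ 0 := by decide +kernel

end Pool.Agent.BQ1
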