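import Pool.Agent.BQ1.FamT

/-!
The kernel computations for the family 3 at the prime nineteen.
-/

set_option autoImplicit false

namespace Pool.Agent.BQ1

open Pool.Agent.P4G

lemma base3 : Hs 19 13 (psi 13 L3 2) 1 19 % 19 = 0 := by decide +kernel
lemma der3 : DD 19 13 (psi 13 L3 2) 2 19 % 19 ≠ 0 := by decide +kernel

end Pool.Agent.BQ1
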