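import Pool.Agent.BQ1.FamT

/-!
The kernel computations for the fifth family at the prime nineteen.
-/

set_option autoImplicit false

namespace Pool.Agent.BQ1

open Finset (range)
open Pool.Agent.P4G

lemma sum_two (a b : ℕ) (f : ℕ → ℤ) :
    ∑ r ∈ range (a * b), f r = ∑ i ∈ range a, ∑ j ∈ range b, f (b * i + j) := by
  induction a with
  | zero => simp
  | succ a ih =>
    rw [Nat.succ_mul, Finset.sum_range_add, ih, Finset.sum_range_succ]
    congr 1
    apply Finset.sum_congr rfl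
    intro j _
    rw [mul_comm b a]

lemma DD_two (χ : ℤ → ℤ) (m : ℕ) : DD 19 39 χ 2 m = ∑ i ∈ range 88, ∑ j ∈ range 80,
    χ ((80 * i + j : ℕ) : ℤ) * (((80 * i + j : ℕ) : ℤ) ^ m * fq 19 ((80 * i + j : ℕ) : ℤ)) := by
  unfold DD
  exact sum_two 88 80 (fun r => χ (r : ℤ) * ((r : ℤ) ^ m * fq 19 (r : ℤ)))

lemma base5 : Hs 19 39 (psi 39 L5 2) 1 6 % 19 = 0 := by decide +kernel
lemma der5 : DD 19 39 (psi 39 L5 2) 2 6 % 19 ≠ 0 := by rw [DD_two]; decide +kernel

end Pool.Agent.BQ1
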