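import Pool.Agent.BQ1.LVL
import Pool.Agent.BQ1.FamK1
import Pool.Agent.BQ1.FamK2
import Pool.Agent.BQ1.FamK3
import Pool.Agent.BQ1.FamK4
import Pool.Agent.BQ1.FamK5
import Pool.Agent.BQ1.FamCRA
import Pool.Agent.BQ1.FamCRB

/-!
The five families at the prime nineteen.
-/

set_option autoImplicit false

namespace Pool.Agent.BQ1

open Finset (range)
open Pool.Agent.P4G
open Pool.Agent.RDF (bt)

/-- families at every level with the function `χ` modulo nineteen -/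
def FamAt (q0 e0 : ℕ) (χ : ℤ → ZMod 19) : Prop :=
  ∀ n : ℕ, ∃ (e : ℕ) (ψ : ℤ → ℤ), Fg 19 q0 n e e0 ψ ∧
    ∀ u : ℤ, ((ψ u * u ^ e : ℤ) : ZMod 19) = χ u

/-- the function with values in the list `V` times a power -/
def chiT (V : List ℕ) (q0 e0 : ℕ) (u : ℤ) : ZMod 19 :=
  ((V.getD (u % q0).toNat 0 : ℕ) : ZMod 19) * (u : ZMod 19) ^ e0

/-- values modulo nineteen -/
def V2 : List ℕ := [0, 1, 7, 7, 11, 1, 11, 11, 1, 11, 7, 7, 1]
/-- values modulo nineteen -/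
def V3 : List ℕ := [0, 1, 12, 7, 11, 18, 8, 8, 18, 11, 7, 12, 1]
/-- values modulo nineteen -/
def V4 : List ℕ := [0, 1, 1, 18, 1, 18, 18, 18, 1, 1, 18, 18, 18, 1, 18, 1, 1]
/-- values modulo nineteen -/
def V5 : List ℕ := [0, 1, 11, 0, 7, 1, 0, 12, 1, 0, 11, 11, 0, 0, 18, 0, 11, 12, 0, 12, 7, 0, 7, 8, 0, 1, 0, 0, 8, 8, 0, 18, 7, 0, 18, 12, 0, 8, 18]

lemma psi_val {q : ℕ} (hq : 1 < q) {L : List ℤ} {V : List ℕ}
    (h : ∀ i < q, ((vl 2 (L.getD i 0) : ℤ) : ZMod 19) = ((V.getD i 0 : ℕ) : ZMod 19)) (u : ℤ) :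
    ((psi q L 2 u : ℤ) : ZMod 19) = ((V.getD (u % q).toNat 0 : ℕ) : ZMod 19) := by
  obtain ⟨i, hi, hui⟩ := exists_nat hq u
  unfold psi
  have h1 : (u % q).toNat = i := by
    rw [hui, Int.emod_eq_of_lt (by positivity) (by exact_mod_cast hi), Int.toNat_natCast]
  rw [h1, h i hi]

theorem mkAt {q0 m0 e0 : ℕ} {L : List ℤ} {V : List ℕ} (hL : GT q0 L) (hq : q0 % 2 = 1)
    (hcop : Nat.Coprime q0 19) (h2 : 2 ≤ m0) (he0 : m0 % 18 = e0) (h1 : 1 ≤ e0)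
    (hnd : ¬ 18 ∣ 2 * e0)
    (hpar : (m0 % 2 = 1 ∧ ∀ i < q0, L.getD ((q0 - i) % q0) 0 = L.getD i 0) ∨
      (m0 % 2 = 0 ∧ ∀ i < q0, L.getD ((q0 - i) % q0) 0 = - L.getD i 0))
    (hbase : Hs 19 q0 (psi q0 L 2) 1 m0 % 19 = 0) (hder : DD 19 q0 (psi q0 L 2) 2 m0 % 19 ≠ 0)
    (hV : ∀ i < q0, ((vl 2 (L.getD i 0) : ℤ) : ZMod 19) = ((V.getD i 0 : ℕ) : ZMod 19)) :
    FamAt q0 e0 (chiT V q0 e0) := by
  intro n
  obtain ⟨e, he, hen, hF⟩ := mkFam (n := n) hL hq hcop h2 hpar hbase hder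
  refine ⟨e, _, ⟨hF, psi_one hL _, ?_, ?_⟩, ?_⟩
  · show e % 18 = e0
    rw [he, he0]
  · show ¬ 18 ∣ 2 * e
    have h3 : e % 18 = e0 := by rw [he, he0]
    omega
  · intro u
    unfold chiT
    rw [← psi_val hL.pos hV, Int.cast_mul, Int.cast_pow, psi_mod (tw_mod n)]
    congr 1
    have h3 : e % 18 = e0 := by rw [he, he0]
    exact pow_expo prime19 (m := e) (m0 := e0) (by show e % 18 = e0 % 18; omega) (by omega) (by omega) _

lemma val2 : ∀ i < 13, ((vl 2 (L2.getD i 0) : ℤ) : ZMod 19) = ((V2.getD i 0 : ℕ) : ZMod 19) := by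
  decide +kernel
lemma val3 : ∀ i < 13, ((vl 2 (L3.getD i 0) : ℤ) : ZMod 19) = ((V3.getD i 0 : ℕ) : ZMod 19) := by
  decide +kernel
lemma val4 : ∀ i < 17, ((vl 2 (L4.getD i 0) : ℤ) : ZMod 19) = ((V4.getD i 0 : ℕ) : ZMod 19) := by
  decide +kernel
lemma val5 : ∀ i < 39, ((vl 2 (L5.getD i 0) : ℤ) : ZMod 19) = ((V5.getD i 0 : ℕ) : ZMod 19) := by
  decide +kernel

theorem fam2 : FamAt 13 7 (chiT V2 13 7) :=
  mkAt gt2 (by norm_num) (by norm_num) (m0 := 7) (by norm_num) rfl (by norm_num) (by norm_num)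
    (Or.inl ⟨rfl, par2⟩) base2 der2 val2

theorem fam3 : FamAt 13 1 (chiT V3 13 1) :=
  mkAt gt3 (by norm_num) (by norm_num) (m0 := 19) (by norm_num) rfl (by norm_num) (by norm_num)
    (Or.inl ⟨rfl, par3⟩) base3 der3 val3

theorem fam4 : FamAt 17 7 (chiT V4 17 7) :=
  mkAt gt4 (by norm_num) (by norm_num) (m0 := 7) (by norm_num) rfl (by norm_num) (by norm_num)
    (Or.inl ⟨rfl, par4⟩) base4 der4 val4

theorem fam5 : FamAt 39 6 (chiT V5 39 6) :=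
  mkAt gt5 (by norm_num) (by norm_num) (m0 := 6) (by norm_num) rfl (by norm_num) (by norm_num)
    (Or.inr ⟨rfl, par5⟩) base5 der5 val5

/-- the discriminant `a ^ 2 + 4` is not a square modulo three, seven and nineteen -/
def NR19 (a : ℤ) : Prop := ((a ^ 2 + 4 : ℤ) : ZMod 3) = -1 ∧ ((a ^ 2 + 4 : ℤ) : ZMod 7) ^ 3 = -1 ∧
  ((a ^ 2 + 4 : ℤ) : ZMod 19) ^ 9 = -1

lemma CR_congr {e : ℕ} {ψ : ℤ → ℤ} (he : e % 18 = 10)
    (hψ : ∀ u, ((ψ u : ℤ) : ZMod 19) = (psi 21 L1 2 u : ℤ)) {D D' : ℤ} (hD : (399 : ℤ) ∣ D - D') :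
    ((CR 19 21 e ψ D : ℤ) : ZMod 19) = (CR 19 21 10 (psi 21 L1 2) D' : ℤ) := by
  obtain ⟨t, ht⟩ := hD
  unfold CR AA
  rw [Int.cast_sum, Int.cast_sum]
  apply Finset.sum_congr rfl
  intro x _
  have e1 : ((∑ i ∈ range 21, ψ (D * (x : ℤ) ^ 2 - (i : ℤ) ^ 2) : ℤ) : ZMod 19)
      = ((∑ i ∈ range 21, psi 21 L1 2 (D' * (x : ℤ) ^ 2 - (i : ℤ) ^ 2) : ℤ) : ZMod 19) := by
    rw [Int.cast_sum, Int.cast_sum]
    apply Finset.sum_congr rfl
    intro i _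
    rw [hψ]
    congr 1
    apply psi_congr
    have e2 : D * (x : ℤ) ^ 2 - (i : ℤ) ^ 2 = D' * (x : ℤ) ^ 2 - (i : ℤ) ^ 2
        + ((21 : ℕ) : ℤ) * (19 * t * (x : ℤ) ^ 2) := by
      push_cast
      linear_combination (x : ℤ) ^ 2 * ht
    rw [e2, Int.add_mul_emod_self_left]
  have e3 : ((∑ j ∈ range 19, (D * (x : ℤ) ^ 2 - (j : ℤ) ^ 2) ^ e : ℤ) : ZMod 19)
      = ((∑ j ∈ range 19, (D' * (x : ℤ) ^ 2 - (j : ℤ) ^ 2) ^ 10 : ℤ) : ZMod 19) := by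
    rw [Int.cast_sum, Int.cast_sum]
    apply Finset.sum_congr rfl
    intro j _
    rw [Int.cast_pow, Int.cast_pow]
    have e4 : ((D * (x : ℤ) ^ 2 - (j : ℤ) ^ 2 : ℤ) : ZMod 19)
        = ((D' * (x : ℤ) ^ 2 - (j : ℤ) ^ 2 : ℤ) : ZMod 19) := by
      rw [ZMod.intCast_eq_intCast_iff_dvd_sub]
      refine ⟨-(21 * t * (x : ℤ) ^ 2), ?_⟩
      push_cast
      linear_combination -(x : ℤ) ^ 2 * ht
    rw [e4]
    exact pow_expo prime19 (m := e) (m0 := 10) (by show e % 18 = 10 % 18; omega) (by omega)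
      (by norm_num) _
  rw [Int.cast_mul, Int.cast_mul, Int.cast_mul (bt (21 * 19) x), Int.cast_mul (∑ i ∈ range 21, _), e1, e3]

/-- the ten classes of discriminants -/
def DL : List ℕ := [89, 110, 146, 167, 173, 230, 236, 257, 293, 314]

lemma DL_mem : ∀ b < 399, (b ^ 2 + 4) % 399 % 3 = 2 ∧ ((b ^ 2 + 4) % 399) ^ 3 % 7 = 6 ∧
    ((b ^ 2 + 4) % 399) ^ 9 % 19 = 18 → (b ^ 2 + 4) % 399 ∈ DL := by decide +kernel

lemma pw_mod {p k D r : ℕ} (hr : (r : ZMod p) = -1) (h : ((D : ℕ) : ZMod p) ^ k = -1) :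
    D ^ k % p = r % p := by
  have h1 : ((D ^ k : ℕ) : ZMod p) = ((r : ℕ) : ZMod p) := by
    push_cast
    rw [h, hr]
  exact (ZMod.natCast_eq_natCast_iff' _ _ _).1 h1

lemma cr_all : ∀ D ∈ DL, CR 19 21 10 (psi 21 L1 2) (D : ℕ) % 19 ≠ 0 := by
  intro D hD
  simp only [DL, List.mem_cons, List.not_mem_nil, or_false] at hD
  rcases hD with rfl | rfl | rfl | rfl | rfl | rfl | rfl | rfl | rfl | rfl
  · exact cr89
  · exact cr110
  · exact cr146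
  · exact cr167
  · exact cr173
  · exact cr230
  · exact cr236
  · exact cr257
  · exact cr293
  · exact cr314

theorem fam1 : ∀ n : ℕ, ∃ (e : ℕ) (ψ : ℤ → ℤ), Fg 19 21 n e 10 ψ ∧
    ∀ a : ℤ, NR19 a → ¬ (19 : ℤ) ∣ CR 19 21 e ψ (a ^ 2 + 4) := by
  intro n
  obtain ⟨e, he, hen, hF⟩ := mkFam (n := n) (m0 := 10) gt1 (by norm_num) (by norm_num) (by norm_num)
    (Or.inr ⟨rfl, par1⟩) base1 der1
  have he' : e % 18 = 10 := he
  refine ⟨e, _, ⟨hF, psi_one gt1 _, he', ?_⟩, ?_⟩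
  · show ¬ 18 ∣ 2 * e
    omega
  · rintro a ⟨h3, h7, h19⟩ hdvd
    obtain ⟨b, hb, hab⟩ := exists_nat (q := 399) (by norm_num) a
    set D : ℕ := (b ^ 2 + 4) % 399 with hDdef
    have hD : (399 : ℤ) ∣ (a ^ 2 + 4) - (D : ℤ) := by
      have h1 : (399 : ℤ) ∣ a - b := by
        have : a ≡ (b : ℤ) [ZMOD 399] := hab
        exact this.symm.dvd
      have h2 : (399 : ℤ) ∣ ((b : ℤ) ^ 2 + 4) - (D : ℤ) := by
        have := Int.emod_emod_of_dvd ((b : ℤ) ^ 2 + 4) (dvd_refl 399)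
        have h3 : (D : ℤ) = ((b : ℤ) ^ 2 + 4) % 399 := by rw [hDdef]; push_cast; rfl
        rw [h3]
        exact Int.dvd_self_sub_emod
      obtain ⟨s, hs⟩ := h1
      obtain ⟨t, ht⟩ := h2
      exact ⟨s * (a + b) + t, by linear_combination (a + b) * hs + ht⟩
    have cst : ∀ p : ℕ, (p : ℤ) ∣ 399 → ((a ^ 2 + 4 : ℤ) : ZMod p) = ((D : ℕ) : ZMod p) := by
      intro p hp
      have h1 : (p : ℤ) ∣ (a ^ 2 + 4) - (D : ℤ) := dvd_trans hp hD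
      have h2 := (ZMod.intCast_eq_intCast_iff_dvd_sub (D : ℤ) (a ^ 2 + 4) p).2 h1
      rw [← h2]
      push_cast
      rfl
    rw [cst 3 (by norm_num)] at h3
    rw [cst 7 (by norm_num)] at h7
    rw [cst 19 (by norm_num)] at h19
    have h3' : D % 3 = 2 := by
      have h0 := pw_mod (p := 3) (k := 1) (r := 2) (by decide) (by rw [pow_one]; exact h3)
      rw [pow_one] at h0
      exact h0
    have hmem : D ∈ DL := DL_mem b hb ⟨h3', pw_mod (p := 7) (r := 6) (by decide) h7,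
      pw_mod (p := 19) (r := 18) (by decide) h19⟩
    have h4 := cr_all D hmem
    have h5 := CR_congr he' (psi_mod (tw_mod n)) hD
    have h6 : ((CR 19 21 e (psi 21 L1 (tw n)) (a ^ 2 + 4) : ℤ) : ZMod 19) = 0 :=
      (ZMod.intCast_zmod_eq_zero_iff_dvd _ 19).2 (by exact_mod_cast hdvd)
    rw [h6] at h5
    have h7 := (ZMod.intCast_zmod_eq_zero_iff_dvd _ 19).1 h5.symm
    push_cast at h7
    omega

end Pool.Agent.BQ1
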