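import Pool.Agent.BQ1.FCK
import Pool.Agent.BQ1.Fams
import Pool.Agent.RQM.C63
import Pool.Agent.CXS.T_247F19b

/-!
# The finite check with two tables modulo `247`
-/

set_option autoImplicit false

namespace Pool.Agent.BQ1

open Finset (range)
open Pool.Agent.P4G (Fam QN FN FZ CC CR Hs)
open Pool.Agent.PSX (Es)
open Pool.Agent.LibH4 Pool.Agent.LibH4.Ker Pool.Agent.LibH4.KF
open Pool.Agent.Lib_helper5 Pool.Agent.Lib_helper5.LK Pool.Agent.Lib_helper5.TB
open Pool.Agent.CXS.Tab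

/-- the classes that remain -/
def al (a19 a13 m13 : ℕ) : Bool :=
  orB (orB (andB (Nat.beq a19 (nat_lit 2)) (orB (Nat.beq a13 (nat_lit 2)) (Nat.beq a13 (nat_lit 9))))
    (andB (Nat.beq a19 (nat_lit 17)) (orB (Nat.beq a13 (nat_lit 11)) (Nat.beq a13 (nat_lit 4)))))
    (andB (notB (Nat.beq m13 (nat_lit 1)))
      (orB (andB (Nat.beq a19 (nat_lit 3)) (Nat.beq a13 (nat_lit 3)))
        (andB (Nat.beq a19 (nat_lit 16)) (Nat.beq a13 (nat_lit 10)))))

/-- one class -/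
def ck2 (Xa Ya Xb Yb α a19 a13 m13 : ℕ) : Bool :=
  orB (notB (inB (nat_lit 13) a13 m13))
    (loopK (nat_lit 13) (nat_lit 1) a13 (nat_lit 0) (fun _ _ _ _ _ _ => nat_lit 0)
      (eqS m13 a13 (nat_lit 12) (nat_lit 0) (nat_lit 0) (nat_lit 0))
      (fun T _ => orB (Nat.beq (Nat.mod T (nat_lit 2)) (nat_lit 0))
        (loopK (nat_lit 13) (nat_lit 1) a13 (nat_lit 0)
          (v2 (nat_lit 11) (nat_lit 0) (nat_lit 13) (nat_lit 1) PT13 PT1 t2_247F19a t3_247F19a
            Xa Ya (nat_lit 1) α)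
          (eqS m13 a13 (nat_lit 12) (nat_lit 0) (nat_lit 0) (nat_lit 0))
          (fun _ s => orB (notB (zB s))
            (loopK (nat_lit 13) (nat_lit 1) a13 (nat_lit 0)
              (v2 (nat_lit 11) (nat_lit 0) (nat_lit 13) (nat_lit 1) PT13 PT1 t2_247F19b t3_247F19b
                Xb Yb (nat_lit 1) α)
              (eqS m13 a13 (nat_lit 12) (nat_lit 0) (nat_lit 0) (nat_lit 0))
              (fun _ s' => orB (notB (zB s')) (al a19 a13 m13))
              (nat_lit 30) m13 a13 (nat_lit 12) (nat_lit 0) (nat_lit 0) (nat_lit 0)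
              (nat_lit 0) (nat_lit 0)))
          (nat_lit 30) m13 a13 (nat_lit 12) (nat_lit 0) (nat_lit 0) (nat_lit 0)
          (nat_lit 0) (nat_lit 0)))
      (nat_lit 30) m13 a13 (nat_lit 12) (nat_lit 0) (nat_lit 0) (nat_lit 0)
      (nat_lit 0) (nat_lit 0))

/-- all classes -/
def ckA : Bool :=
  allR (fun a19 => orB (notB (inB (nat_lit 19) a19 (nat_lit 1)))
    (strict (pos (nat_lit 19) (nat_lit 17) PT19 (nat_lit 1) a19 (nat_lit 18)) fun i1 =>
      strict (rows_247F19a.getD i1 (0, 0)).1 fun Xa => strict (rows_247F19a.getD i1 (0, 0)).2 fun Ya =>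
      strict (rows_247F19b.getD i1 (0, 0)).1 fun Xb => strict (rows_247F19b.getD i1 (0, 0)).2 fun Yb =>
      strict (Nat.mod (Nat.sub (nat_lit 19) a19) (nat_lit 19)) fun α =>
      allR (fun a13 => allR (fun m13 => ck2 Xa Ya Xb Yb α a19 a13 m13) (nat_lit 13)) (nat_lit 13)))
    (nat_lit 19)

lemma ckA_ok : ckA = true := by decide +kernel

lemma c1a : ∀ r < 19, dig t1_247F19a r % 19 = r ^ 7 % 19 := by decide +kernel
lemma c2a : ∀ r < 13, (dig t2_247F19a (r % 13) * dig t3_247F19a (r % 1)) % 19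
    = V2.getD r 0 % 19 := by decide +kernel
lemma c4a : (4 * (chw T1_247F19a (4 % 19) * chw T2_247F19a (4 % 13) * chw T3_247F19a (4 % 1))
    + 18) % 19 ≠ 0 := by decide +kernel
lemma c5a : dig t1_247F19a 1 = 1 := by decide +kernel
lemma c1b : ∀ r < 19, dig t1_247F19b r % 19 = r ^ 1 % 19 := by decide +kernel
lemma c2b : ∀ r < 13, (dig t2_247F19b (r % 13) * dig t3_247F19b (r % 1)) % 19
    = V3.getD r 0 % 19 := by decide +kernel
lemma c4b : (4 * (chw T1_247F19b (4 % 19) * chw T2_247F19b (4 % 13) * chw T3_247F19b (4 % 1))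
    + 18) % 19 ≠ 0 := by decide +kernel
lemma c5b : dig t1_247F19b 1 = 1 := by decide +kernel

lemma zB_of {s : ℕ} (h : s % 19 = 0) : zB s = true := by
  unfold zB
  rw [Nat.beq_eq]
  exact h

lemma rs_neg (a : ℤ) : rs 19 (-a) = Nat.mod (Nat.sub 19 (rs 19 a)) 19 := by
  symm
  apply rs_of
  rw [Nat.sub_eq, Nat.cast_sub (rs_lt a).le, rs_cast, ZMod.natCast_self]
  push_cast
  ring

/-- **the finite check modulo `247`** -/
theorem fc2 {m B a : ℤ} {d N : ℕ} {P R S c : ℕ → ℤ} (X : Sit m B a d N P R S c)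
    (h13 : (13 : ℤ) ∣ B - a) (h19 : (19 : ℤ) ∣ B - a) (i13 : K5.In 13 (a ^ 2 + 4 * m))
    (i19 : K5.In 19 (a ^ 2 + 4 * m)) (O2 : Out 13 7 V2 a m N) (O3 : Out 13 1 V3 a m N) :
    al (rs 19 a) (rs 13 a) (rs 13 m) = true := by
  have hm : (19 : ℤ) ∣ m - 1 := by
    have := X.m_one (p := 19) (i := 1) (by norm_num) (by norm_num) (by simpa using h19)
    simpa using this
  have em : rs 19 m = 1 := by
    have h1 : (m : ZMod 19) = ((1 : ℤ) : ZMod 19) :=
      ((ZMod.intCast_eq_intCast_iff_dvd_sub 1 m 19).2 (by exact_mod_cast hm)).symm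
    unfold rs
    rw [h1]
    rfl
  have hA := allR_spec ckA_ok (rs 19 a) (rs_lt a)
  rcases orB_iff.1 hA with h1 | hA
  · have h2 := inB_of i19
    rw [em] at h2
    exact absurd h2 (by rw [notB_iff.1 h1]; decide)
  rw [strict_eq, strict_eq, strict_eq, strict_eq, strict_eq, strict_eq] at hA
  have hB := allR_spec (allR_spec hA (rs 13 a) (rs_lt a)) (rs 13 m) (rs_lt m)
  rcases orB_iff.1 hB with h1 | hB
  · exact absurd (inB_of i13) (by rw [notB_iff.1 h1]; decide)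
  have h1B : ((1 : ℕ) : ℤ) ∣ B - a := by simp
  have hcop : Nat.Coprime 13 1 := by norm_num
  have ez2 : rs 13 (-1) = 12 := rfl
  have ez3 : rs 1 (-1) = 0 := rfl
  have z1 : ∀ x : ℤ, rs 1 x = 0 := fun x => Nat.lt_one_iff.1 (rs_lt x)
  obtain ⟨T, hT, hodd, -, hk⟩ := X.ret hcop h13 h1B rfl rfl (z1 m) (z1 a) ez2 ez3 hB
  rcases orB_iff.1 hk with h1 | hk
  · have := Nat.eq_of_beq_eq_true h1
    change T % 2 = 0 at this
    omega
  obtain ⟨_, s, hs, hk⟩ := stage tok_247F19a tab1_247F19a tab2_247F19a tab3_247F19a comp19 comp13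
    comp1 red1_247F19a red2_247F19a red3_247F19a rok_247F19a (q0 := 13) (e0 := 7) (L := V2)
    (by norm_num) c1a c2a c4a c5a X hcop h13 h1B hm O2 i19 i13 (fun _ => rfl) rfl rfl (rs_neg a)
    rfl rfl rfl (z1 m) (z1 a) ez2 ez3 hk
  rcases orB_iff.1 hk with h1 | hk
  · exact absurd (zB_of hs) (by rw [notB_iff.1 h1]; decide)
  obtain ⟨_, s', hs', hk⟩ := stage tok_247F19b tab1_247F19b tab2_247F19b tab3_247F19b comp19 comp13
    comp1 red1_247F19b red2_247F19b red3_247F19b rok_247F19b (q0 := 13) (e0 := 1) (L := V3)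
    (by norm_num) c1b c2b c4b c5b X hcop h13 h1B hm O3 i19 i13 (fun _ => rfl) rfl rfl (rs_neg a)
    rfl rfl rfl (z1 m) (z1 a) ez2 ez3 hk
  rcases orB_iff.1 hk with h1 | hk
  · exact absurd (zB_of hs') (by rw [notB_iff.1 h1]; decide)
  exact hk

end Pool.Agent.BQ1
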