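import Pool.Agent.BQ1.FCL

/-!
# The loops of the finite checks
-/

set_option autoImplicit false

namespace Pool.Agent.BQ1

open Finset (range)
open Pool.Agent.P4G (Fam QN FN FZ CC CR Hs)
open Pool.Agent.PSX (Es)
open Pool.Agent.LibH4 Pool.Agent.LibH4.Ker Pool.Agent.LibH4.KF
open Pool.Agent.Lib_helper5 Pool.Agent.Lib_helper5.LK Pool.Agent.Lib_helper5.TB

/-- two components -/
abbrev S2 := (ℕ × ℕ × ℕ) × (ℕ × ℕ × ℕ)

/-- the step of two components -/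
def st2 (n2 n3 a2 a3 : ℕ) (s : S2) : S2 := (stN n2 a2 s.1, stN n3 a3 s.2)

/-- the residues of the `k`-th form -/
def tr2 (n2 n3 : ℕ) (a m : ℤ) (k : ℕ) : S2 := (tr n2 a m k, tr n3 a m k)

lemma tr2_eq {n2 n3 : ℕ} [NeZero n2] [NeZero n3] (a m : ℤ) (k : ℕ) :
    tr2 n2 n3 a m k = (st2 n2 n3 (rs n2 a) (rs n3 a))^[k] (tr2 n2 n3 a m 0) := by
  induction k with
  | zero => rfl
  | succ k ih =>
    rw [Function.iterate_succ_apply', ← ih]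
    unfold tr2 st2
    simp only [tr_succ]

/-- next residue -/
def kP (n S : ℕ) : ℕ := Nat.mod (Nat.sub n S) n
/-- next residue -/
def kR (n a R S : ℕ) : ℕ :=
  Nat.mod (Nat.add (Nat.mul (Nat.mul (nat_lit 2) a) (Nat.sub n S)) (Nat.sub n R)) n
/-- next residue -/
def kS (n a P R S : ℕ) : ℕ :=
  Nat.mod (Nat.add (Nat.add (Nat.sub n P) (Nat.mul (Nat.sub n R) a))
    (Nat.mul (Nat.sub n S) (Nat.mul a a))) n

/-- and -/
def andB (a b : Bool) : Bool := @Bool.rec (fun _ => Bool) false b a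
/-- or -/
def orB (a b : Bool) : Bool := @Bool.rec (fun _ => Bool) b true a

lemma andB_iff {a b : Bool} : andB a b = true ↔ a = true ∧ b = true := by
  cases a <;> cases b <;> decide
lemma orB_iff {a b : Bool} : orB a b = true ↔ a = true ∨ b = true := by
  cases a <;> cases b <;> decide

/-- comparison of the residues -/
def eqS (m2 a2 z2 m3 a3 z3 P2 R2 S2 P3 R3 S3 : ℕ) : Bool :=
  andB (Nat.beq P2 m2) (andB (Nat.beq R2 a2) (andB (Nat.beq S2 z2)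
    (andB (Nat.beq P3 m3) (andB (Nat.beq R3 a3) (Nat.beq S3 z3)))))

lemma eqS_iff {m2 a2 z2 m3 a3 z3 P2 R2 S2 P3 R3 S3 : ℕ} :
    eqS m2 a2 z2 m3 a3 z3 P2 R2 S2 P3 R3 S3 = true ↔
      ((P2, R2, S2), (P3, R3, S3)) = (((m2, a2, z2), (m3, a3, z3)) : BQ1.S2) := by
  unfold eqS
  rw [andB_iff, andB_iff, andB_iff, andB_iff, andB_iff, Nat.beq_eq, Nat.beq_eq, Nat.beq_eq,
    Nat.beq_eq, Nat.beq_eq, Nat.beq_eq]
  simp only [Prod.mk.injEq]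
  tauto

/-- the loop of the kernel -/
def loopK (n2 n3 a2 a3 : ℕ) (val : ℕ → ℕ → ℕ → ℕ → ℕ → ℕ → ℕ)
    (eqs : ℕ → ℕ → ℕ → ℕ → ℕ → ℕ → Bool) (kont : ℕ → ℕ → Bool) (fuel : ℕ) :
    ℕ → ℕ → ℕ → ℕ → ℕ → ℕ → ℕ → ℕ → Bool :=
  @Nat.rec (fun _ => ℕ → ℕ → ℕ → ℕ → ℕ → ℕ → ℕ → ℕ → Bool)
    (fun _ _ _ _ _ _ _ _ => false)
    (fun _ ih P2 R2 S2 P3 R3 S3 k acc =>
      strict (Nat.add acc (val P2 R2 S2 P3 R3 S3)) fun acc' =>
      strict (Nat.succ k) fun k' =>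
      strict (kP n2 S2) fun P2' => strict (kR n2 a2 R2 S2) fun R2' =>
      strict (kS n2 a2 P2 R2 S2) fun S2' => strict (kP n3 S3) fun P3' =>
      strict (kR n3 a3 R3 S3) fun R3' => strict (kS n3 a3 P3 R3 S3) fun S3' =>
      @Bool.rec (fun _ => Bool) (ih P2' R2' S2' P3' R3' S3' k' acc') (kont k' acc')
        (eqs P2' R2' S2' P3' R3' S3')) fuel

lemma loopK_succ (n2 n3 a2 a3 : ℕ) (val : ℕ → ℕ → ℕ → ℕ → ℕ → ℕ → ℕ)
    (eqs : ℕ → ℕ → ℕ → ℕ → ℕ → ℕ → Bool) (kont : ℕ → ℕ → Bool) (fuel P2 R2 S2 P3 R3 S3 k acc : ℕ) :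
    loopK n2 n3 a2 a3 val eqs kont (fuel + 1) P2 R2 S2 P3 R3 S3 k acc =
      @Bool.rec (fun _ => Bool) (loopK n2 n3 a2 a3 val eqs kont fuel (kP n2 S2) (kR n2 a2 R2 S2)
        (kS n2 a2 P2 R2 S2) (kP n3 S3) (kR n3 a3 R3 S3) (kS n3 a3 P3 R3 S3) (Nat.succ k)
        (Nat.add acc (val P2 R2 S2 P3 R3 S3)))
        (kont (Nat.succ k) (Nat.add acc (val P2 R2 S2 P3 R3 S3)))
        (eqs (kP n2 S2) (kR n2 a2 R2 S2)
        (kS n2 a2 P2 R2 S2) (kP n3 S3) (kR n3 a3 R3 S3) (kS n3 a3 P3 R3 S3)) := by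
  have e : loopK n2 n3 a2 a3 val eqs kont (fuel + 1) P2 R2 S2 P3 R3 S3 k acc =
      strict (Nat.add acc (val P2 R2 S2 P3 R3 S3)) (fun acc' =>
      strict (Nat.succ k) fun k' =>
      strict (kP n2 S2) fun P2' => strict (kR n2 a2 R2 S2) fun R2' =>
      strict (kS n2 a2 P2 R2 S2) fun S2' => strict (kP n3 S3) fun P3' =>
      strict (kR n3 a3 R3 S3) fun R3' => strict (kS n3 a3 P3 R3 S3) fun S3' =>
      @Bool.rec (fun _ => Bool)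
        (loopK n2 n3 a2 a3 val eqs kont fuel P2' R2' S2' P3' R3' S3' k' acc') (kont k' acc')
        (eqs P2' R2' S2' P3' R3' S3')) := rfl
  rw [e]
  simp only [strict_eq]

/-- the value of a function of six numbers -/
def v6 (val : ℕ → ℕ → ℕ → ℕ → ℕ → ℕ → ℕ) (s : S2) : ℕ :=
  val s.1.1 s.1.2.1 s.1.2.2 s.2.1 s.2.2.1 s.2.2.2

lemma loopK_spec {n2 n3 a2 a3 : ℕ} {val : ℕ → ℕ → ℕ → ℕ → ℕ → ℕ → ℕ}
    {eqs : ℕ → ℕ → ℕ → ℕ → ℕ → ℕ → Bool} {kont : ℕ → ℕ → Bool} (s0 : S2)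
    (heq : ∀ P2 R2 S2 P3 R3 S3, eqs P2 R2 S2 P3 R3 S3 = true ↔
      ((P2, R2, S2), (P3, R3, S3)) = s0) (fuel : ℕ) (s : S2) (k acc : ℕ)
    (h : loopK n2 n3 a2 a3 val eqs kont fuel s.1.1 s.1.2.1 s.1.2.2 s.2.1 s.2.2.1 s.2.2.2 k acc
      = true) :
    (loop (st2 n2 n3 a2 a3) (v6 val) s0 fuel s k acc).1 ≠ 0 ∧
      kont (loop (st2 n2 n3 a2 a3) (v6 val) s0 fuel s k acc).1
        (loop (st2 n2 n3 a2 a3) (v6 val) s0 fuel s k acc).2 = true := by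
  induction fuel generalizing s k acc with
  | zero => exact absurd h (by simp [loopK])
  | succ fuel ih =>
    have e : loopK n2 n3 a2 a3 val eqs kont (fuel + 1) s.1.1 s.1.2.1 s.1.2.2 s.2.1 s.2.2.1 s.2.2.2
        k acc = @Bool.rec (fun _ => Bool)
          (loopK n2 n3 a2 a3 val eqs kont fuel (st2 n2 n3 a2 a3 s).1.1 (st2 n2 n3 a2 a3 s).1.2.1
            (st2 n2 n3 a2 a3 s).1.2.2 (st2 n2 n3 a2 a3 s).2.1 (st2 n2 n3 a2 a3 s).2.2.1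
            (st2 n2 n3 a2 a3 s).2.2.2 (k + 1) (acc + v6 val s)) (kont (k + 1) (acc + v6 val s))
          (eqs (st2 n2 n3 a2 a3 s).1.1 (st2 n2 n3 a2 a3 s).1.2.1
            (st2 n2 n3 a2 a3 s).1.2.2 (st2 n2 n3 a2 a3 s).2.1 (st2 n2 n3 a2 a3 s).2.2.1
            (st2 n2 n3 a2 a3 s).2.2.2) := by
      rw [loopK_succ]
      rfl
    rw [e] at h
    by_cases hs : st2 n2 n3 a2 a3 s = s0
    · have h1 : eqs (st2 n2 n3 a2 a3 s).1.1 (st2 n2 n3 a2 a3 s).1.2.1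
            (st2 n2 n3 a2 a3 s).1.2.2 (st2 n2 n3 a2 a3 s).2.1 (st2 n2 n3 a2 a3 s).2.2.1
            (st2 n2 n3 a2 a3 s).2.2.2 = true := (heq _ _ _ _ _ _).2 hs
      rw [h1] at h
      unfold loop
      rw [if_pos hs]
      exact ⟨Nat.succ_ne_zero k, h⟩
    · have h1 : eqs (st2 n2 n3 a2 a3 s).1.1 (st2 n2 n3 a2 a3 s).1.2.1
            (st2 n2 n3 a2 a3 s).1.2.2 (st2 n2 n3 a2 a3 s).2.1 (st2 n2 n3 a2 a3 s).2.2.1
            (st2 n2 n3 a2 a3 s).2.2.2 = false := by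
        rw [Bool.eq_false_iff]
        intro h2
        exact hs ((heq _ _ _ _ _ _).1 h2)
      rw [h1] at h
      unfold loop
      rw [if_neg hs]
      exact ih _ _ _ h

section ret

variable {m B a : ℤ} {d N : ℕ} {P R S c : ℕ → ℤ}

/-- the closing modulo a product -/
lemma foQ_mul {n2 n3 : ℕ} (hcop : Nat.Coprime n2 n3) {T : ℕ} (h2 : foQ n2 a m T = foQ n2 a m 0)
    (h3 : foQ n3 a m T = foQ n3 a m 0) : foQ (n2 * n3) a m T = foQ (n2 * n3) a m 0 := by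
  have key : ∀ x y : ℤ, ((x : ℤ) : ZMod n2) = (y : ZMod n2) →
      ((x : ℤ) : ZMod n3) = (y : ZMod n3) →
      ((x : ℤ) : ZMod (n2 * n3)) = (y : ZMod (n2 * n3)) := by
    intro x y h1 h2
    have h3 := (ZMod.intCast_eq_intCast_iff_dvd_sub y x n2).1 h1.symm
    have h4 := (ZMod.intCast_eq_intCast_iff_dvd_sub y x n3).1 h2.symm
    refine ((ZMod.intCast_eq_intCast_iff_dvd_sub y x _).2 ?_).symm
    rw [Nat.cast_mul]
    exact IsCoprime.mul_dvd (Nat.isCoprime_iff_coprime.2 hcop) h3 h4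
  unfold foQ at h2 h3 ⊢
  rw [Prod.mk.injEq, Prod.mk.injEq] at h2 h3 ⊢
  exact ⟨key _ _ h2.1 h3.1, key _ _ h2.2.1 h3.2.1, key _ _ h2.2.2 h3.2.2⟩

/-- **the first return** -/
theorem Sit.ret (X : Sit m B a d N P R S c) {n2 n3 : ℕ} [NeZero n2] [NeZero n3]
    (hcop : Nat.Coprime n2 n3) (h2 : (n2 : ℤ) ∣ B - a) (h3 : (n3 : ℤ) ∣ B - a) {m2 a2 m3 a3 : ℕ}
    (em2 : rs n2 m = m2) (ea2 : rs n2 a = a2) (em3 : rs n3 m = m3) (ea3 : rs n3 a = a3)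
    {val : ℕ → ℕ → ℕ → ℕ → ℕ → ℕ → ℕ} {kont : ℕ → ℕ → Bool} {fuel z2 z3 : ℕ}
    (ez2 : rs n2 (-1) = z2) (ez3 : rs n3 (-1) = z3)
    (h : loopK n2 n3 a2 a3 val (eqS m2 a2 z2 m3 a3 z3) kont fuel m2 a2 z2 m3 a3 z3 0 0 = true) :
    ∃ T, T ∣ N ∧ T % 2 = 1 ∧ foQ (n2 * n3) a m T = foQ (n2 * n3) a m 0 ∧
      kont T (∑ k ∈ range T, v6 val (tr2 n2 n3 a m k)) = true := by
  have e0 : tr2 n2 n3 a m 0 = ((m2, a2, z2), (m3, a3, z3)) := by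
    unfold tr2
    rw [tr_zero, tr_zero, em2, ea2, em3, ea3, ez2, ez3]
  have hst : ∀ k, (st2 n2 n3 a2 a3)^[k] ((m2, a2, z2), (m3, a3, z3)) = tr2 n2 n3 a m k := by
    intro k
    rw [tr2_eq, e0, ea2, ea3]
  obtain ⟨h4, h5⟩ := loopK_spec ((m2, a2, z2), (m3, a3, z3)) (fun _ _ _ _ _ _ => eqS_iff) fuel
    ((m2, a2, z2), (m3, a3, z3)) 0 0 h
  obtain ⟨T, hT0, hT, hmin, hsum⟩ := loop_spec (st2 n2 n3 a2 a3) (v6 val)
    ((m2, a2, z2), (m3, a3, z3)) fuel 0 (by intro j h6 h7; omega) h4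
  have hsum' : loop (st2 n2 n3 a2 a3) (v6 val) ((m2, a2, z2), (m3, a3, z3)) fuel
      ((m2, a2, z2), (m3, a3, z3)) 0 0 = (T, ∑ k ∈ range T, v6 val (tr2 n2 n3 a m k)) := by
    have e : ∑ k ∈ range T, v6 val (tr2 n2 n3 a m k) = ∑ i ∈ range T, v6 val
        ((st2 n2 n3 a2 a3)^[i] ((m2, a2, z2), (m3, a3, z3))) := by
      refine Finset.sum_congr rfl fun k _ => ?_
      rw [hst]
    rw [e, ← hsum]
    rfl
  rw [hsum'] at h5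
  have hN : (st2 n2 n3 a2 a3)^[N] ((m2, a2, z2), (m3, a3, z3)) = ((m2, a2, z2), (m3, a3, z3)) := by
    rw [hst, ← e0]
    unfold tr2
    rw [tr_closed.2 (X.closed h2), tr_closed.2 (X.closed h3)]
  have hTN : T ∣ N := by
    by_contra hnd
    have h6 : 0 < N % T := Nat.pos_of_ne_zero (fun h7 => hnd (Nat.dvd_of_mod_eq_zero h7))
    refine hmin (N % T) h6 (Nat.mod_lt _ hT0) ?_
    have h8 : (st2 n2 n3 a2 a3)^[N % T + T * (N / T)] ((m2, a2, z2), (m3, a3, z3))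
        = ((m2, a2, z2), (m3, a3, z3)) := by
      rw [Nat.mod_add_div]; exact hN
    rw [Function.iterate_add_apply, Function.iterate_mul, Function.iterate_fixed hT] at h8
    exact h8
  refine ⟨T, hTN, ?_, ?_, h5⟩
  · have h6 := X.N2
    by_contra h7
    have h8 : 2 ∣ T := by omega
    have := dvd_trans h8 hTN
    omega
  · have h6 : tr2 n2 n3 a m T = tr2 n2 n3 a m 0 := by rw [← hst, hT, e0]
    unfold tr2 at h6
    rw [Prod.mk.injEq] at h6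
    exact foQ_mul hcop (tr_closed.1 h6.1) (tr_closed.1 h6.2)

end ret

/-- the value of a form in a row of a table -/
def v2 (ex2 ex3 n2 n3 PT2 PT3 t2 t3 X Y len3 α P2 R2 S2 P3 R3 S3 : ℕ) : ℕ :=
  strict (Nat.add (Nat.mul (pos n2 ex2 PT2 P2 R2 S2) len3) (pos n3 ex3 PT3 P3 R3 S3)) fun i =>
    Nat.mul (Nat.mul (dig t2 P2) (dig t3 P3))
      (Nat.add (Nat.mul (nat_lit 3) (dig X i)) (Nat.mul α (dig Y i)))

lemma v2_eq {ex1 ex2 ex3 n2 n3 PT1 PT2 PT3 t1 t2 t3 : ℕ} {rows : List (ℕ × ℕ)} {len3 α i1 a19 : ℕ}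
    (ht : dig t1 1 = 1) (hi : pos 19 ex1 PT1 1 a19 18 = i1) (s : S2) :
    v6 (v2 ex2 ex3 n2 n3 PT2 PT3 t2 t3 (rows.getD i1 (0, 0)).1 (rows.getD i1 (0, 0)).2 len3 α) s
      = vS ex1 ex2 ex3 19 n2 n3 PT1 PT2 PT3 t1 t2 t3 rows len3 α ((1, a19, 18), s.1, s.2) := by
  unfold v6 v2 vS
  rw [strict_eq]
  simp only [ht, hi, one_mul]
  rfl

/-- the residues modulo `19` -/
lemma tr_19 {a m : ℤ} (hm : (19 : ℤ) ∣ m - 1) (k : ℕ) : tr 19 a m k = (1, rs 19 a, 18) := by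
  obtain ⟨h1, h2, h3⟩ := fo_fix (a := a) hm k
  have key : ∀ x y : ℤ, (19 : ℤ) ∣ x - y → rs 19 x = rs 19 y := by
    intro x y h
    unfold rs
    rw [((ZMod.intCast_eq_intCast_iff_dvd_sub y x 19).2 (by exact_mod_cast h)).symm]
  unfold tr
  rw [key _ _ h1, key _ _ h2, key (-(fo a m k).2.2) (-1) (by
    have := (dvd_neg (a := (19 : ℤ))).2 h3
    rw [show -(fo a m k).2.2 - -1 = -((fo a m k).2.2 - 1) by ring]
    exact this)]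
  rfl

lemma sum_v2 {ex1 ex2 ex3 n2 n3 PT1 PT2 PT3 t1 t2 t3 : ℕ} {rows : List (ℕ × ℕ)}
    {len3 α i1 a19 : ℕ} {a m : ℤ} (hm : (19 : ℤ) ∣ m - 1) (ha : rs 19 a = a19)
    (ht : dig t1 1 = 1) (hi : pos 19 ex1 PT1 1 a19 18 = i1) (T : ℕ) :
    ∑ k ∈ range T, v6 (v2 ex2 ex3 n2 n3 PT2 PT3 t2 t3 (rows.getD i1 (0, 0)).1
      (rows.getD i1 (0, 0)).2 len3 α) (tr2 n2 n3 a m k)
      = ∑ k ∈ range T, vS ex1 ex2 ex3 19 n2 n3 PT1 PT2 PT3 t1 t2 t3 rows len3 α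
        (trS 19 n2 n3 a m k) := by
  refine Finset.sum_congr rfl fun k _ => ?_
  rw [v2_eq ht hi]
  unfold trS tr2
  rw [tr_19 hm, ha]

/-- inertness of residues -/
def inB (n a m : ℕ) : Bool :=
  Nat.beq (Nat.mod (Nat.pow (Nat.mod (Nat.add (Nat.mul a a) (Nat.mul (nat_lit 4) m)) n)
    (Nat.div n (nat_lit 2))) n) (Nat.sub n (nat_lit 1))

lemma inB_of {n : ℕ} [NeZero n] {a m : ℤ} (h : K5.In n (a ^ 2 + 4 * m)) :
    inB n (rs n a) (rs n m) = true := by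
  unfold K5.In at h
  have e : (rs n a * rs n a + 4 * rs n m) % n = rs n (a ^ 2 + 4 * m) := by
    apply rs_of
    push_cast
    rw [rs_cast, rs_cast]
    push_cast
    ring
  have e' : inB n (rs n a) (rs n m) =
    Nat.beq (Nat.mod (Nat.pow ((rs n a * rs n a + 4 * rs n m) % n) (n / 2)) n) (n - 1) := rfl
  rw [e', e]
  exact h

/-- the output of `Sit.fin` for a family -/
def Out (q0 e0 : ℕ) (L : List ℕ) (a m : ℤ) (N : ℕ) : Prop :=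
  ∃ (e : ℕ) (ψ : ℤ → ℤ), Fg 19 q0 0 e e0 ψ ∧
    (∀ u : ℤ, ((ψ u * u ^ e : ℤ) : ZMod 19)
      = ((L.getD (u % q0).toNat 0 : ℕ) : ZMod 19) * (u : ZMod 19) ^ e0) ∧
    ∀ (_ : NeZero (QN 19 q0 0)) (T : ℕ), T ∣ N → foQ q0 a m T = foQ q0 a m 0 →
      ∑ k ∈ range T, Es (FZ 19 q0 0 e ψ) (foQ (QN 19 q0 0) a m k).1
        (foQ (QN 19 q0 0) a m k).2.1 (foQ (QN 19 q0 0) a m k).2.2 a = 0

section stage

variable {n2 n3 T1 T2 T3 : ℕ} {F1 F2 F3 : List (ℕ × ℕ)} {rows : List (ℕ × ℕ)}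
  {ex1 ex2 ex3 PT1 PT2 PT3 t1 t2 t3 : ℕ} {A3 : ℕ → ℕ → ℕ → Bool}
  [NeZero n2] [NeZero n3] [NeZero (19 * n2)] [NeZero (19 * n2 * n3)]
  {m B a : ℤ} {d N : ℕ} {P R S c : ℕ → ℤ}

/-- **one table**: the sum over the first return vanishes modulo `19` -/
theorem stage (H : TabOK 19 n2 n3 6859 361 T1 T2 T3 F1 F2 F3 rows)
    (ht1 : tabCk 19 6859 T1 = true) (ht2 : tabCk n2 6859 T2 = true) (ht3 : tabCk n3 6859 T3 = true)
    (C1 : CompOK 19 ex1 PT1 F1 (adP 19)) (C2 : CompOK n2 ex2 PT2 F2 (adP n2))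
    (C3 : CompOK n3 ex3 PT3 F3 A3)
    (r1 : redCk 19 T1 t1 19 = true) (r2 : redCk n2 T2 t2 19 = true) (r3 : redCk n3 T3 t3 19 = true)
    (rok : relOk 19 n2 n3 6859 T1 T2 T3 = true) {q0 e0 : ℕ} {L : List ℕ} (hq : n2 * n3 = q0)
    (hc1 : ∀ r < 19, dig t1 r % 19 = r ^ e0 % 19)
    (hc2 : ∀ r < q0, (dig t2 (r % n2) * dig t3 (r % n3)) % 19 = L.getD r 0 % 19)
    (h4 : (4 * (chw T1 (4 % 19) * chw T2 (4 % n2) * chw T3 (4 % n3)) + 18) % 19 ≠ 0)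
    (ht : dig t1 1 = 1)
    (X : Sit m B a d N P R S c) (hcop : Nat.Coprime n2 n3) (h2 : (n2 : ℤ) ∣ B - a)
    (h3 : (n3 : ℤ) ∣ B - a) (h19 : (19 : ℤ) ∣ m - 1) (O : Out q0 e0 L a m N)
    (hi1 : K5.In 19 (a ^ 2 + 4 * m)) (hi2 : K5.In n2 (a ^ 2 + 4 * m))
    (hi3 : ∀ k, A3 (rs n3 (fo a m k).1) (rs n3 (fo a m k).2.1) (rs n3 (-(fo a m k).2.2)) = true)
    {i1 a19 α m2 a2 m3 a3 z2 z3 fuel len3 : ℕ} {kont : ℕ → ℕ → Bool}
    (ha : rs 19 a = a19) (hi : pos 19 ex1 PT1 1 a19 18 = i1) (hα : rs 19 (-a) = α)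
    (hlen : F3.length = len3)
    (em2 : rs n2 m = m2) (ea2 : rs n2 a = a2) (em3 : rs n3 m = m3) (ea3 : rs n3 a = a3)
    (ez2 : rs n2 (-1) = z2) (ez3 : rs n3 (-1) = z3)
    (h : loopK n2 n3 a2 a3 (v2 ex2 ex3 n2 n3 PT2 PT3 t2 t3 (rows.getD i1 (0, 0)).1
      (rows.getD i1 (0, 0)).2 len3 α) (eqS m2 a2 z2 m3 a3 z3) kont fuel m2 a2 z2 m3 a3 z3 0 0
      = true) : ∃ T s : ℕ, s % 19 = 0 ∧ kont T s = true := by
  obtain ⟨T, hTN, -, hcl, hk⟩ := X.ret hcop h2 h3 em2 ea2 em3 ea3 ez2 ez3 h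
  refine ⟨T, _, ?_, hk⟩
  rw [sum_v2 h19 ha ht hi]
  obtain ⟨e, ψ, hFg, hχ, hrel⟩ := O
  rw [hq] at hcl
  subst hα hlen
  exact fc H ht1 ht2 ht3 C1 C2 C3 r1 r2 r3 rok hq hc1 hc2 h4 hFg hχ h19 hcl
    (fun ne => hrel ne T hTN hcl) hi1 hi2 hi3

end stage

/-- is the sum zero modulo `19` -/
def zB (s : ℕ) : Bool := Nat.beq (Nat.mod s (nat_lit 19)) (nat_lit 0)

/-- not -/
def notB (a : Bool) : Bool := @Bool.rec (fun _ => Bool) true false a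

lemma notB_iff {a : Bool} : notB a = true ↔ a = false := by cases a <;> decide

end Pool.Agent.BQ1
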