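import Pool.Agent.BQ1.ENG
import Pool.Agent.BQ1.DSC
import Pool.Agent.RQM.C41

/-!
# The finite checks: reduction to a computation with residues and tables
-/

set_option autoImplicit false

namespace Pool.Agent.BQ1

open Finset (range)
open Pool.Agent.P4G (Fam QN FN FZ CC CR Hs)
open Pool.Agent.PSX (Es)
open Pool.Agent.LibH4 Pool.Agent.LibH4.Ker Pool.Agent.LibH4.KF
open Pool.Agent.Lib_helper5 Pool.Agent.Lib_helper5.LK Pool.Agent.Lib_helper5.TB

/-- one step on residues, the third entry is minus the last coefficient -/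
def stN (n a : ℕ) (f : ℕ × ℕ × ℕ) : ℕ × ℕ × ℕ :=
  ((n - f.2.2) % n, (2 * a * (n - f.2.2) + (n - f.2.1)) % n,
    ((n - f.1) + (n - f.2.1) * a + (n - f.2.2) * (a * a)) % n)

/-- the residues of the `k`-th form -/
def tr (n : ℕ) (a m : ℤ) (k : ℕ) : ℕ × ℕ × ℕ :=
  (rs n (fo a m k).1, rs n (fo a m k).2.1, rs n (-(fo a m k).2.2))

lemma tr_succ {n : ℕ} [NeZero n] (a m : ℤ) (k : ℕ) : tr n a m (k + 1) = stN n (rs n a) (tr n a m k) := by
  have hl := fun x : ℤ => (rs_lt (p := n) x).le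
  unfold tr stN
  rw [fo_succ]
  unfold nx
  simp only
  refine Prod.ext ?_ (Prod.ext ?_ ?_)
  · simp only
    symm
    apply rs_of
    rw [Nat.cast_sub (hl _), rs_cast, ZMod.natCast_self]
    push_cast
    ring
  · simp only
    symm
    apply rs_of
    push_cast [Nat.cast_sub (hl _)]
    rw [rs_cast, rs_cast, rs_cast, ZMod.natCast_self]
    push_cast
    ring
  · simp only
    symm
    apply rs_of
    push_cast [Nat.cast_sub (hl _)]
    rw [rs_cast, rs_cast, rs_cast, rs_cast, ZMod.natCast_self]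
    push_cast
    ring

/-- the residues of the first form -/
lemma tr_zero (n : ℕ) (a m : ℤ) : tr n a m 0 = (rs n m, rs n a, rs n (-1)) := rfl

lemma tr_closed {n : ℕ} [NeZero n] {a m : ℤ} {j k : ℕ} :
    tr n a m j = tr n a m k ↔ foQ n a m j = foQ n a m k := by
  have key : ∀ x y : ℤ, rs n x = rs n y ↔ (x : ZMod n) = (y : ZMod n) := by
    intro x y
    constructor
    · intro h
      rw [← rs_cast (p := n) x, ← rs_cast (p := n) y, h]
    · intro h
      unfold rs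
      rw [h]
  unfold tr foQ
  rw [Prod.mk.injEq, Prod.mk.injEq, Prod.mk.injEq, Prod.mk.injEq, key, key, key]
  push_cast
  rw [neg_inj]

/-- the loop: number of steps to the first return, and the sum of the values -/
def loop {σ : Type} [DecidableEq σ] (step : σ → σ) (val : σ → ℕ) (s0 : σ) :
    ℕ → σ → ℕ → ℕ → ℕ × ℕ
  | 0, _, _, _ => (0, 0)
  | fuel + 1, s, k, acc =>
    if step s = s0 then (k + 1, acc + val s)
    else loop step val s0 fuel (step s) (k + 1) (acc + val s)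

lemma loop_spec {σ : Type} [DecidableEq σ] (step : σ → σ) (val : σ → ℕ) (s0 : σ) (fuel k : ℕ)
    (hne : ∀ j, 0 < j → j ≤ k → step^[j] s0 ≠ s0)
    (h0 : (loop step val s0 fuel (step^[k] s0) k (∑ i ∈ range k, val (step^[i] s0))).1 ≠ 0) :
    ∃ T, 0 < T ∧ step^[T] s0 = s0 ∧ (∀ j, 0 < j → j < T → step^[j] s0 ≠ s0) ∧
      loop step val s0 fuel (step^[k] s0) k (∑ i ∈ range k, val (step^[i] s0))
        = (T, ∑ i ∈ range T, val (step^[i] s0)) := by
  induction fuel generalizing k with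
  | zero => exact absurd rfl h0
  | succ fuel ih =>
    unfold loop at h0 ⊢
    have e1 : step (step^[k] s0) = step^[k + 1] s0 := (Function.iterate_succ_apply' _ _ _).symm
    have e2 : ∑ i ∈ range k, val (step^[i] s0) + val (step^[k] s0)
        = ∑ i ∈ range (k + 1), val (step^[i] s0) := (Finset.sum_range_succ _ _).symm
    rw [e1, e2] at h0 ⊢
    by_cases hret : step^[k + 1] s0 = s0
    · rw [if_pos hret]
      refine ⟨k + 1, by omega, hret, ?_, rfl⟩
      intro j h1 h2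
      exact hne j h1 (by omega)
    · rw [if_neg hret] at h0 ⊢
      exact ih (k + 1) (by
        intro j h1 h2
        rcases Nat.lt_or_ge j (k + 1) with h3 | h3
        · exact hne j h1 (by omega)
        · rw [show j = k + 1 by omega]; exact hret) h0

/-- the state: residues modulo three coprime moduli -/
abbrev St := (ℕ × ℕ × ℕ) × (ℕ × ℕ × ℕ) × (ℕ × ℕ × ℕ)

/-- the step of a state -/
def stS (n1 n2 n3 a1 a2 a3 : ℕ) (s : St) : St := (stN n1 a1 s.1, stN n2 a2 s.2.1, stN n3 a3 s.2.2)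

/-- the state of the `k`-th form -/
def trS (n1 n2 n3 : ℕ) (a m : ℤ) (k : ℕ) : St := (tr n1 a m k, tr n2 a m k, tr n3 a m k)

lemma trS_eq {n1 n2 n3 : ℕ} [NeZero n1] [NeZero n2] [NeZero n3] (a m : ℤ) (k : ℕ) :
    trS n1 n2 n3 a m k = (stS n1 n2 n3 (rs n1 a) (rs n2 a) (rs n3 a))^[k] (trS n1 n2 n3 a m 0) := by
  induction k with
  | zero => rfl
  | succ k ih =>
    rw [Function.iterate_succ_apply', ← ih]
    unfold trS stS
    simp only [tr_succ]

/-- the value of a state in a table -/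
def vS (ex1 ex2 ex3 n1 n2 n3 PT1 PT2 PT3 t1 t2 t3 : ℕ) (rows : List (ℕ × ℕ)) (len3 α : ℕ)
    (s : St) : ℕ :=
  dig t1 s.1.1 * dig t2 s.2.1.1 * dig t3 s.2.2.1 *
    (3 * tX rows len3 (pos n1 ex1 PT1 s.1.1 s.1.2.1 s.1.2.2)
      (pos n2 ex2 PT2 s.2.1.1 s.2.1.2.1 s.2.1.2.2)
      (pos n3 ex3 PT3 s.2.2.1 s.2.2.2.1 s.2.2.2.2) +
    α * tY rows len3 (pos n1 ex1 PT1 s.1.1 s.1.2.1 s.1.2.2)
      (pos n2 ex2 PT2 s.2.1.1 s.2.1.2.1 s.2.1.2.2)
      (pos n3 ex3 PT3 s.2.2.1 s.2.2.2.1 s.2.2.2.2))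

lemma sum_list {M : Type*} [AddCommMonoid M] (f : ℕ → M) (T : ℕ) :
    ((List.range T).map f).sum = ∑ k ∈ range T, f k := by
  induction T with
  | zero => rfl
  | succ T ih =>
    rw [List.range_succ, List.map_append, List.sum_append, ih, Finset.sum_range_succ]
    simp

/-- the discriminant of the forms -/
lemma fo_disc (a m : ℤ) (k : ℕ) :
    (fo a m k).2.1 ^ 2 + 4 * (fo a m k).1 * (fo a m k).2.2 = a ^ 2 + 4 * m := by
  induction k with
  | zero => rw [fo_zero]; ring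
  | succ k ih =>
    rw [← ih, fo_succ]
    unfold nx
    simp only
    ring

/-- admissible forms -/
lemma adP_fo {p : ℕ} [NeZero p] {a m : ℤ} (h : K5.In p (a ^ 2 + 4 * m)) (k : ℕ) :
    adP p (rs p (fo a m k).1) (rs p (fo a m k).2.1) (rs p (-(fo a m k).2.2)) = true := by
  unfold K5.In at h
  set x := (fo a m k).1
  set y := (fo a m k).2.1
  set z := -(fo a m k).2.2 with hz
  have e : (rs p y * rs p y + 4 * rs p x * (p - rs p z)) % p = rs p (a ^ 2 + 4 * m) := by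
    apply rs_of
    have h3 := congrArg (Int.cast : ℤ → ZMod p) (fo_disc a m k)
    rw [Nat.cast_add, Nat.cast_mul, Nat.cast_mul, Nat.cast_mul, Nat.cast_sub (rs_lt z).le,
      rs_cast, rs_cast, rs_cast, ZMod.natCast_self]
    rw [hz]
    push_cast at h3 ⊢
    linear_combination h3
  have e' : adP p (rs p x) (rs p y) (rs p z) =
    Nat.beq (Nat.mod (Nat.pow ((rs p y * rs p y + 4 * rs p x * (p - rs p z)) % p) (p / 2)) p)
      (p - 1) := rfl
  rw [e', e]
  exact h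

section core

variable {n2 n3 T1 T2 T3 : ℕ} {F1 F2 F3 : List (ℕ × ℕ)} {rows : List (ℕ × ℕ)}
  {ex1 ex2 ex3 PT1 PT2 PT3 t1 t2 t3 : ℕ} {A3 : ℕ → ℕ → ℕ → Bool}
  [NeZero n2] [NeZero n3] [NeZero (19 * n2)] [NeZero (19 * n2 * n3)]

lemma zmod_of_mod {x y : ℕ} (h : x % 19 = y % 19) : ((x : ℕ) : ZMod 19) = ((y : ℕ) : ZMod 19) :=
  (ZMod.natCast_eq_natCast_iff x y 19).2 h

/-- **the reduction of a finite check** -/
theorem fc (H : TabOK 19 n2 n3 6859 361 T1 T2 T3 F1 F2 F3 rows)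
    (ht1 : tabCk 19 6859 T1 = true) (ht2 : tabCk n2 6859 T2 = true) (ht3 : tabCk n3 6859 T3 = true)
    (C1 : CompOK 19 ex1 PT1 F1 (adP 19)) (C2 : CompOK n2 ex2 PT2 F2 (adP n2))
    (C3 : CompOK n3 ex3 PT3 F3 A3)
    (r1 : redCk 19 T1 t1 19 = true) (r2 : redCk n2 T2 t2 19 = true) (r3 : redCk n3 T3 t3 19 = true)
    (rok : relOk 19 n2 n3 6859 T1 T2 T3 = true) {q0 e0 : ℕ} {L : List ℕ} (hq : n2 * n3 = q0)
    (hc1 : ∀ r < 19, dig t1 r % 19 = r ^ e0 % 19)
    (hc2 : ∀ r < q0, (dig t2 (r % n2) * dig t3 (r % n3)) % 19 = L.getD r 0 % 19)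
    (h4 : (4 * (chw T1 (4 % 19) * chw T2 (4 % n2) * chw T3 (4 % n3)) + 18) % 19 ≠ 0)
    {e : ℕ} {ψ : ℤ → ℤ} (hFg : Fg 19 q0 0 e e0 ψ)
    (hχ : ∀ u : ℤ, ((ψ u * u ^ e : ℤ) : ZMod 19)
      = ((L.getD (u % q0).toNat 0 : ℕ) : ZMod 19) * (u : ZMod 19) ^ e0)
    {a m : ℤ} {T : ℕ} (hm : (19 : ℤ) ∣ m - 1) (hT : foQ q0 a m T = foQ q0 a m 0)
    (hrel : ∀ (_ : NeZero (QN 19 q0 0)), ∑ k ∈ range T, Es (FZ 19 q0 0 e ψ)
      (foQ (QN 19 q0 0) a m k).1 (foQ (QN 19 q0 0) a m k).2.1 (foQ (QN 19 q0 0) a m k).2.2 a = 0)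
    (hi1 : K5.In 19 (a ^ 2 + 4 * m)) (hi2 : K5.In n2 (a ^ 2 + 4 * m))
    (hi3 : ∀ k, A3 (rs n3 (fo a m k).1) (rs n3 (fo a m k).2.1) (rs n3 (-(fo a m k).2.2)) = true) :
    (∑ k ∈ range T, vS ex1 ex2 ex3 19 n2 n3 PT1 PT2 PT3 t1 t2 t3 rows F3.length (rs 19 (-a))
      (trS 19 n2 n3 a m k)) % 19 = 0 := by
  have hne : NeZero (QN 19 q0 0) := hFg.fam.ne
  have hQ : 19 * n2 * n3 = QN 19 q0 0 := by unfold P4G.QN; rw [← hq]; ring
  obtain ⟨ho, -⟩ := K4.relOk_spec (by norm_num) rok ht1 ht2 ht3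
  have hc := tri_char (n1 := 19) (n2 := n2) (n3 := n3) (tabCk_char ht1) (tabCk_char ht2)
    (tabCk_char ht3)
  set χ := tri (tabc 19 6859 T1) (tabc n2 6859 T2) (tabc n3 6859 T3) with hχd
  have hd2 : n2 ∣ q0 := ⟨n3, hq.symm⟩
  have hd3 : n3 ∣ q0 := ⟨n2, by rw [← hq, mul_comm]⟩
  have hq0 : 0 < q0 := by
    rcases Nat.eq_zero_or_pos q0 with h | h
    · exfalso
      have h1 := NeZero.ne n2
      have h2 := NeZero.ne n3
      rw [← hq] at h
      rcases Nat.mul_eq_zero.1 h with h3 | h3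
      · exact h1 h3
      · exact h2 h3
    · exact h
  have hval : ∀ u : ℤ, ∃ w : ℤ, χ (u : ZMod (19 * n2 * n3)) = (w : ZMod 6859) ∧
      ((19 : ℕ) : ℤ) ∣ w - ψ u * u ^ e := by
    intro u
    refine ⟨((chw T1 (rs 19 u) * chw T2 (rs n2 u) * chw T3 (rs n3 u) : ℕ) : ℤ), ?_, ?_⟩
    · rw [hχd, tri_int]
      push_cast
      rfl
    · rw [← ZMod.intCast_zmod_eq_zero_iff_dvd, Int.cast_sub, hχ u, sub_eq_zero, Int.cast_natCast]
      set r := (u % q0).toNat with hr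
      have hr1 : (r : ℤ) = u % q0 := Int.toNat_of_nonneg (Int.emod_nonneg _ (by exact_mod_cast hq0.ne'))
      have hr2 : r < q0 := by
        have := Int.emod_lt_of_pos u (b := (q0 : ℤ)) (by exact_mod_cast hq0)
        omega
      have e0' : ∀ n : ℕ, [NeZero n] → n ∣ q0 → r % n = rs n u := by
        intro n _ hn
        apply rs_of
        have h1 : ((r : ℤ) : ZMod n) = (u : ZMod n) := by
          rw [hr1, ZMod.intCast_eq_intCast_iff_dvd_sub]
          have h2 : (q0 : ℤ) ∣ u - u % q0 := Int.dvd_self_sub_emod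
          exact dvd_trans (Int.natCast_dvd_natCast.2 hn) h2
        exact_mod_cast h1
      have e1 : ((chw T1 (rs 19 u) : ℕ) : ZMod 19) = (u : ZMod 19) ^ e0 := by
        rw [← redCk_spec r1 u, zmod_of_mod (hc1 _ (rs_lt u)), Nat.cast_pow, rs_cast]
      have e2 : ((chw T2 (rs n2 u) : ℕ) : ZMod 19) * ((chw T3 (rs n3 u) : ℕ) : ZMod 19)
          = ((L.getD r 0 : ℕ) : ZMod 19) := by
        rw [← redCk_spec r2 u, ← redCk_spec r3 u, ← e0' n2 hd2, ← e0' n3 hd3,
          ← zmod_of_mod (hc2 r hr2)]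
        push_cast
        rfl
      rw [Nat.cast_mul, Nat.cast_mul, mul_assoc, e2, e1]
      ring
  have hu4 : IsUnit (4 * χ 4 - 1) := by
    set w4 := chw T1 (4 % 19) * chw T2 (4 % n2) * chw T3 (4 % n3) with hw4
    have e4 : ∀ n : ℕ, [NeZero n] → rs n 4 = 4 % n := by
      intro n _
      symm
      apply rs_of
      push_cast
      rfl
    have h1 : χ 4 = ((w4 : ℕ) : ZMod 6859) := by
      have h2 := tri_int (n1 := 19) (n2 := n2) (n3 := n3) (N := 6859) (T1 := T1) (T2 := T2)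
        (T3 := T3) 4
      rw [e4, e4, e4] at h2
      push_cast at h2
      rw [hχd, hw4]
      push_cast
      exact h2
    have h2 : (4 * χ 4 - 1) = ((4 * (w4 : ℤ) - 1 : ℤ) : ZMod 6859) := by
      rw [h1]
      push_cast
      ring
    rw [h2, ZMod.coe_int_isUnit_iff_isCoprime]
    have h3 : ((6859 : ℕ) : ℤ) = (19 : ℤ) ^ 3 := by norm_num
    rw [h3]
    apply IsCoprime.pow_left
    have hp19 : Prime (19 : ℤ) := by
      have := Nat.prime_iff_prime_int.1 (by norm_num : Nat.Prime 19)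
      exact_mod_cast this
    refine (Prime.coprime_iff_not_dvd hp19).2 ?_
    intro h5
    apply h4
    omega
  have hTQ : foQ (19 * n2 * n3) a m T = foQ (19 * n2 * n3) a m 0 := by
    have hcop : Nat.Coprime q0 19 := hFg.fam.cop
    have key : ∀ x y : ℤ, ((x : ℤ) : ZMod q0) = (y : ZMod q0) →
        (19 : ℤ) ∣ x - y → ((x : ℤ) : ZMod (19 * n2 * n3)) = (y : ZMod (19 * n2 * n3)) := by
      intro x y h1 h2
      have h3 : (q0 : ℤ) ∣ x - y := (ZMod.intCast_eq_intCast_iff_dvd_sub y x q0).1 h1.symm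
      have h4 : ((19 * n2 * n3 : ℕ) : ℤ) ∣ x - y := by
        have e : 19 * n2 * n3 = q0 * 19 := by rw [← hq]; ring
        rw [e, Nat.cast_mul]
        exact IsCoprime.mul_dvd (Nat.isCoprime_iff_coprime.2 hcop) h3 (by exact_mod_cast h2)
      exact ((ZMod.intCast_eq_intCast_iff_dvd_sub y x _).2 h4).symm
    obtain ⟨a1, a2, a3⟩ := fo_fix (a := a) hm T
    obtain ⟨b1, b2, b3⟩ := fo_fix (a := a) hm 0
    unfold foQ at hT ⊢
    rw [Prod.mk.injEq, Prod.mk.injEq] at hT ⊢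
    refine ⟨key _ _ hT.1 ?_, key _ _ hT.2.1 ?_, key _ _ hT.2.2 ?_⟩
    · have := dvd_sub a1 b1; simpa using this
    · have := dvd_sub a2 b2; simpa using this
    · have := dvd_sub a3 b3; simpa using this
  have key := eng (l := 19) (q0 := q0) hFg (q := 19 * n2 * n3) (M := 6859) hQ (by norm_num) χ ho
    hc.mul hval hu4 hTQ (hrel hne)
  set J : List Fm := (List.range T).map (fun k => (⟨(fo a m k).1, (fo a m k).2.1,
    -(fo a m k).2.2, 3, -a⟩ : Fm)) with hJ
  have hRel : LK.Rel 6859 χ J := by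
    unfold LK.Rel
    rw [hJ, List.map_map, sum_list, ← key]
    refine Finset.sum_congr rfl fun k _ => ?_
    simp only [Function.comp]
    push_cast
    ring
  have hmem : ∀ j ∈ J, ∃ k, j = ⟨(fo a m k).1, (fo a m k).2.1, -(fo a m k).2.2, 3, -a⟩ := by
    intro j hj
    rw [hJ, List.mem_map] at hj
    obtain ⟨k, -, rfl⟩ := hj
    exact ⟨k, rfl⟩
  have fin := H.rel (l := 19) (by norm_num) (by norm_num) (by norm_num) ht1 ht2 ht3 C1 C2 C3
    r1 r2 r3 (J := J) (by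
      intro j hj
      obtain ⟨k, rfl⟩ := hmem j hj
      exact adP_fo hi1 k) (by
      intro j hj
      obtain ⟨k, rfl⟩ := hmem j hj
      exact adP_fo hi2 k) (by
      intro j hj
      obtain ⟨k, rfl⟩ := hmem j hj
      exact hi3 k) hRel
  rw [hJ, List.map_map, sum_list] at fin
  exact fin

end core

end Pool.Agent.BQ1
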