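import Pool.Agent.RQM.C135

/-!
Families at the prime nineteen: characters from tables of logarithms, general construction.
-/

set_option autoImplicit false

namespace Pool.Agent.BQ1

open Finset (range)
open Pool.Agent.P4G
open Pool.Agent.RDF (bt)

/-- the value of a signed logarithm: `0` at zero, `w ^ (c - 1)` or `- w ^ (-c - 1)` -/
def vl (w c : ℤ) : ℤ := c.sign * w ^ (c.natAbs - 1)

/-- the product of signed logarithms, for `w ^ 9 = -1` -/
def mulV (a b : ℤ) : ℤ :=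
  if a = 0 ∨ b = 0 then 0 else
    if 9 ≤ a.natAbs - 1 + (b.natAbs - 1)
    then -(a.sign * b.sign) * ((a.natAbs - 1 + (b.natAbs - 1) - 9 + 1 : ℕ) : ℤ)
    else (a.sign * b.sign) * ((a.natAbs - 1 + (b.natAbs - 1) + 1 : ℕ) : ℤ)

/-- the character with the table `L` of signed logarithms modulo `q` -/
def psi (q : ℕ) (L : List ℤ) (w u : ℤ) : ℤ := vl w (L.getD (u % q).toNat 0)

lemma vl_neg (w c : ℤ) : vl w (-c) = - vl w c := by
  unfold vl
  rw [Int.sign_neg, Int.natAbs_neg]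
  ring

lemma sign_pm {a : ℤ} (ha : a ≠ 0) : a.sign = 1 ∨ a.sign = -1 := by
  rcases lt_trichotomy a 0 with h | h | h
  · exact Or.inr (Int.sign_eq_neg_one_of_neg h)
  · exact absurd h ha
  · exact Or.inl (Int.sign_eq_one_of_pos h)

lemma sign_mul_nat {s : ℤ} (hs : s = 1 ∨ s = -1) (k : ℕ) : (s * ((k + 1 : ℕ) : ℤ)).sign = s := by
  have h : (0 : ℤ) < ((k + 1 : ℕ) : ℤ) := by positivity
  rw [Int.sign_mul, Int.sign_eq_one_of_pos h, mul_one]
  rcases hs with rfl | rfl <;> rfl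

lemma natAbs_mul_nat {s : ℤ} (hs : s = 1 ∨ s = -1) (k : ℕ) :
    (s * ((k + 1 : ℕ) : ℤ)).natAbs = k + 1 := by
  rw [Int.natAbs_mul, Int.natAbs_natCast]
  rcases hs with rfl | rfl <;> simp

lemma vl_mulV {M : ℕ} {w : ℤ} (hw : ((w : ℤ) : ZMod M) ^ 9 = -1) (a b : ℤ) :
    ((vl w (mulV a b) : ℤ) : ZMod M) = (vl w a : ℤ) * (vl w b : ℤ) := by
  unfold mulV
  split_ifs with h1 h2
  · rcases h1 with rfl | rfl <;> simp [vl]
  · push Not at h1
    have hs : a.sign * b.sign = 1 ∨ a.sign * b.sign = -1 := by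
      rcases sign_pm h1.1 with h3 | h3 <;> rcases sign_pm h1.2 with h4 | h4 <;> rw [h3, h4] <;> simp
    have hs' : -(a.sign * b.sign) = 1 ∨ -(a.sign * b.sign) = -1 := by
      rcases hs with h3 | h3 <;> rw [h3] <;> simp
    obtain ⟨k, hk⟩ : ∃ k, a.natAbs - 1 + (b.natAbs - 1) = 9 + k := ⟨_, (Nat.add_sub_cancel' h2).symm⟩
    unfold vl
    rw [sign_mul_nat hs', natAbs_mul_nat hs', hk, Nat.add_sub_cancel_left, Nat.add_sub_cancel]
    push_cast
    have e1 : (w : ZMod M) ^ (a.natAbs - 1) * (w : ZMod M) ^ (b.natAbs - 1)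
        = - (w : ZMod M) ^ k := by
      rw [← pow_add, hk, pow_add, hw]
      ring
    linear_combination -((a.sign : ZMod M) * (b.sign : ZMod M)) * e1
  · push Not at h1
    have hs : a.sign * b.sign = 1 ∨ a.sign * b.sign = -1 := by
      rcases sign_pm h1.1 with h3 | h3 <;> rcases sign_pm h1.2 with h4 | h4 <;> rw [h3, h4] <;> simp
    unfold vl
    rw [sign_mul_nat hs, natAbs_mul_nat hs, Nat.add_sub_cancel]
    push_cast
    rw [pow_add]
    ring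

lemma vl_mod {N : ℕ} {w w' : ℤ} (h : ((w : ℤ) : ZMod N) = (w' : ℤ)) (c : ℤ) :
    ((vl w c : ℤ) : ZMod N) = (vl w' c : ℤ) := by
  unfold vl
  push_cast
  rw [h]

/-- a good table -/
structure GT (q : ℕ) (L : List ℤ) : Prop where
  pos : 1 < q
  mul : ∀ i < q, ∀ j < q, L.getD (i * j % q) 0 = mulV (L.getD i 0) (L.getD j 0)
  one : L.getD 1 0 = 1

variable {q : ℕ} {L : List ℤ}

lemma psi_nat (q : ℕ) (L : List ℤ) (w : ℤ) (i : ℕ) (hi : i < q) :
    psi q L w (i : ℤ) = vl w (L.getD i 0) := by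
  unfold psi
  rw [Int.emod_eq_of_lt (by positivity) (by exact_mod_cast hi), Int.toNat_natCast]

lemma psi_congr (w : ℤ) {u v : ℤ} (h : u % q = v % q) : psi q L w u = psi q L w v := by
  unfold psi
  rw [h]

lemma psi_per (w u : ℤ) : psi q L w (u + (q : ℕ)) = psi q L w u :=
  psi_congr w (by simp)

lemma exists_nat (hq : 1 < q) (u : ℤ) : ∃ i : ℕ, i < q ∧ u % q = (i : ℤ) % q := by
  have h0 : (0 : ℤ) < (q : ℤ) := by positivity
  refine ⟨(u % q).toNat, ?_, ?_⟩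
  · have h1 := Int.emod_nonneg u h0.ne'
    have h2 := Int.emod_lt_of_pos u h0
    omega
  · rw [Int.toNat_of_nonneg (Int.emod_nonneg u h0.ne'), Int.emod_emod_of_dvd _ (dvd_refl _)]

lemma psi_mul (h : GT q L) {M : ℕ} {w : ℤ} (hw : ((w : ℤ) : ZMod M) ^ 9 = -1) (u v : ℤ) :
    ((psi q L w (u * v) : ℤ) : ZMod M) = (psi q L w u : ℤ) * (psi q L w v : ℤ) := by
  obtain ⟨i, hi, hui⟩ := exists_nat h.pos u
  obtain ⟨j, hj, hvj⟩ := exists_nat h.pos v
  have e1 : psi q L w (u * v) = psi q L w ((i * j % q : ℕ) : ℤ) := by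
    apply psi_congr
    push_cast
    rw [Int.emod_emod_of_dvd _ (dvd_refl _), Int.mul_emod, hui, hvj, ← Int.mul_emod]
  rw [e1, psi_congr w hui, psi_congr w hvj, psi_nat q L w _ (Nat.mod_lt _ (by have := h.pos; omega)),
    psi_nat q L w i hi, psi_nat q L w j hj, h.mul i hi j hj, vl_mulV hw]

lemma psi_one (h : GT q L) (w : ℤ) : psi q L w 1 = 1 := by
  have h1 := psi_nat q L w 1 h.pos
  rw [h.one] at h1
  simpa [vl] using h1

lemma neg_rep {i : ℕ} (hi : i < q) {u : ℤ} (hu : u % q = (i : ℤ) % q) :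
    (-u) % q = (((q - i) % q : ℕ) : ℤ) % q := by
  have h1 : u ≡ (i : ℤ) [ZMOD q] := hu
  have h0 : (0 : ℤ) ≡ (q : ℤ) [ZMOD q] := Int.modEq_iff_dvd.2 (by simp)
  have h2 : (0 : ℤ) - u ≡ (q : ℤ) - i [ZMOD q] := Int.ModEq.sub h0 h1
  have h3 : (-u) % q = ((q : ℤ) - i) % q := by
    rw [zero_sub] at h2
    exact h2
  rw [h3]
  push_cast [hi.le]
  rw [Int.emod_emod_of_dvd _ (dvd_refl _)]

lemma psi_neg_even (hq : 1 < q) (h : ∀ i < q, L.getD ((q - i) % q) 0 = L.getD i 0) (w u : ℤ) :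
    psi q L w (-u) = psi q L w u := by
  obtain ⟨i, hi, hui⟩ := exists_nat hq u
  rw [psi_congr w (neg_rep hi hui), psi_congr w hui,
    psi_nat q L w _ (Nat.mod_lt _ (by omega)), psi_nat q L w i hi, h i hi]

lemma psi_neg_odd (hq : 1 < q) (h : ∀ i < q, L.getD ((q - i) % q) 0 = - L.getD i 0) (w u : ℤ) :
    psi q L w (-u) = - psi q L w u := by
  obtain ⟨i, hi, hui⟩ := exists_nat hq u
  rw [psi_congr w (neg_rep hi hui), psi_congr w hui,
    psi_nat q L w _ (Nat.mod_lt _ (by omega)), psi_nat q L w i hi, h i hi, vl_neg]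

lemma psi_mod {N : ℕ} {w w' : ℤ} (h : ((w : ℤ) : ZMod N) = (w' : ℤ)) (u : ℤ) :
    ((psi q L w u : ℤ) : ZMod N) = (psi q L w' u : ℤ) := vl_mod h _

lemma Hs_modN {l N : ℕ} {ψ ψ' : ℤ → ℤ} (h : ∀ u, ((ψ u : ℤ) : ZMod N) = (ψ' u : ℤ))
    (q0 v m : ℕ) : ((Hs l q0 ψ v m : ℤ) : ZMod N) = (Hs l q0 ψ' v m : ℤ) := by
  unfold Hs
  push_cast
  apply Finset.sum_congr rfl
  intro r _
  rw [h]

lemma DD_modN {l N : ℕ} {ψ ψ' : ℤ → ℤ} (h : ∀ u, ((ψ u : ℤ) : ZMod N) = (ψ' u : ℤ))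
    (q0 v m : ℕ) : ((DD l q0 ψ v m : ℤ) : ZMod N) = (DD l q0 ψ' v m : ℤ) := by
  unfold DD
  push_cast
  apply Finset.sum_congr rfl
  intro r _
  rw [h]

lemma prime19 : Nat.Prime 19 := by norm_num

/-- the primitive root of unity of order eighteen that lifts `2` -/
def tw (n : ℕ) : ℤ := 2 ^ (19 ^ n)

lemma tw_mod (n : ℕ) : ((tw n : ℤ) : ZMod 19) = ((2 : ℤ) : ZMod 19) := by
  have : Fact (Nat.Prime 19) := ⟨prime19⟩
  unfold tw
  induction n with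
  | zero => simp
  | succ n ih =>
    rw [pow_succ 19 n, pow_mul, Int.cast_pow, ih]
    exact ZMod.pow_card _

lemma tw_nine (n : ℕ) : ((tw n : ℤ) : ZMod (19 ^ (n + 1))) ^ 9 = -1 := by
  have h1 : ((19 : ℕ) : ℤ) ∣ (2 ^ 9 : ℤ) - (-1) := by norm_num
  have h2 := dvd_sub_pow_of_dvd_sub h1 n
  have h3 : (-1 : ℤ) ^ (19 ^ n) = -1 := Odd.neg_one_pow (Odd.pow (by decide))
  rw [h3, ← pow_mul, mul_comm 9, pow_mul] at h2
  have h4 : (((tw n ^ 9 - (-1) : ℤ)) : ZMod (19 ^ (n + 1))) = 0 := by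
    rw [ZMod.intCast_zmod_eq_zero_iff_dvd]
    unfold tw
    push_cast
    exact h2
  push_cast at h4
  linear_combination h4

/-- existence of a family at level `n` -/
theorem mkFam {q0 m0 n : ℕ} {L : List ℤ} (hL : GT q0 L) (hq : q0 % 2 = 1)
    (hcop : Nat.Coprime q0 19) (h2 : 2 ≤ m0)
    (hpar : (m0 % 2 = 1 ∧ ∀ i < q0, L.getD ((q0 - i) % q0) 0 = L.getD i 0) ∨
      (m0 % 2 = 0 ∧ ∀ i < q0, L.getD ((q0 - i) % q0) 0 = - L.getD i 0))
    (hbase : Hs 19 q0 (psi q0 L 2) 1 m0 % 19 = 0) (hder : DD 19 q0 (psi q0 L 2) 2 m0 % 19 ≠ 0) :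
    ∃ e, e % 18 = m0 % 18 ∧ n + 2 ≤ e ∧ Fam 19 q0 n e (psi q0 L (tw n)) := by
  have hmod : ∀ u, ((psi q0 L (tw n) u : ℤ) : ZMod 19) = (psi q0 L 2 u : ℤ) := psi_mod (tw_mod n)
  have hodd : ∀ (m : ℕ), m % 2 = m0 % 2 → ∀ x,
      psi q0 L (tw n) (-x) * (-1) ^ m = - psi q0 L (tw n) x := by
    intro m hm x
    rcases hpar with ⟨h3, h4⟩ | ⟨h3, h4⟩
    · rw [psi_neg_even hL.pos h4, Odd.neg_one_pow (Nat.odd_iff.2 (by omega))]
      ring
    · rw [psi_neg_odd hL.pos h4, Even.neg_one_pow (Nat.even_iff.2 (by omega))]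
      ring
  have hb : ((19 : ℕ) : ℤ) ∣ Hs 19 q0 (psi q0 L (tw n)) 1 m0 := by
    have h1 := Hs_modN (l := 19) hmod q0 1 m0
    have h2 : ((Hs 19 q0 (psi q0 L 2) 1 m0 : ℤ) : ZMod 19) = 0 := by
      rw [ZMod.intCast_zmod_eq_zero_iff_dvd]
      push_cast
      omega
    rw [h2] at h1
    exact (ZMod.intCast_zmod_eq_zero_iff_dvd _ 19).1 h1
  have hD : ¬ ((19 : ℕ) : ℤ) ∣ DD 19 q0 (psi q0 L (tw n)) 2 m0 := by
    intro h
    have h1 := DD_modN (l := 19) hmod q0 2 m0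
    rw [(ZMod.intCast_zmod_eq_zero_iff_dvd _ 19).2 h] at h1
    have h2 := (ZMod.intCast_zmod_eq_zero_iff_dvd _ 19).1 h1.symm
    push_cast at h2
    omega
  obtain ⟨e, he, hen, hz⟩ := exists_zero (l := 19) prime19 (by norm_num) (q0 := q0) hq
    (fun u => psi_per (tw n) u) h2 (hodd m0 rfl) hb hD n
  have he' : e % 18 = m0 % 18 := he
  refine ⟨e, he', hen, prime19, by norm_num, hq, hcop, fun u => psi_per (tw n) u,
    hodd e (by omega), psi_mul hL (tw_nine n), hz⟩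

end Pool.Agent.BQ1
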