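import Pool.Agent.BQ1.FamG

/-!
The tables of the five families at the prime nineteen.
-/

set_option autoImplicit false

namespace Pool.Agent.BQ1

open Pool.Agent.P4G

/-- conductor 21 -/
def L1 : List ℤ := [0, 1, 4, 0, 7, 4, 0, 0, -1, 0, 7, -7, 0, 1, 0, 0, -4, -7, 0, -4, -1]

/-- conductor 13 -/
def L2 : List ℤ := [0, 1, 7, 7, -4, 1, -4, -4, 1, -4, 7, 7, 1]

/-- conductor 13 -/
def L3 : List ℤ := [0, 1, -7, 7, -4, -1, 4, 4, -1, -4, 7, -7, 1]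

/-- conductor 17 -/
def L4 : List ℤ := [0, 1, 1, -1, 1, -1, -1, -1, 1, 1, -1, -1, -1, 1, -1, 1, 1]

/-- conductor 39 -/
def L5 : List ℤ := [0, 1, -4, 0, 7, 1, 0, -7, 1, 0, -4, -4, 0, 0, -1, 0, -4, -7, 0, -7, 7, 0, 7, 4, 0, 1, 0, 0, 4, 4, 0, -1, 7, 0, -1, -7, 0, 4, -1]

lemma gt1 : GT 21 L1 := ⟨by norm_num, by decide +kernel, rfl⟩
lemma par1 : ∀ i < 21, L1.getD ((21 - i) % 21) 0 = - L1.getD i 0 := by decide +kernel
lemma gt2 : GT 13 L2 := ⟨by norm_num, by decide +kernel, rfl⟩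
lemma par2 : ∀ i < 13, L2.getD ((13 - i) % 13) 0 = L2.getD i 0 := by decide +kernel
lemma gt3 : GT 13 L3 := ⟨by norm_num, by decide +kernel, rfl⟩
lemma par3 : ∀ i < 13, L3.getD ((13 - i) % 13) 0 = L3.getD i 0 := by decide +kernel
lemma gt4 : GT 17 L4 := ⟨by norm_num, by decide +kernel, rfl⟩
lemma par4 : ∀ i < 17, L4.getD ((17 - i) % 17) 0 = L4.getD i 0 := by decide +kernel
lemma gt5 : GT 39 L5 := ⟨by norm_num, by decide +kernel, rfl⟩
lemma par5 : ∀ i < 39, L5.getD ((39 - i) % 39) 0 = - L5.getD i 0 := by decide +kernel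

end Pool.Agent.BQ1
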