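import Pool.Agent.BQ1.LVL
import Pool.Agent.PSX.M_EFZ
import Pool.Agent.PSX.M_LCQ
import Pool.Agent.PSX.M_RSM
import Pool.Agent.PSX.M_BLK
import Pool.Agent.PSX.M_LCH
import Pool.Agent.PSX.M_NUS

/-!
# The sum of a family does not see multiples of the period in a letter (note 2964, L2)
-/

set_option autoImplicit false

namespace Pool.Agent.BQ1

open Finset (range)
open Pool.Agent.P4G (Fam QN FN FZ CC CR Hs)
open Pool.Agent.PSX (Es EZ SX evZ)

namespace KZp

/-- sums of polynomials of small degree over a prime field -/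
lemma sum_poly_lt {l : ℕ} [Fact l.Prime] (p : Polynomial (ZMod l)) (hp : p.natDegree < l - 1) :
    ∑ x : ZMod l, p.eval x = 0 := by
  simp only [Polynomial.eval_eq_sum_range]
  rw [Finset.sum_comm]
  apply Finset.sum_eq_zero
  intro i hi
  rw [← Finset.mul_sum, FiniteField.sum_pow_lt_card_sub_one (ZMod l) i (by
    rw [ZMod.card]
    have := Finset.mem_range.1 hi
    omega), mul_zero]

/-- periodicity of `FN` -/
lemma FN_congr {l q0 n e : ℕ} {ψ : ℤ → ℤ} (h : Fam l q0 n e ψ) {u w : ℤ}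
    (hd : ((QN l q0 n : ℕ) : ℤ) ∣ w - u) : FN l n e ψ w = FN l n e ψ u := by
  rw [← h.FZ_cast w, ← h.FZ_cast u]
  congr 1
  exact ((ZMod.intCast_eq_intCast_iff_dvd_sub u w _).2 hd).symm

lemma pow_red {l : ℕ} [Fact l.Prime] {e e0 : ℕ} (hr : e % (l - 1) = e0) (h0 : 1 ≤ e0)
    (a : ZMod l) : a ^ e = a ^ e0 := by
  have hdiv := Nat.div_add_mod e (l - 1)
  rw [hr] at hdiv
  by_cases ha : a = 0
  · subst ha
    rw [zero_pow (by omega), zero_pow (by omega)]
  · rw [← hdiv, pow_add, pow_mul, ZMod.pow_card_sub_one_eq_one ha, one_pow, one_mul]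

/-- the full sum over a period vanishes -/
lemma full_zero {l q0 n e e0 : ℕ} {ψ : ℤ → ℤ} (h : Fg l q0 n e e0 ψ) (he : 2 * e0 < l - 1)
    (P R S x : ℤ) : ∑ j ∈ range (QN l q0 n), FN l n e ψ (evZ P R S x j) = 0 := by
  have : Fact l.Prime := ⟨h.fam.hl⟩
  have h1 : 1 ≤ e0 := by
    rcases Nat.eq_zero_or_pos e0 with h0 | h0
    · exfalso
      apply h.nd
      have hr := h.red
      rw [h0] at hr
      exact Dvd.dvd.mul_left (Nat.dvd_of_mod_eq_zero hr) 2
    · exact h0
  let A : Polynomial ℤ := Polynomial.C (P * x ^ 2) + Polynomial.C (R * x) * Polynomial.X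
    - Polynomial.C S * Polynomial.X ^ 2
  have hA : ∀ j : ℤ, A.eval j = evZ P R S x j := by
    intro j
    simp only [A, Polynomial.eval_sub, Polynomial.eval_add, Polynomial.eval_mul,
      Polynomial.eval_C, Polynomial.eval_X, Polynomial.eval_pow]
    unfold evZ
    ring
  have h2 := PSX.t_RSM PSX.t_BLK l q0 n e ψ h.fam A (A ^ e)
  have h3 : ∑ j ∈ range (QN l q0 n), FN l n e ψ (evZ P R S x j)
      = ∑ j ∈ range (QN l q0 n), ((ψ (A.eval (j : ℤ)) : ℤ) : ZMod (l ^ (n + 1)))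
        * (((A ^ e).eval (j : ℤ) : ℤ) : ZMod (l ^ (n + 1))) := by
    refine Finset.sum_congr rfl fun j _ => ?_
    rw [Polynomial.eval_pow, hA]
    unfold FN
    push_cast
    rfl
  rw [h3, h2]
  have h4 : (l : ℤ) ∣ ∑ j ∈ range l, (A ^ e).eval (j : ℤ) := by
    rw [← ZMod.intCast_zmod_eq_zero_iff_dvd]
    push_cast
    let a : Polynomial (ZMod l) := A.map (Int.castRingHom (ZMod l))
    have e1 : ∀ j ∈ range l, (((A ^ e).eval (j : ℤ) : ℤ) : ZMod l)
        = (fun y : ZMod l => (a ^ e0).eval y) (j : ZMod l) := by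
      intro j _
      simp only
      rw [Polynomial.eval_pow, Polynomial.eval_pow]
      push_cast
      rw [pow_red h.red h1]
      congr 1
      have := Polynomial.eval_intCast_map (Int.castRingHom (ZMod l)) A (j : ℤ)
      simp only [eq_intCast, Int.cast_natCast] at this
      exact this.symm
    rw [Finset.sum_congr rfl e1]
    have : NeZero l := ⟨h.fam.hl.ne_zero⟩
    rw [RDF.sum_range_zmod (fun y : ZMod l => (a ^ e0).eval y)]
    apply sum_poly_lt
    have hA2 : A.natDegree ≤ 2 := by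
      simp only [A]
      compute_degree
    have ha2 : a.natDegree ≤ 2 := (Polynomial.natDegree_map_le).trans hA2
    calc (a ^ e0).natDegree ≤ e0 * a.natDegree := Polynomial.natDegree_pow_le
      _ ≤ e0 * 2 := Nat.mul_le_mul_left _ ha2
      _ < l - 1 := by omega
  obtain ⟨t, ht⟩ := h4
  rw [ht]
  have h0 : ((l : ZMod (l ^ (n + 1))) ^ (n + 1)) = 0 := by
    have := ZMod.natCast_self (l ^ (n + 1))
    push_cast at this
    exact this
  push_cast
  linear_combination ((∑ i ∈ range q0, ((ψ (A.eval (i : ℤ)) : ℤ) : ZMod (l ^ (n + 1)))) * (t : ZMod (l ^ (n + 1)))) * h0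

end KZp

/-- **multiples of the period in a letter are invisible** -/
theorem kz {l q0 n e e0 : ℕ} {ψ : ℤ → ℤ} [NeZero (QN l q0 n)] (h : Fg l q0 n e e0 ψ)
    (he : 2 * e0 < l - 1) (P R S c t0 : ℤ) :
    Es (FZ l q0 n e ψ) (P : ZMod (QN l q0 n)) (R : ZMod (QN l q0 n)) (S : ZMod (QN l q0 n))
        (c + (QN l q0 n : ℕ) * t0)
      = Es (FZ l q0 n e ψ) (P : ZMod (QN l q0 n)) (R : ZMod (QN l q0 n)) (S : ZMod (QN l q0 n)) c := by
  rw [PSX.t_EFZ l q0 n e ψ h.fam, PSX.t_EFZ l q0 n e ψ h.fam,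
    PSX.t_LCQ (PSX.t_LCH PSX.t_NUS) l q0 n h.fam.Qodd (fun x y => FN l n e ψ (evZ P R S x y))
      (by
        intro x y
        apply KZp.FN_congr h.fam
        refine ⟨R * x - 2 * S * y - S * (QN l q0 n : ℕ), ?_⟩
        unfold evZ
        ring) c t0]
  have h1 : ∀ x : ℤ, ∑ j ∈ range (QN l q0 n), FN l n e ψ (evZ P R S x j) = 0 :=
    fun x => KZp.full_zero h he P R S x
  unfold SX
  simp only [h1, mul_zero, Finset.sum_const_zero, add_zero]

end Pool.Agent.BQ1
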