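import Pool.Agent.PSX.M_BFD
import Pool.Agent.PSX.M_LFT
import Pool.Agent.PSX.M_ZSQ
import Pool.Agent.PSX.M_NUS
import Pool.Agent.PSX.M_DBL

/-!
# Level independence of the sums over closed cycles (note 2964, L1)
-/

set_option autoImplicit false

namespace Pool.Agent.BQ1

open Finset (range)
open Pool.Agent.P4G (Fam QN FN FZ CC CR Hs)
open Pool.Agent.RDF (β γ δ)
open Pool.Agent.PSX (Es Z0 XA YA sm ev W sg nu)

/-- a family with `ψ 1 = 1` and the reduced exponent `e0` -/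
structure Fg (l q0 n e e0 : ℕ) (ψ : ℤ → ℤ) : Prop where
  fam : Fam l q0 n e ψ
  one : ψ 1 = 1
  red : e % (l - 1) = e0
  nd : ¬ (l - 1) ∣ 2 * e

namespace LVLp

/-- a sum over `Q1 * N` as a double sum -/
lemma sum_mul {M : Type*} [AddCommMonoid M] (Q1 N : ℕ) (F : ℕ → M) :
    ∑ r ∈ range (Q1 * N), F r = ∑ i ∈ range Q1, ∑ j ∈ range N, F (i + Q1 * j) := by
  induction N with
  | zero => simp
  | succ N ih =>
    rw [Nat.mul_succ, Finset.sum_range_add, ih, ← Finset.sum_add_distrib]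
    refine Finset.sum_congr rfl fun i _ => ?_
    rw [Finset.sum_range_succ, add_comm (Q1 * N) i]

lemma bZ_sum (Q1 N i : ℕ) (h : 0 < Q1) (hN : 0 < N) :
    ∑ j ∈ range N, Lib_helper5.bZ (Q1 * N) (i + Q1 * j) = N * Lib_helper5.bZ Q1 i := by
  have h1 : ∀ C : ℤ, ∑ j ∈ range N, (C - 2 * ((i : ℤ) + Q1 * j)) = N * (C - 2 * i) - Q1 * N * (N - 1) := by
    intro C
    clear hN
    induction N with
    | zero => simp
    | succ N ih =>
      rw [Finset.sum_range_succ, ih]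
      push_cast
      ring
  have h2 : ∑ j ∈ range N, Lib_helper5.bZ (Q1 * N) (i + Q1 * j)
      = ∑ j ∈ range N, ((Q1 * N : ℤ) - 2 * ((i : ℤ) + Q1 * j))
        - ∑ j ∈ range N, (if i + Q1 * j = 0 then (Q1 * N : ℤ) else 0) := by
    rw [← Finset.sum_sub_distrib]
    refine Finset.sum_congr rfl fun j _ => ?_
    unfold Lib_helper5.bZ
    split_ifs with h3
    · have h4 : (i : ℤ) + Q1 * j = 0 := by exact_mod_cast h3
      rw [h4]; ring
    · push_cast; ring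
  rw [h2, h1]
  unfold Lib_helper5.bZ
  by_cases hi : i = 0
  · subst hi
    rw [if_pos rfl]
    have h3 : ∑ j ∈ range N, (if 0 + Q1 * j = 0 then (Q1 * N : ℤ) else 0) = Q1 * N := by
      rw [Finset.sum_eq_single 0]
      · simp
      · intro j _ hj
        rw [if_neg]
        simp only [zero_add, mul_eq_zero]
        omega
      · intro h0
        exact absurd (Finset.mem_range.2 hN) h0
    rw [h3]
    push_cast
    ring
  · rw [if_neg hi]
    have h3 : ∑ j ∈ range N, (if i + Q1 * j = 0 then (Q1 * N : ℤ) else 0) = 0 := by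
      apply Finset.sum_eq_zero
      intro j _
      rw [if_neg]
      omega
    rw [h3]
    ring

lemma b2Z_sum (Q1 N i : ℕ) :
    ∑ j ∈ range N, Lib_helper5.b2Z (Q1 * N) (i + Q1 * j) = N * Lib_helper5.b2Z Q1 i := by
  have h1 : ∀ C : ℤ, ∑ j ∈ range N, (6 * ((i : ℤ) + Q1 * j) ^ 2 - 6 * ((i : ℤ) + Q1 * j) * C + C ^ 2)
      = 6 * N * i ^ 2 + 6 * i * Q1 * N * (N - 1) + Q1 ^ 2 * N * (N - 1) * (2 * N - 1)
        - 6 * C * i * N - 3 * C * Q1 * N * (N - 1) + N * C ^ 2 := by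
    intro C
    induction N with
    | zero => simp
    | succ N ih =>
      rw [Finset.sum_range_succ, ih]
      push_cast
      ring
  have h2 := h1 (Q1 * N)
  unfold Lib_helper5.b2Z
  push_cast
  rw [h2]
  ring

variable {Q1 N Q : ℕ} [NeZero Q1] [NeZero Q]

/-- distribution for a weight -/
lemma dst (hQ : Q = Q1 * N) (π : ZMod Q →+* ZMod Q1) (w : ℕ → ℤ) (w1 : ℕ → ℤ)
    (hw : ∀ i, i < Q1 → ∑ j ∈ range N, w (i + Q1 * j) = N * w1 i) (h : ZMod Q1 → ℤ) :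
    ∑ x : ZMod Q, h (π x) * w x.val = N * ∑ x : ZMod Q1, h x * w1 x.val := by
  rw [← RDF.sum_range_zmod (fun x : ZMod Q => h (π x) * w x.val),
    ← RDF.sum_range_zmod (fun x : ZMod Q1 => h x * w1 x.val)]
  have e1 : ∀ r ∈ range Q, h (π ((r : ℕ) : ZMod Q)) * w ((r : ZMod Q)).val
      = h ((r : ℕ) : ZMod Q1) * w r := by
    intro r hr
    rw [ZMod.val_cast_of_lt (Finset.mem_range.1 hr), map_natCast]
  rw [Finset.sum_congr rfl e1, hQ, sum_mul, Finset.mul_sum]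
  refine Finset.sum_congr rfl fun i hi => ?_
  have e2 : ∀ j ∈ range N, h ((i + Q1 * j : ℕ) : ZMod Q1) * w (i + Q1 * j)
      = h (i : ZMod Q1) * w (i + Q1 * j) := by
    intro j _
    have : ((i + Q1 * j : ℕ) : ZMod Q1) = (i : ZMod Q1) := by
      push_cast
      rw [ZMod.natCast_self, zero_mul, add_zero]
    rw [this]
  rw [Finset.sum_congr rfl e2, ← Finset.mul_sum, hw i (Finset.mem_range.1 hi),
    ZMod.val_cast_of_lt (Finset.mem_range.1 hi)]
  ring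

lemma dst_one (hQ : Q = Q1 * N) (π : ZMod Q →+* ZMod Q1) (h : ZMod Q1 → ℤ) :
    ∑ x : ZMod Q, h (π x) = N * ∑ x : ZMod Q1, h x := by
  have := dst hQ π (fun _ => 1) (fun _ => 1) (by intro i _; simp) h
  simpa using this

lemma hN0 (hQ : Q = Q1 * N) : 0 < N := by
  rcases Nat.eq_zero_or_pos N with h | h
  · exact absurd (by rw [hQ, h, mul_zero]) (NeZero.ne Q)
  · exact h

lemma dst_beta (hQ : Q = Q1 * N) (π : ZMod Q →+* ZMod Q1) (h : ZMod Q1 → ℤ) :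
    ∑ x : ZMod Q, h (π x) * β x = N * ∑ x : ZMod Q1, h x * β x := by
  have := dst hQ π (Lib_helper5.bZ Q) (Lib_helper5.bZ Q1) (by
    intro i _
    rw [hQ]
    exact bZ_sum Q1 N i (Nat.pos_of_ne_zero (NeZero.ne Q1)) (hN0 hQ)) h
  exact this

lemma dst_gamma (hQ : Q = Q1 * N) (π : ZMod Q →+* ZMod Q1) (h : ZMod Q1 → ℤ) :
    ∑ x : ZMod Q, h (π x) * γ x = N * ∑ x : ZMod Q1, h x * γ x := by
  have := dst hQ π (Lib_helper5.b2Z Q) (Lib_helper5.b2Z Q1) (by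
    intro i _
    rw [hQ]
    exact b2Z_sum Q1 N i) h
  exact this

lemma map_ev (π : ZMod Q →+* ZMod Q1) (P R S x y : ZMod Q) :
    π (ev P R S x y) = ev (π P) (π R) (π S) (π x) (π y) := by
  unfold ev
  simp only [map_sub, map_add, map_mul, map_pow]

lemma XA_map (hQ : Q = Q1 * N) (π : ZMod Q →+* ZMod Q1) (g : ZMod Q1 → ℤ) (P R S : ZMod Q) :
    XA (fun z => g (π z)) P R S = (N : ℤ) ^ 2 * XA g (π P) (π R) (π S) := by
  unfold XA
  simp only [map_ev]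
  have e1 : ∀ x : ZMod Q, ∑ y : ZMod Q, g (ev (π P) (π R) (π S) (π x) (π y)) * (β x * β y)
      = (fun x1 : ZMod Q1 => N * ∑ y : ZMod Q1, g (ev (π P) (π R) (π S) x1 y) * β y) (π x) * β x := by
    intro x
    have h1 := dst_beta hQ π (fun y1 => g (ev (π P) (π R) (π S) (π x) y1))
    simp only at h1 ⊢
    rw [← h1, Finset.sum_mul]
    refine Finset.sum_congr rfl fun y _ => ?_
    ring
  rw [Finset.sum_congr rfl (fun x _ => e1 x), dst_beta hQ π
    (fun x1 : ZMod Q1 => N * ∑ y : ZMod Q1, g (ev (π P) (π R) (π S) x1 y) * β y), pow_two, mul_assoc]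
  congr 1
  rw [Finset.mul_sum]
  refine Finset.sum_congr rfl fun x _ => ?_
  rw [mul_assoc, Finset.sum_mul]
  congr 1
  refine Finset.sum_congr rfl fun y _ => ?_
  ring

lemma YA_map (hQ : Q = Q1 * N) (π : ZMod Q →+* ZMod Q1) (g : ZMod Q1 → ℤ) (P R S : ZMod Q) :
    YA (fun z => g (π z)) P R S = (N : ℤ) ^ 2 * YA g (π P) (π R) (π S) := by
  unfold YA
  simp only [map_ev]
  have e1 : ∀ x : ZMod Q, ∑ y : ZMod Q, g (ev (π P) (π R) (π S) (π x) (π y)) * γ x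
      = (fun x1 : ZMod Q1 => N * ∑ y : ZMod Q1, g (ev (π P) (π R) (π S) x1 y)) (π x) * γ x := by
    intro x
    have h1 := dst_one hQ π (fun y1 => g (ev (π P) (π R) (π S) (π x) y1))
    simp only at h1 ⊢
    rw [← h1, Finset.sum_mul]
  rw [Finset.sum_congr rfl (fun x _ => e1 x), dst_gamma hQ π
    (fun x1 : ZMod Q1 => N * ∑ y : ZMod Q1, g (ev (π P) (π R) (π S) x1 y)), pow_two, mul_assoc]
  congr 1
  rw [Finset.mul_sum]
  refine Finset.sum_congr rfl fun x _ => ?_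
  rw [mul_assoc, Finset.sum_mul]

lemma Z0_map (hQ : Q = Q1 * N) (π : ZMod Q →+* ZMod Q1) (g : ZMod Q1 → ℤ) (S : ZMod Q) :
    Z0 (fun z => g (π z)) S = (N : ℤ) * Z0 g (π S) := by
  unfold Z0
  have h1 := dst_one hQ π (fun y1 => g (-(π S * y1 ^ 2)))
  rw [← h1]
  refine Finset.sum_congr rfl fun y _ => ?_
  simp only [map_neg, map_mul, map_pow]

lemma sm_map (π : ZMod Q →+* ZMod Q1) (g : ZMod Q1 → ℤ) :
    sm (fun z : ZMod Q => g (π z)) = fun z => (sm g) (π z) := by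
  funext z
  unfold sm
  simp only [map_mul, map_ofNat]

end LVLp

/-- **level independence over the integers** -/
theorem lvlZ {Q1 N Q : ℕ} [NeZero Q1] [NeZero Q] (hQ : Q = Q1 * N)
    (hodd : Q % 2 = 1) (π : ZMod Q →+* ZMod Q1) (f : ZMod Q1 → ℤ) (hf : ∀ z, f (-z) = - f z)
    (K : ℕ) (P R S : ℕ → ZMod Q) (c : ℕ → ℤ)
    (hrec : ∀ k < K, P (k + 1) = S k ∧ R (k + 1) = 2 * (c k : ZMod Q) * S k - R k ∧
      S (k + 1) = P k + R k * (c k : ZMod Q) - S k * (c k : ZMod Q) ^ 2)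
    (hP : P K = P 0) (hR : R K = R 0) (hS : S K = S 0) :
    ∑ k ∈ range K, (Es (fun z => f (π z)) (P k) (R k) (S k) (c k)
        - c k * (N * Z0 f (π (S k))))
      = ∑ k ∈ range K, (Es f (π (P k)) (π (R k)) (π (S k)) (c k) - c k * Z0 f (π (S k))) := by
  have hodd1 : Q1 % 2 = 1 := by
    rw [hQ] at hodd
    exact Nat.odd_iff.1 (Nat.odd_mul.1 (Nat.odd_iff.2 hodd)).1
  have hBFD := PSX.t_BFD PSX.t_NUS PSX.t_DBL
  have h1 := hBFD Q hodd (fun z => f (π z)) (by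
    intro z
    simp only [map_neg]
    exact hf _) K P R S c hrec hP hR hS
  have h2 := hBFD Q1 hodd1 f hf K (fun k => π (P k)) (fun k => π (R k)) (fun k => π (S k)) c (by
    intro k hk
    obtain ⟨a1, a2, a3⟩ := hrec k hk
    refine ⟨?_, ?_, ?_⟩
    · rw [a1]
    · rw [a2]
      simp only [map_sub, map_mul, map_intCast, map_ofNat]
    · rw [a3]
      simp only [map_sub, map_add, map_mul, map_pow, map_intCast]) (by rw [hP]) (by rw [hR]) (by rw [hS])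
  rw [LVLp.sm_map] at h1
  have h3 : ∑ k ∈ range K, (3 * XA (fun z => (sm f) (π z)) (P k) (R k) (S k)
        - c k * YA (fun z => (sm f) (π z)) (P k) (R k) (S k))
      = (N : ℤ) ^ 2 * ∑ k ∈ range K, (3 * XA (sm f) (π (P k)) (π (R k)) (π (S k))
        - c k * YA (sm f) (π (P k)) (π (R k)) (π (S k))) := by
    rw [Finset.mul_sum]
    refine Finset.sum_congr rfl fun k _ => ?_
    rw [LVLp.XA_map hQ, LVLp.YA_map hQ]
    ring
  rw [h3, h2] at h1
  have hQ0 : (3 * (Q : ℤ) ^ 2) ≠ 0 := by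
    have : (Q : ℤ) ≠ 0 := by exact_mod_cast (NeZero.ne Q)
    positivity
  have h4 : 3 * (Q : ℤ) ^ 2 * ∑ k ∈ range K, (Es f (π (P k)) (π (R k)) (π (S k)) (c k)
        - c k * Z0 f (π (S k)))
      = 3 * (Q : ℤ) ^ 2 * ∑ k ∈ range K, (Es (fun z => f (π z)) (P k) (R k) (S k) (c k)
        - c k * Z0 (fun z => f (π z)) (S k)) := by
    have hQc : (Q : ℤ) = Q1 * N := by exact_mod_cast hQ
    rw [← h1, hQc]
    ring
  have h5 := mul_left_cancel₀ hQ0 h4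
  rw [h5]
  refine Finset.sum_congr rfl fun k _ => ?_
  rw [LVLp.Z0_map hQ]


namespace LVLp

variable {l q0 n e e0 : ℕ} {ψ : ℤ → ℤ}

/-- the family at level zero -/
lemma fam0 (h : Fam l q0 n e ψ) : Fam l q0 0 e ψ := by
  have hd : l ^ (0 + 1) ∣ l ^ (n + 1) := pow_dvd_pow l (by omega)
  have hmul : ∀ x y, ((ψ (x * y) : ℤ) : ZMod (l ^ (0 + 1))) = (ψ x : ℤ) * (ψ y : ℤ) := by
    intro x y
    have := congrArg (ZMod.castHom hd (ZMod (l ^ (0 + 1)))) (h.mul x y)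
    simpa using this
  suffices hz : (l : ℤ) ^ (0 + 1) ∣ Hs l q0 ψ (0 + 1) e from
    ⟨h.hl, h.l2, h.hq, h.cop, h.per, h.odd, hmul, hz⟩
  have hlo : l % 2 = 1 := h.lo
  have hM : (l ^ (0 + 1)) % 2 = 1 := Nat.odd_iff.1 (Odd.pow (Nat.odd_iff.2 hlo))
  have hQ : (q0 * l) % 2 = 1 := Nat.odd_iff.1 (Odd.mul (Nat.odd_iff.2 h.hq) (Nat.odd_iff.2 hlo))
  have hper : ∀ x : ℤ, FN l 0 e ψ (x + ((q0 * l : ℕ) : ℤ)) = FN l 0 e ψ x := by
    intro x
    unfold FN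
    have e1 : ψ (x + ((q0 * l : ℕ) : ℤ)) = ψ x := by
      have := h.ψper x l
      rw [← this]
      congr 1
      push_cast
      ring
    rw [e1]
    congr 2
    push_cast
    have h0 : ((l : ZMod (l ^ (0 + 1)))) = 0 := by
      have := ZMod.natCast_self (l ^ (0 + 1))
      push_cast at this
      simpa using this
    rw [h0, mul_zero, add_zero]
  have hneg : ∀ x : ℤ, FN l 0 e ψ (-x) = - FN l 0 e ψ x := by
    intro u
    unfold FN
    have h1 := congrArg (Int.cast : ℤ → ZMod (l ^ (0 + 1))) (h.odd u)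
    push_cast at h1 ⊢
    have h2 : (-(u : ZMod (l ^ (0 + 1)))) ^ e = (-1) ^ e * (u : ZMod (l ^ (0 + 1))) ^ e := by
      rw [← mul_pow, neg_one_mul]
    push_cast at h2
    rw [h2]
    linear_combination ((u : ZMod (l ^ (0 + 1))) ^ e) * h1
  obtain ⟨s, hs⟩ : ∃ s, l ^ n = 2 * s + 1 := by
    have : (l ^ n) % 2 = 1 := Nat.odd_iff.1 (Odd.pow (Nat.odd_iff.2 hlo))
    exact ⟨l ^ n / 2, by omega⟩
  have key := P4G.half_sum hM hQ s (FN l 0 e ψ) hper hneg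
  have e1 : (2 * s + 1) * (q0 * l) = q0 * l ^ (n + 1) := by rw [← hs]; ring
  rw [e1] at key
  have e2 : ((Hs l q0 ψ (n + 1) e : ℤ) : ZMod (l ^ (0 + 1))) = 0 := by
    rw [ZMod.intCast_zmod_eq_zero_iff_dvd]
    exact dvd_trans (by exact_mod_cast hd) h.zero
  have e3 : ((Hs l q0 ψ (0 + 1) e : ℤ) : ZMod (l ^ (0 + 1))) = 0 := by
    rw [← e2]
    unfold Hs
    rw [show q0 * l ^ (0 + 1) = q0 * l by simp]
    push_cast
    have e4 : ∀ m : ℕ, ∑ x ∈ range ((m + 1) / 2), ((ψ (x : ℤ) : ℤ) : ZMod (l ^ (0 + 1)))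
        * ((x : ℕ) : ZMod (l ^ (0 + 1))) ^ e = ∑ r ∈ range ((m + 1) / 2), FN l 0 e ψ (r : ℤ) := by
      intro m
      refine Finset.sum_congr rfl fun r _ => ?_
      unfold FN
      push_cast
      rfl
    rw [e4, e4]
    exact key.symm
  have := (ZMod.intCast_zmod_eq_zero_iff_dvd _ _).1 e3
  exact_mod_cast this

lemma fg0 (h : Fg l q0 n e e0 ψ) : Fg l q0 0 e e0 ψ :=
  ⟨fam0 h.fam, h.one, h.red, h.nd⟩

end LVLp

/-- sums over squares vanish -/
theorem zsq {l q0 n e e0 : ℕ} {ψ : ℤ → ℤ} [NeZero (QN l q0 n)] (h : Fg l q0 n e e0 ψ)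
    (S : ZMod (QN l q0 n)) : Z0 (FZ l q0 n e ψ) S = 0 := by
  obtain ⟨k, t, hk, hcq, hcl, hkt, hnd⟩ :=
    PSX.M_ZSQ.exists_mult l q0 e h.fam.hl h.fam.cop h.fam.hq h.nd
  have hfn : FN l n e ψ ((k : ℤ) ^ 2) = ((k ^ (2 * e) : ℕ) : ZMod (l ^ (n + 1))) := by
    unfold FN
    have h1 : ψ ((k : ℤ) ^ 2) = 1 := by
      have h2 : ((k : ℤ) ^ 2) = 1 + (t : ℤ) * q0 := by exact_mod_cast hkt
      rw [h2, h.fam.ψper, h.one]
    rw [h1]
    push_cast
    rw [one_mul, pow_mul]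
  have hun : IsUnit ((k : ℕ) : ZMod (QN l q0 n)) := by
    rw [ZMod.isUnit_iff_coprime]
    unfold QN
    exact Nat.Coprime.mul_right hcq (Nat.Coprime.pow_right _ hcl)
  obtain ⟨w, hw⟩ := hun
  have key : Z0 (FZ l q0 n e ψ) S =
      ((k ^ (2 * e) : ℕ) : ZMod (l ^ (n + 1))) * Z0 (FZ l q0 n e ψ) S := by
    unfold Z0
    rw [Finset.mul_sum, ← Equiv.sum_comp (Units.mulLeft w)]
    refine Finset.sum_congr rfl fun y _ => ?_
    have h3 : -(S * ((Units.mulLeft w) y) ^ 2) =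
        (((k : ℤ) ^ 2 : ℤ) : ZMod (QN l q0 n)) * (-(S * y ^ 2)) := by
      rw [Units.mulLeft_apply, hw]
      push_cast
      ring
    rw [h3, h.fam.FZ_mul, hfn]
  have hunit : IsUnit (((k ^ (2 * e) - 1 : ℕ)) : ZMod (l ^ (n + 1))) := by
    rw [ZMod.isUnit_iff_coprime]
    exact Nat.Coprime.pow_right _ ((Nat.Prime.coprime_iff_not_dvd h.fam.hl).2 hnd).symm
  have h5 : (((k ^ (2 * e) - 1 : ℕ)) : ZMod (l ^ (n + 1))) * Z0 (FZ l q0 n e ψ) S = 0 := by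
    rw [Nat.cast_sub (Nat.one_le_pow _ _ hk), Nat.cast_one, sub_mul, one_mul, ← key, sub_self]
  exact (hunit.mul_right_eq_zero).1 h5

/-- an integral cycle closed modulo `Q` -/
structure Cyc (Q K : ℕ) (P R S c : ℕ → ℤ) : Prop where
  hP : ∀ k < K, ((P (k + 1) : ℤ) : ZMod Q) = (S k : ZMod Q)
  hR : ∀ k < K, ((R (k + 1) : ℤ) : ZMod Q) = 2 * (c k : ZMod Q) * (S k : ZMod Q) - (R k : ZMod Q)
  hS : ∀ k < K, ((S (k + 1) : ℤ) : ZMod Q) = (P k : ZMod Q) + (R k : ZMod Q) * (c k : ZMod Q)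
    - (S k : ZMod Q) * (c k : ZMod Q) ^ 2
  P0 : ((P K : ℤ) : ZMod Q) = (P 0 : ZMod Q)
  R0 : ((R K : ℤ) : ZMod Q) = (R 0 : ZMod Q)
  S0 : ((S K : ℤ) : ZMod Q) = (S 0 : ZMod Q)

lemma pow_dvd_level (l n : ℕ) : l ^ (0 + 1) ∣ l ^ (n + 1) := pow_dvd_pow l (by omega)

/-- **level independence** -/
theorem lvl {l q0 n e e0 : ℕ} {ψ : ℤ → ℤ} [NeZero (QN l q0 n)]
    [NeZero (QN l q0 0)] (h : Fg l q0 n e e0 ψ) (K : ℕ) (P R S c : ℕ → ℤ)
    (hc : Cyc (QN l q0 n) K P R S c) :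
    ZMod.castHom (pow_dvd_level l n) (ZMod (l ^ (0 + 1)))
      (∑ k ∈ range K, Es (FZ l q0 n e ψ) (P k : ZMod (QN l q0 n)) (R k : ZMod (QN l q0 n))
        (S k : ZMod (QN l q0 n)) (c k))
      = ∑ k ∈ range K, Es (FZ l q0 0 e ψ) (P k : ZMod (QN l q0 0)) (R k : ZMod (QN l q0 0))
        (S k : ZMod (QN l q0 0)) (c k) := by
  set ρ := ZMod.castHom (pow_dvd_level l n) (ZMod (l ^ (0 + 1))) with hρ
  have hQ : QN l q0 n = QN l q0 0 * l ^ n := by unfold QN; ring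
  have hd : QN l q0 0 ∣ QN l q0 n := ⟨_, hQ⟩
  set π := ZMod.castHom hd (ZMod (QN l q0 0)) with hπ
  have h0 := LVLp.fg0 h
  obtain ⟨f, hf, hfc⟩ := PSX.t_LFT l q0 0 e ψ h0.fam
  have e1 : ∀ z : ZMod (QN l q0 n), ρ (FZ l q0 n e ψ z) = FZ l q0 0 e ψ (π z) := by
    intro z
    obtain ⟨u, rfl⟩ := ZMod.intCast_surjective z
    rw [h.fam.FZ_cast, map_intCast, h0.fam.FZ_cast]
    unfold FN
    rw [map_mul, map_pow, map_intCast, map_intCast]
  have e2 : ∀ (P R S : ZMod (QN l q0 n)) (c : ℤ), ρ (Es (FZ l q0 n e ψ) P R S c)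
      = ((Es (fun z => f (π z)) P R S c : ℤ) : ZMod (l ^ (0 + 1))) := by
    intro P R S c
    unfold Es
    rw [map_sum, Int.cast_sum]
    refine Finset.sum_congr rfl fun x _ => ?_
    rw [map_sum, Int.cast_sum]
    refine Finset.sum_congr rfl fun y _ => ?_
    rw [map_mul, map_intCast, e1, Int.cast_mul, hfc]
    rfl
  have e3 : ∀ (P R S : ZMod (QN l q0 0)) (c : ℤ), Es (FZ l q0 0 e ψ) P R S c
      = ((Es f P R S c : ℤ) : ZMod (l ^ (0 + 1))) := by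
    intro P R S c
    unfold Es
    rw [Int.cast_sum]
    refine Finset.sum_congr rfl fun x _ => ?_
    rw [Int.cast_sum]
    refine Finset.sum_congr rfl fun y _ => ?_
    rw [Int.cast_mul, hfc]
    rfl
  have e4 : ∀ S : ZMod (QN l q0 0), ((Z0 f S : ℤ) : ZMod (l ^ (0 + 1))) = 0 := by
    intro S
    rw [← zsq h0 S]
    unfold Z0
    rw [Int.cast_sum]
    exact Finset.sum_congr rfl fun y _ => hfc _
  have key := lvlZ hQ h.fam.Qodd π f hf K (fun k => (P k : ZMod (QN l q0 n)))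
    (fun k => (R k : ZMod (QN l q0 n))) (fun k => (S k : ZMod (QN l q0 n))) c
    (fun k hk => ⟨hc.hP k hk, hc.hR k hk, hc.hS k hk⟩) hc.P0 hc.R0 hc.S0
  have key2 := congrArg (Int.cast : ℤ → ZMod (l ^ (0 + 1))) key
  simp only [Int.cast_sum, Int.cast_sub, Int.cast_mul, e4, mul_zero, sub_zero, map_intCast] at key2
  rw [map_sum]
  simp only [e2, e3]
  exact key2

end Pool.Agent.BQ1
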