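import Pool.Agent.BQ1.KZ
import Pool.Agent.PSX.M_CQC
import Pool.Agent.PSX.VAN
import Pool.Agent.PSX.M_UNI
import Pool.Agent.RQM.C14

/-!
# One step of the descent, and the closing relation (note 2964, section 5)
-/

set_option autoImplicit false

namespace Pool.Agent.BQ1

open Finset (range)
open Pool.Agent.P4G (Fam QN FN FZ CC CR Hs)
open Pool.Agent.PSX (Es EZ SX evZ I0)

/-- **one step of the descent** -/
theorem stp {l q0 n e e0 : ℕ} {ψ : ℤ → ℤ} [NeZero (QN l q0 n)] (h : Fg l q0 n e e0 ψ) {N : ℕ}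
    (hN0 : 0 < N) {a : ℤ} (P R S c : ℕ → ℤ)
    (hP : ∀ k < N, ((P k : ℤ) : ZMod (QN l q0 n)) = 1)
    (hR : ∀ k < N, ((R k : ℤ) : ZMod (QN l q0 n)) = (a : ZMod (QN l q0 n)))
    (hS : ∀ k < N, ((S k : ℤ) : ZMod (QN l q0 n)) = 1)
    (hc : ∀ k < N, k ≠ 0 → c k = a)
    (hrel : ∑ k ∈ range N, Es (FZ l q0 n e ψ) (P k : ZMod (QN l q0 n)) (R k : ZMod (QN l q0 n))
      (S k : ZMod (QN l q0 n)) (c k) = 0)
    {y : ℤ} (hy : c 0 = a + (QN l q0 n : ℕ) * y) (hlN : l ^ (n + 1) ∣ N)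
    (hCR : ¬ (l : ℤ) ∣ CR l q0 e ψ (a ^ 2 + 4)) : (l : ℤ) ∣ y := by
  set F := FZ l q0 n e ψ with hF
  have e1 : ∀ k ∈ range N, Es F (P k : ZMod (QN l q0 n)) (R k : ZMod (QN l q0 n))
      (S k : ZMod (QN l q0 n)) (c k)
      = Es F ((1 : ℤ) : ZMod (QN l q0 n)) (a : ZMod (QN l q0 n)) ((1 : ℤ) : ZMod (QN l q0 n)) (c k) := by
    intro k hk
    have hk' := Finset.mem_range.1 hk
    rw [hP k hk', hR k hk', hS k hk', Int.cast_one]
  rw [Finset.sum_congr rfl e1] at hrel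
  obtain ⟨N', rfl⟩ : ∃ N', N = N' + 1 := ⟨N - 1, by omega⟩
  rw [Finset.sum_range_succ'] at hrel
  have e2 : ∀ k ∈ range N', Es F ((1 : ℤ) : ZMod (QN l q0 n)) (a : ZMod (QN l q0 n))
      ((1 : ℤ) : ZMod (QN l q0 n)) (c (k + 1))
      = Es F ((1 : ℤ) : ZMod (QN l q0 n)) (a : ZMod (QN l q0 n)) ((1 : ℤ) : ZMod (QN l q0 n)) a := by
    intro k hk
    rw [hc (k + 1) (by have := Finset.mem_range.1 hk; omega) (by omega)]
  rw [Finset.sum_congr rfl e2, Finset.sum_const, Finset.card_range, hy] at hrel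
  have e3 : Es F ((1 : ℤ) : ZMod (QN l q0 n)) (a : ZMod (QN l q0 n)) ((1 : ℤ) : ZMod (QN l q0 n))
      (a + (QN l q0 n : ℕ) * y)
      = Es F ((1 : ℤ) : ZMod (QN l q0 n)) (a : ZMod (QN l q0 n)) ((1 : ℤ) : ZMod (QN l q0 n)) a
        + 2 * (y : ZMod (l ^ (n + 1))) * SX (QN l q0 n) (I0 l q0 n e ψ 1 a 1) := by
    rw [hF, PSX.t_EFZ l q0 n e ψ h.fam, PSX.t_EFZ l q0 n e ψ h.fam,
      PSX.t_LCQ (PSX.t_LCH PSX.t_NUS) l q0 n h.fam.Qodd (fun x y => FN l n e ψ (evZ 1 a 1 x y))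
      (by
        intro x y
        apply KZp.FN_congr h.fam
        refine ⟨a * x - 2 * 1 * y - 1 * (QN l q0 n : ℕ), ?_⟩
        unfold evZ
        ring) a y]
    rfl
  rw [e3, nsmul_eq_mul] at hrel
  have hNz : (((N' + 1 : ℕ)) : ZMod (l ^ (n + 1))) = 0 := (ZMod.natCast_eq_zero_iff _ _).2 hlN
  push_cast at hNz
  have h2 : 2 * SX (QN l q0 n) (I0 l q0 n e ψ 1 a 1) * ((y : ℤ) : ZMod (l ^ (n + 1))) = 0 := by
    linear_combination hrel - (Es F ((1 : ℤ) : ZMod (QN l q0 n)) (a : ZMod (QN l q0 n))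
      ((1 : ℤ) : ZMod (QN l q0 n)) a) * hNz
  have e4 : a ^ 2 + 4 * 1 * 1 = a ^ 2 + 4 := by ring
  exact PSX.t_VAN (PSX.t_CQC PSX.t_UNI) l q0 n e ψ h.fam 1 a 1 y isCoprime_one_left (by rw [e4]; exact hCR) h2

/-- the next form of a cycle -/
def nx {A : Type*} [CommRing A] (a : A) (f : A × A × A) : A × A × A :=
  (f.2.2, 2 * a * f.2.2 - f.2.1, f.1 + f.2.1 * a - f.2.2 * a ^ 2)

/-- the forms of the word of letters `a`, from `(m, a, 1)` -/
def fo (a m : ℤ) (k : ℕ) : ℤ × ℤ × ℤ := (nx a)^[k] (m, a, 1)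

lemma fo_zero (a m : ℤ) : fo a m 0 = (m, a, 1) := rfl

lemma fo_succ (a m : ℤ) (k : ℕ) : fo a m (k + 1) = nx a (fo a m k) := by
  unfold fo
  rw [Function.iterate_succ_apply']

/-- the fixed form -/
lemma fo_fix {a m d : ℤ} (hd : d ∣ m - 1) (k : ℕ) :
    d ∣ (fo a m k).1 - 1 ∧ d ∣ (fo a m k).2.1 - a ∧ d ∣ (fo a m k).2.2 - 1 := by
  induction k with
  | zero =>
    rw [fo_zero]
    exact ⟨hd, by simp, by simp⟩
  | succ k ih =>
    obtain ⟨⟨x, hx⟩, ⟨y, hy⟩, ⟨z, hz⟩⟩ := ih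
    rw [fo_succ]
    unfold nx
    simp only
    refine ⟨⟨z, hz⟩, ⟨2 * a * z - y, ?_⟩, ⟨x + a * y - a ^ 2 * z, ?_⟩⟩
    · linear_combination 2 * a * hz - hy
    · linear_combination hx + a * hy - a ^ 2 * hz

/-- the value of `fo` modulo `Q` -/
def foQ (Q : ℕ) (a m : ℤ) (k : ℕ) : ZMod Q × ZMod Q × ZMod Q :=
  (((fo a m k).1 : ZMod Q), ((fo a m k).2.1 : ZMod Q), ((fo a m k).2.2 : ZMod Q))

lemma foQ_eq (Q : ℕ) (a m : ℤ) (k : ℕ) :
    foQ Q a m k = (nx (a : ZMod Q))^[k] ((m : ZMod Q), (a : ZMod Q), 1) := by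
  induction k with
  | zero => simp [foQ, fo_zero]
  | succ k ih =>
    rw [Function.iterate_succ_apply', ← ih]
    unfold foQ
    rw [fo_succ]
    unfold nx
    simp

/-- sums over blocks of a periodic orbit -/
lemma blocks {X M : Type*} [CommRing M] (f : X → X) (x : X) {T : ℕ} (hT : f^[T] x = x) (K : ℕ)
    (g : X → M) : ∑ k ∈ range (T * K), g (f^[k] x) = K * ∑ k ∈ range T, g (f^[k] x) := by
  rw [LVLp.sum_mul, Finset.mul_sum]
  refine Finset.sum_congr rfl fun i _ => ?_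
  have h1 : ∀ j : ℕ, f^[i + T * j] x = f^[i] x := by
    intro j
    rw [Function.iterate_add_apply, Function.iterate_mul]
    congr 1
    exact Function.iterate_fixed hT j
  simp only [h1, Finset.sum_const, Finset.card_range, nsmul_eq_mul]

/-- the forms of a word `(B; a, .., a)` modulo `Q`, if `Q` divides `B - a` -/
lemma orb {Q : ℕ} {m B a : ℤ} (K : ℕ) (P R S c : ℕ → ℤ)
    (hP : ∀ k < K, P (k + 1) = S k) (hR : ∀ k < K, R (k + 1) = 2 * c k * S k - R k)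
    (hS : ∀ k < K, S (k + 1) = P k + R k * c k - S k * c k ^ 2)
    (P0 : P 0 = m) (R0 : R 0 = B) (S0 : S 0 = 1) (hB : (Q : ℤ) ∣ B - a)
    (hc : ∀ k < K, (Q : ℤ) ∣ c k - a) (k : ℕ) (hk : k ≤ K) :
    (((P k : ℤ) : ZMod Q), ((R k : ℤ) : ZMod Q), ((S k : ℤ) : ZMod Q)) = foQ Q a m k := by
  have hBa : ((B : ℤ) : ZMod Q) = (a : ZMod Q) :=
    ((ZMod.intCast_eq_intCast_iff_dvd_sub a B Q).2 hB).symm
  induction k with
  | zero =>
    unfold foQ
    rw [fo_zero, P0, R0, S0, hBa]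
  | succ k ih =>
    have h1 := ih (by omega)
    have hca : ((c k : ℤ) : ZMod Q) = (a : ZMod Q) :=
      ((ZMod.intCast_eq_intCast_iff_dvd_sub a (c k) Q).2 (hc k (by omega))).symm
    unfold foQ at h1 ⊢
    rw [Prod.mk.injEq, Prod.mk.injEq] at h1
    obtain ⟨h2, h3, h4⟩ := h1
    rw [fo_succ, hP k (by omega), hR k (by omega), hS k (by omega)]
    unfold nx
    simp only
    push_cast
    rw [h2, h3, h4, hca]

/-- cancelling the number of blocks -/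
lemma cancel {l n M : ℕ} (hl : l.Prime) (hM : ¬ l ^ (n + 1) ∣ M) (x : ZMod (l ^ (n + 1)))
    (hx : (M : ZMod (l ^ (n + 1))) * x = 0) :
    ZMod.castHom (pow_dvd_level l n) (ZMod (l ^ (0 + 1))) x = 0 := by
  obtain ⟨w, rfl⟩ := ZMod.intCast_surjective x
  rw [map_intCast, ZMod.intCast_zmod_eq_zero_iff_dvd]
  by_contra hw
  apply hM
  have h1 : (((M : ℤ) * w : ℤ) : ZMod (l ^ (n + 1))) = 0 := by push_cast; exact hx
  rw [ZMod.intCast_zmod_eq_zero_iff_dvd] at h1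
  have h2 : IsCoprime (((l ^ (n + 1) : ℕ)) : ℤ) w := by
    push_cast
    apply IsCoprime.pow_left
    rw [Int.isCoprime_iff_gcd_eq_one, Int.gcd_comm]
    have h3 := (Nat.Prime.coprime_iff_not_dvd hl).2 (fun h4 : l ∣ w.natAbs => hw (by
      have := Int.natCast_dvd.2 h4
      simpa using this))
    rw [Int.gcd_comm]
    simpa [Int.gcd] using h3
  have h3 := h2.dvd_of_dvd_mul_right h1
  exact_mod_cast h3

/-- **the closing relation**: the sum over one period of the forms vanishes at level zero -/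
theorem fin {l q0 n e e0 : ℕ} {ψ : ℤ → ℤ} [NeZero (QN l q0 n)] [NeZero (QN l q0 0)]
    (h : Fg l q0 n e e0 ψ) (he : 2 * e0 < l - 1) {m B a : ℤ} {N T K : ℕ} (hN0 : 0 < N)
    (P R S c : ℕ → ℤ)
    (hP : ∀ k < N, P (k + 1) = S k) (hR : ∀ k < N, R (k + 1) = 2 * c k * S k - R k)
    (hS : ∀ k < N, S (k + 1) = P k + R k * c k - S k * c k ^ 2)
    (P0 : P 0 = m) (R0 : R 0 = B) (S0 : S 0 = 1) (hc0 : c 0 = B) (hca : ∀ k < N, k ≠ 0 → c k = a)
    (hrel : ∑ k ∈ range N, Es (FZ l q0 n e ψ) (P k : ZMod (QN l q0 n)) (R k : ZMod (QN l q0 n))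
      (S k : ZMod (QN l q0 n)) (c k) = 0)
    (hB : ((QN l q0 n : ℕ) : ℤ) ∣ B - a) (hm : ((l ^ (n + 1) : ℕ) : ℤ) ∣ m - 1) (hTK : N = T * K)
    (hT : foQ q0 a m T = foQ q0 a m 0) (hK : ¬ l ^ (n + 1) ∣ K) :
    ∑ k ∈ range T, Es (FZ l q0 0 e ψ) (foQ (QN l q0 0) a m k).1 (foQ (QN l q0 0) a m k).2.1
      (foQ (QN l q0 0) a m k).2.2 a = 0 := by
  set Q := QN l q0 n with hQ
  -- the period modulo `Q`
  have hTQ : foQ Q a m T = foQ Q a m 0 := by
    have hcop : Nat.Coprime q0 (l ^ (n + 1)) := Nat.Coprime.pow_right _ h.fam.cop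
    have key : ∀ x y : ℤ, ((x : ℤ) : ZMod q0) = (y : ZMod q0) →
        ((l ^ (n + 1) : ℕ) : ℤ) ∣ x - y → ((x : ℤ) : ZMod Q) = (y : ZMod Q) := by
      intro x y h1 h2
      have h3 : (q0 : ℤ) ∣ x - y := (ZMod.intCast_eq_intCast_iff_dvd_sub y x q0).1 h1.symm
      have h4 : ((Q : ℕ) : ℤ) ∣ x - y := by
        rw [hQ]
        unfold QN
        rw [Nat.cast_mul]
        exact IsCoprime.mul_dvd (Nat.isCoprime_iff_coprime.2 hcop) h3 h2
      exact ((ZMod.intCast_eq_intCast_iff_dvd_sub y x Q).2 h4).symm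
    obtain ⟨a1, a2, a3⟩ := fo_fix (a := a) hm T
    obtain ⟨b1, b2, b3⟩ := fo_fix (a := a) hm 0
    unfold foQ at hT ⊢
    rw [Prod.mk.injEq, Prod.mk.injEq] at hT ⊢
    refine ⟨key _ _ hT.1 ?_, key _ _ hT.2.1 ?_, key _ _ hT.2.2 ?_⟩
    · have := dvd_sub a1 b1; simpa using this
    · have := dvd_sub a2 b2; simpa using this
    · have := dvd_sub a3 b3; simpa using this
  obtain ⟨t0, ht0⟩ := hB
  have hBt : B = a + (Q : ℕ) * t0 := by linarith
  have horb := orb (Q := Q) N P R S c hP hR hS P0 R0 S0 ⟨t0, ht0⟩ (by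
    intro k hk
    by_cases h0 : k = 0
    · rw [h0, hc0]; exact ⟨t0, ht0⟩
    · rw [hca k hk h0]; simp)
  have e1 : ∀ k ∈ range N, Es (FZ l q0 n e ψ) (P k : ZMod Q) (R k : ZMod Q) (S k : ZMod Q) (c k)
      = (fun x : ZMod Q × ZMod Q × ZMod Q => Es (FZ l q0 n e ψ) x.1 x.2.1 x.2.2 a)
        ((nx (a : ZMod Q))^[k] ((m : ZMod Q), (a : ZMod Q), 1)) := by
    intro k hk
    have hk' := Finset.mem_range.1 hk
    have h1 := horb k hk'.le
    rw [← foQ_eq, ← h1]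
    simp only
    by_cases h0 : k = 0
    · rw [h0, hc0, hBt]
      exact kz h he _ _ _ a t0
    · rw [hca k hk' h0]
  rw [Finset.sum_congr rfl e1, hTK, blocks (nx (a : ZMod Q)) ((m : ZMod Q), (a : ZMod Q), 1) (by
    rw [← foQ_eq, hTQ, foQ_eq]; rfl) K
    (fun x : ZMod Q × ZMod Q × ZMod Q => Es (FZ l q0 n e ψ) x.1 x.2.1 x.2.2 a)] at hrel
  have h2 := cancel h.fam.hl hK _ hrel
  have hcyc : Cyc (QN l q0 n) T (fun k => (fo a m k).1) (fun k => (fo a m k).2.1)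
      (fun k => (fo a m k).2.2) (fun _ => a) := by
    have hT' := hTQ
    unfold foQ at hT'
    rw [Prod.mk.injEq, Prod.mk.injEq] at hT'
    refine ⟨?_, ?_, ?_, hT'.1, hT'.2.1, hT'.2.2⟩
    · intro k _
      rw [fo_succ]
      rfl
    · intro k _
      rw [fo_succ]
      unfold nx
      push_cast
      ring
    · intro k _
      rw [fo_succ]
      unfold nx
      push_cast
      ring
  have h3 := lvl h T _ _ _ _ hcyc
  refine h3.symm.trans (Eq.trans ?_ h2)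
  congr 1
  refine Finset.sum_congr rfl fun k _ => ?_
  rw [← foQ_eq]
  rfl

end Pool.Agent.BQ1
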